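import Pool.Agent.R283.TI.Cone1

/-!
# Part CONE: the cone algebra of a nuclear C*-algebra is nuclear
-/

set_option autoImplicit false

open Filter Topology
open scoped InnerProductSpace ComplexOrder

namespace Pool.Agent.R283.TI

noncomputable section

namespace ConeP

variable {D : Type} [CStarAlgebra D]

/-- evaluation at a point -/
def ev (t : unitInterval) : Cone D →⋆ₐ[ℂ] D where
  toFun f := (f : C(unitInterval, D)) t
  map_one' := rfl
  map_mul' _ _ := rfl
  map_zero' := rfl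
  map_add' _ _ := rfl
  commutes' _ := rfl
  map_star' _ := rfl

theorem ev_apply (t : unitInterval) (f : Cone D) : ev t f = (f : C(unitInterval, D)) t := rfl

theorem norm_ev_le (t : unitInterval) (f : Cone D) : ‖ev t f‖ ≤ ‖f‖ :=
  ContinuousMap.norm_coe_le_norm (f : C(unitInterval, D)) t

theorem ev_zero_mem (f : Cone D) : ∃ c : ℂ, ev 0 f = algebraMap ℂ D c := f.2

section chi

variable [Nontrivial D]

theorem algebraMap_inj {c d : ℂ} (h : algebraMap ℂ D c = algebraMap ℂ D d) : c = d :=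
  (algebraMap ℂ D).injective h

/-- the scalar value at zero -/
def chi : Cone D →ₗ[ℂ] ℂ where
  toFun f := (ev_zero_mem f).choose
  map_add' f g := by
    apply algebraMap_inj (D := D)
    rw [← (ev_zero_mem (f + g)).choose_spec, map_add, map_add,
      ← (ev_zero_mem f).choose_spec, ← (ev_zero_mem g).choose_spec]
  map_smul' c f := by
    apply algebraMap_inj (D := D)
    rw [← (ev_zero_mem (c • f)).choose_spec, map_smul, RingHom.id_apply, smul_eq_mul, map_mul,
      ← (ev_zero_mem f).choose_spec, Algebra.smul_def]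

theorem chi_spec (f : Cone D) : ev 0 f = algebraMap ℂ D (chi f) := (ev_zero_mem f).choose_spec

theorem chi_star_mul (f g : Cone D) : chi (star f * g) = (starRingEnd ℂ) (chi f) * chi g := by
  apply algebraMap_inj (D := D)
  rw [← chi_spec, map_mul, map_star, chi_spec, chi_spec, map_mul]
  congr 1
  rw [← algebraMap_star_comm]
  rfl

theorem norm_chi_le (f : Cone D) : ‖chi f‖ ≤ ‖f‖ := by
  have h := norm_ev_le 0 f
  rw [chi_spec, norm_algebraMap'] at h
  exact h

end chi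

section psi

variable {J ι : Type} [Fintype J] [DecidableEq J] [Fintype ι]

/-- the map `Ψ` -/
def Psi (ψ : J → (Mat ι →ₗ[ℂ] D)) (h : J → C(unitInterval, ℝ)) (j0 : J)
    (h0 : ∀ i, i ≠ j0 → h i 0 = 0) (hs : ∀ M, ∃ c : ℂ, ψ j0 M = algebraMap ℂ D c) :
    Mat (J × ι) →ₗ[ℂ] Cone D where
  toFun M := ⟨⟨fun t => ∑ i, ((h i t : ℝ) : ℂ) • ψ i (dg i i M), by
      refine continuous_finsetSum _ (fun i _ => ?_)
      exact (Complex.continuous_ofReal.comp (h i).continuous).smul continuous_const⟩, by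
      show ∃ c : ℂ, ∑ i, ((h i 0 : ℝ) : ℂ) • ψ i (dg i i M) = algebraMap ℂ D c
      obtain ⟨c, hc⟩ := hs (dg j0 j0 M)
      refine ⟨((h j0 0 : ℝ) : ℂ) * c, ?_⟩
      rw [Finset.sum_eq_single j0]
      · rw [hc, map_mul, Algebra.smul_def]
      · intro i _ hi
        rw [h0 i hi]
        simp
      · intro hj
        exact absurd (Finset.mem_univ j0) hj⟩
  map_add' M N := by
    apply Subtype.ext
    ext t
    show ∑ i, ((h i t : ℝ) : ℂ) • ψ i (dg i i (M + N)) =
      ∑ i, ((h i t : ℝ) : ℂ) • ψ i (dg i i M) + ∑ i, ((h i t : ℝ) : ℂ) • ψ i (dg i i N)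
    rw [← Finset.sum_add_distrib]
    refine Finset.sum_congr rfl (fun i _ => ?_)
    rw [dg_add, map_add, smul_add]
  map_smul' c M := by
    apply Subtype.ext
    ext t
    show ∑ i, ((h i t : ℝ) : ℂ) • ψ i (dg i i (c • M)) =
      c • ∑ i, ((h i t : ℝ) : ℂ) • ψ i (dg i i M)
    rw [Finset.smul_sum]
    refine Finset.sum_congr rfl (fun i _ => ?_)
    rw [dg_smul, map_smul, smul_comm]

variable (ψ : J → (Mat ι →ₗ[ℂ] D)) (h : J → C(unitInterval, ℝ)) (j0 : J)
    (h0 : ∀ i, i ≠ j0 → h i 0 = 0) (hs : ∀ M, ∃ c : ℂ, ψ j0 M = algebraMap ℂ D c)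

theorem ev_Psi (t : unitInterval) (M : Mat (J × ι)) :
    ev t (Psi ψ h j0 h0 hs M) = ∑ i, ((h i t : ℝ) : ℂ) • ψ i (dg i i M) := rfl

theorem isCP_Psi (hn : ∀ i t, 0 ≤ h i t) (hψ : ∀ i, IsCP (ψ i)) :
    IsCP (Psi ψ h j0 h0 hs) := by
  intro k a b
  apply posCone
  intro t
  rw [← ev_apply]
  have h1 : ev t (∑ p, ∑ q, star (b p) * Psi ψ h j0 h0 hs (star (a p) * a q) * b q) =
      ∑ i, ((h i t : ℝ) : ℂ) • ∑ l, ∑ p, ∑ q,
        star (ev t (b p)) * ψ i (star (dg l i (a p)) * dg l i (a q)) * ev t (b q) := by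
    have e : ∀ p q, ev t (star (b p) * Psi ψ h j0 h0 hs (star (a p) * a q) * b q) =
        ∑ i, ((h i t : ℝ) : ℂ) • ∑ l,
          star (ev t (b p)) * ψ i (star (dg l i (a p)) * dg l i (a q)) * ev t (b q) := by
      intro p q
      rw [map_mul, map_mul, map_star, ev_Psi, Finset.mul_sum, Finset.sum_mul]
      refine Finset.sum_congr rfl (fun i _ => ?_)
      rw [mul_smul_comm, smul_mul_assoc, dg_star_mul, map_sum, Finset.mul_sum, Finset.sum_mul]
    simp only [map_sum, e]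
    have e2 : ∀ p, ∑ q, ∑ i, ((h i t : ℝ) : ℂ) • ∑ l,
          star (ev t (b p)) * ψ i (star (dg l i (a p)) * dg l i (a q)) * ev t (b q) =
        ∑ i, ((h i t : ℝ) : ℂ) • ∑ l, ∑ q,
          star (ev t (b p)) * ψ i (star (dg l i (a p)) * dg l i (a q)) * ev t (b q) := by
      intro p
      rw [Finset.sum_comm]
      refine Finset.sum_congr rfl (fun i _ => ?_)
      rw [← Finset.smul_sum, Finset.sum_comm]
    rw [Finset.sum_congr rfl (fun p _ => e2 p), Finset.sum_comm]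
    refine Finset.sum_congr rfl (fun i _ => ?_)
    rw [← Finset.smul_sum, Finset.sum_comm]
  rw [h1]
  refine pos_sum _ _ (fun i _ => pos_smul (hn i t) (pos_sum _ _ (fun l _ => ?_)))
  exact hψ i k (fun p => dg l i (a p)) (fun p => ev t (b p))

theorem norm_csum_le {n : ℝ} (hn : ∀ i t, 0 ≤ h i t) (hsum : ∀ t, ∑ i, h i t = 1)
    (t : unitInterval) (x : J → D) (hx : ∀ i, h i t ≠ 0 → ‖x i‖ ≤ n) :
    ‖∑ i, ((h i t : ℝ) : ℂ) • x i‖ ≤ n := by
  calc ‖∑ i, ((h i t : ℝ) : ℂ) • x i‖ ≤ ∑ i, ‖((h i t : ℝ) : ℂ) • x i‖ := norm_sum_le _ _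
    _ ≤ ∑ i, h i t * n := by
        refine Finset.sum_le_sum (fun i _ => ?_)
        rw [norm_smul, Complex.norm_real, Real.norm_of_nonneg (hn i t)]
        by_cases h1 : h i t = 0
        · rw [h1, zero_mul, zero_mul]
        · exact mul_le_mul_of_nonneg_left (hx i h1) (hn i t)
    _ = n := by rw [← Finset.sum_mul, hsum t, one_mul]

theorem norm_Psi_le (hn : ∀ i t, 0 ≤ h i t) (hsum : ∀ t, ∑ i, h i t = 1)
    (hψ : ∀ i M, ‖ψ i M‖ ≤ ‖M‖) (M : Mat (J × ι)) : ‖Psi ψ h j0 h0 hs M‖ ≤ ‖M‖ := by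
  show ‖((Psi ψ h j0 h0 hs M : Cone D) : C(unitInterval, D))‖ ≤ ‖M‖
  rw [ContinuousMap.norm_le _ (norm_nonneg _)]
  intro t
  refine norm_csum_le h hn hsum t _ (fun i _ => ?_)
  exact le_trans (hψ i _) (norm_dg_le _ _ _)

end psi

/-- the scalar block -/
def psi0 {ι : Type} [Fintype ι] (u : EuclideanSpace ℂ ι) : Mat ι →ₗ[ℂ] D where
  toFun M := algebraMap ℂ D ⟪u, M u⟫_ℂ
  map_add' M N := by
    rw [ContinuousLinearMap.add_apply, inner_add_right, map_add]
  map_smul' c M := by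
    rw [ContinuousLinearMap.smul_apply, inner_smul_right, map_mul, RingHom.id_apply,
      Algebra.smul_def]

theorem isCP_psi0 {ι : Type} [Fintype ι] (u : EuclideanSpace ℂ ι) :
    IsCP (psi0 (D := D) u) := by
  intro k a b
  have h1 : ∑ p, ∑ q, star (b p) * psi0 (D := D) u (star (a p) * a q) * b q =
      ∑ l : ι, star (∑ p, ((a p u) l) • b p) * (∑ q, ((a q u) l) • b q) := by
    have e : ∀ p q, star (b p) * psi0 (D := D) u (star (a p) * a q) * b q =
        ∑ l : ι, star (((a p u) l) • b p) * (((a q u) l) • b q) := by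
      intro p q
      have e1 : psi0 (D := D) u (star (a p) * a q) =
          algebraMap ℂ D (∑ l : ι, (starRingEnd ℂ) ((a p u) l) * ((a q u) l)) := by
        show algebraMap ℂ D ⟪u, (star (a p)) (a q u)⟫_ℂ = _
        rw [ContinuousLinearMap.star_eq_adjoint, ContinuousLinearMap.adjoint_inner_right,
          PiLp.inner_apply]
        congr 1
        refine Finset.sum_congr rfl (fun l _ => ?_)
        rw [RCLike.inner_apply, mul_comm]
      rw [e1, map_sum, Finset.mul_sum, Finset.sum_mul]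
      refine Finset.sum_congr rfl (fun l _ => ?_)
      rw [star_smul, smul_mul_smul_comm, ← Algebra.commutes, ← Algebra.smul_def, smul_mul_assoc]
      rfl
    simp only [e]
    have e2 : ∀ p, ∑ q, ∑ l : ι, star (((a p u) l) • b p) * (((a q u) l) • b q) =
        ∑ l : ι, star (((a p u) l) • b p) * ∑ q, (((a q u) l) • b q) := by
      intro p
      rw [Finset.sum_comm]
      refine Finset.sum_congr rfl (fun l _ => ?_)
      rw [Finset.mul_sum]
    rw [Finset.sum_congr rfl (fun p _ => e2 p), Finset.sum_comm]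
    refine Finset.sum_congr rfl (fun l _ => ?_)
    rw [star_sum, Finset.sum_mul]
  rw [h1]
  exact pos_sum _ _ (fun l _ => ⟨_, rfl⟩)

theorem norm_psi0_le [Nontrivial D] {ι : Type} [Fintype ι] (u : EuclideanSpace ℂ ι)
    (hu : ‖u‖ = 1) (M : Mat ι) : ‖psi0 (D := D) u M‖ ≤ ‖M‖ := by
  show ‖algebraMap ℂ D ⟪u, M u⟫_ℂ‖ ≤ ‖M‖
  rw [norm_algebraMap']
  calc ‖⟪u, M u⟫_ℂ‖ ≤ ‖u‖ * ‖M u‖ := norm_inner_le_norm _ _
    _ ≤ ‖u‖ * (‖M‖ * ‖u‖) := mul_le_mul_of_nonneg_left (M.le_opNorm _) (norm_nonneg _)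
    _ = ‖M‖ := by rw [hu]; ring

/-- the scalar block of `Φ` -/
def phi0 [Nontrivial D] (ι : Type) [Fintype ι] : Cone D →ₗ[ℂ] Mat ι :=
  chi.smulRight (1 : Mat ι)

theorem VP_phi0 [Nontrivial D] (ι : Type) [Fintype ι] : VP (phi0 (D := D) ι) := by
  intro k a x
  have h1 : ∑ p, ∑ q, ⟪x p, phi0 (D := D) ι (star (a p) * a q) (x q)⟫_ℂ =
      ⟪∑ p, chi (a p) • x p, ∑ q, chi (a q) • x q⟫_ℂ := by
    rw [sum_inner]
    refine Finset.sum_congr rfl (fun p _ => ?_)
    rw [inner_sum]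
    refine Finset.sum_congr rfl (fun q _ => ?_)
    rw [inner_smul_left, inner_smul_right, ← mul_assoc, ← chi_star_mul]
    show ⟪x p, (chi (star (a p) * a q) • (1 : Mat ι)) (x q)⟫_ℂ = _
    rw [ContinuousLinearMap.smul_apply, inner_smul_right]
    rfl
  rw [h1, inner_self_eq_norm_sq_to_K]
  have h2 : (0 : ℂ) ≤ ((‖∑ p, chi (a p) • x p‖ ^ 2 : ℝ) : ℂ) := by
    rw [Complex.zero_le_real]
    positivity
  push_cast at h2
  exact h2

theorem norm_phi0_le [Nontrivial D] (ι : Type) [Fintype ι] (f : Cone D) :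
    ‖phi0 ι f‖ ≤ ‖f‖ := by
  show ‖chi f • (1 : Mat ι)‖ ≤ ‖f‖
  rw [norm_smul]
  have h1 : ‖(1 : Mat ι)‖ ≤ 1 := ContinuousLinearMap.norm_id_le
  calc ‖chi f‖ * ‖(1 : Mat ι)‖ ≤ ‖chi f‖ * 1 := mul_le_mul_of_nonneg_left h1 (norm_nonneg _)
    _ = ‖chi f‖ := mul_one _
    _ ≤ ‖f‖ := norm_chi_le f

theorem psi0_phi0 [Nontrivial D] {ι : Type} [Fintype ι] (u : EuclideanSpace ℂ ι)
    (hu : ‖u‖ = 1) (f : Cone D) : psi0 (D := D) u (phi0 ι f) = ev 0 f := by
  rw [chi_spec]
  show algebraMap ℂ D ⟪u, (chi f • (1 : Mat ι)) u⟫_ℂ = _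
  congr 1
  rw [ContinuousLinearMap.smul_apply, inner_smul_right]
  show chi f * ⟪u, u⟫_ℂ = chi f
  rw [inner_self_eq_norm_sq_to_K, hu]
  simp

theorem nuclear_of_subsingleton {A : Type} [CStarAlgebra A] [Subsingleton A] : Nuclear A := by
  intro F ε hε
  refine ⟨PEmpty, inferInstance, 0, 0, ?_, ?_, ?_, ?_, ?_⟩
  · intro k a b
    exact ⟨0, by simp⟩
  · intro k a b
    exact ⟨0, Subsingleton.elim _ _⟩
  · intro x
    simp
  · intro y
    simp
  · intro x _
    rw [Subsingleton.elim x 0]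
    simpa using hε

end ConeP

open ConeP in
theorem stmtCone : StmtCone := by
  intro D _ hN
  rcases subsingleton_or_nontrivial D with hD | hD
  · haveI : Subsingleton (Cone D) := ⟨fun f g => by
      apply Subtype.ext
      ext t
      exact Subsingleton.elim _ _⟩
    exact nuclear_of_subsingleton
  intro F ε hε
  classical
  have hε3 : 0 < ε / 3 := by positivity
  -- uniform continuity
  have huc : ∀ᶠ p in uniformity unitInterval, ∀ f ∈ F,
      dist ((f : C(unitInterval, D)) p.1) ((f : C(unitInterval, D)) p.2) < ε / 3 := by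
    rw [Filter.eventually_all_finset]
    intro f _
    have h1 : UniformContinuous (f : C(unitInterval, D)) :=
      CompactSpace.uniformContinuous_of_continuous (f : C(unitInterval, D)).continuous
    exact h1 (Metric.dist_mem_uniformity hε3)
  obtain ⟨δ, hδ, hδf⟩ := Metric.mem_uniformity_dist.mp huc
  obtain ⟨m, h, s, hn, hsum, h0, hs0, hsupp⟩ := exists_pou δ hδ
  -- the factorization for `D`
  obtain ⟨ι, hι, φ, ψ, cφ, cψ, nφ, nψ, happ⟩ := hN
    (insert 1 ((F ×ˢ (Finset.univ : Finset (Fin (m + 1)))).image (fun p => ev (s p.2) p.1)))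
    (min (ε / 3) (1 / 2)) (by positivity)
  have hιne : Nonempty ι := by
    by_contra hemp
    rw [not_nonempty_iff] at hemp
    have h1 := happ 1 (Finset.mem_insert_self _ _)
    have h2 : φ 1 = 0 := by
      ext1 v
      ext k
      exact hemp.elim k
    rw [h2, map_zero, zero_sub, norm_neg, norm_one] at h1
    have := lt_of_lt_of_le h1 (min_le_right _ _)
    norm_num at this
  obtain ⟨k0⟩ := hιne
  set u : EuclideanSpace ℂ ι := EuclideanSpace.single k0 1 with hu'
  have hu : ‖u‖ = 1 := by simp [hu']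
  -- the families
  set φf : Fin (m + 1) → (Cone D →ₗ[ℂ] Mat ι) := fun i =>
    if i = 0 then phi0 ι else φ.comp ((ev (s i) : Cone D →⋆ₐ[ℂ] D) : Cone D →ₐ[ℂ] D).toLinearMap
    with hφf
  set ψf : Fin (m + 1) → (Mat ι →ₗ[ℂ] D) := fun i => if i = 0 then psi0 u else ψ with hψf
  have vφ : ∀ i, VP (φf i) := by
    intro i
    by_cases hi : i = 0
    · simp only [hφf, if_pos hi]
      exact VP_phi0 ι
    · simp only [hφf, if_neg hi]
      intro k a x
      exact VP_of_isCP φ u hu cφ k (fun p => ev (s i) (a p)) x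
  have nφf : ∀ i a, ‖φf i a‖ ≤ ‖a‖ := by
    intro i a
    by_cases hi : i = 0
    · simp only [hφf, if_pos hi]
      exact norm_phi0_le ι a
    · simp only [hφf, if_neg hi]
      exact le_trans (nφ (ev (s i) a)) (norm_ev_le _ _)
  have cψf : ∀ i, IsCP (ψf i) := by
    intro i
    by_cases hi : i = 0
    · simp only [hψf, if_pos hi]
      exact isCP_psi0 u
    · simp only [hψf, if_neg hi]
      exact cψ
  have nψf : ∀ i M, ‖ψf i M‖ ≤ ‖M‖ := by
    intro i M
    by_cases hi : i = 0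
    · simp only [hψf, if_pos hi]
      exact norm_psi0_le u hu M
    · simp only [hψf, if_neg hi]
      exact nψ M
  have hsc : ∀ M, ∃ c : ℂ, ψf 0 M = algebraMap ℂ D c := by
    intro M
    simp only [hψf, if_true]
    exact ⟨_, rfl⟩
  have happf : ∀ i, ∀ f ∈ F, ‖ψf i (φf i f) - ev (s i) f‖ ≤ ε / 3 := by
    intro i f hf
    by_cases hi : i = 0
    · simp only [hψf, hφf, if_pos hi]
      rw [hi, hs0, psi0_phi0 u hu, sub_self, norm_zero]
      exact hε3.le
    · simp only [hψf, hφf, if_neg hi]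
      have h1 := happ (ev (s i) f) (Finset.mem_insert_of_mem (Finset.mem_image.mpr
        ⟨(f, i), Finset.mem_product.mpr ⟨hf, Finset.mem_univ _⟩, rfl⟩))
      exact (lt_of_lt_of_le h1 (min_le_left _ _)).le
  refine ⟨Fin (m + 1) × ι, inferInstance, Phi φf, Psi ψf h 0 h0 hsc,
    isCP_of_VP _ (VP_Phi φf vφ), isCP_Psi ψf h 0 h0 hsc hn cψf, norm_Phi_le φf nφf,
    norm_Psi_le ψf h 0 h0 hsc hn hsum nψf, ?_⟩
  intro f hf
  refine lt_of_le_of_lt ?_ (show 2 * (ε / 3) < ε by linarith)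
  show ‖((Psi ψf h 0 h0 hsc (Phi φf f) - f : Cone D) : C(unitInterval, D))‖ ≤ 2 * (ε / 3)
  rw [ContinuousMap.norm_le _ (by positivity)]
  intro t
  have h1 : ((Psi ψf h 0 h0 hsc (Phi φf f) - f : Cone D) : C(unitInterval, D)) t =
      ∑ i, ((h i t : ℝ) : ℂ) • (ψf i (φf i f) - ev t f) := by
    have e1 : ((Psi ψf h 0 h0 hsc (Phi φf f) - f : Cone D) : C(unitInterval, D)) t =
        ev t (Psi ψf h 0 h0 hsc (Phi φf f)) - ev t f := rfl
    rw [e1, ev_Psi]
    simp only [smul_sub, dg_Phi, Finset.sum_sub_distrib]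
    congr 1
    rw [← Finset.sum_smul]
    have e2 : ∑ i, ((h i t : ℝ) : ℂ) = 1 := by
      rw [← Complex.ofReal_sum, hsum t, Complex.ofReal_one]
    rw [e2, one_smul]
  rw [h1]
  refine norm_csum_le h hn hsum t _ (fun i hi => ?_)
  have h2 := happf i f hf
  have h3 : ‖ev (s i) f - ev t f‖ ≤ ε / 3 := by
    have h4 := hδf (hsupp i t hi) f hf
    rw [dist_eq_norm] at h4
    rw [norm_sub_rev]
    exact h4.le
  calc ‖ψf i (φf i f) - ev t f‖ = ‖(ψf i (φf i f) - ev (s i) f) + (ev (s i) f - ev t f)‖ := by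
        congr 1
        abel
    _ ≤ ‖ψf i (φf i f) - ev (s i) f‖ + ‖ev (s i) f - ev t f‖ := norm_add_le _ _
    _ ≤ 2 * (ε / 3) := by linarith

end

end Pool.Agent.R283.TI
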