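import Pool.Agent.R283.TI.Defs

/-!
# Part CONE, general lemmas: positivity, vector tests, blocks, a partition of unity
-/

set_option autoImplicit false

open Filter Topology
open scoped InnerProductSpace ComplexOrder

namespace Pool.Agent.R283.TI.ConeP

noncomputable section

section Pos

variable {A : Type} [CStarAlgebra A]

theorem pos_sum {ι : Type} (s : Finset ι) (f : ι → A) (h : ∀ i ∈ s, Pos (f i)) :
    Pos (∑ i ∈ s, f i) := by
  letI := CStarAlgebra.spectralOrder A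
  haveI := CStarAlgebra.spectralOrderedRing A
  have h1 : ∀ i ∈ s, 0 ≤ f i := fun i hi => CStarAlgebra.nonneg_iff_eq_star_mul_self.mpr (h i hi)
  exact CStarAlgebra.nonneg_iff_eq_star_mul_self.mp (Finset.sum_nonneg h1)

theorem pos_smul {r : ℝ} (hr : 0 ≤ r) {x : A} (h : Pos x) : Pos ((r : ℂ) • x) := by
  obtain ⟨c, rfl⟩ := h
  refine ⟨((Real.sqrt r : ℝ) : ℂ) • c, ?_⟩
  rw [star_smul, smul_mul_smul_comm]
  congr 1
  simp only [Complex.star_def, Complex.conj_ofReal]
  rw [← Complex.ofReal_mul, Real.mul_self_sqrt hr]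

theorem pos_sa {x : A} (h : Pos x) : IsSelfAdjoint x := by
  obtain ⟨c, rfl⟩ := h
  exact IsSelfAdjoint.star_mul_self c

end Pos

theorem posCone {D : Type} [CStarAlgebra D] (X : Cone D)
    (h : ∀ t, Pos ((X : C(unitInterval, D)) t)) : Pos X := by
  letI := CStarAlgebra.spectralOrder (Cone D)
  haveI := CStarAlgebra.spectralOrderedRing (Cone D)
  have hsa : IsSelfAdjoint X := by
    apply Subtype.ext
    ext t
    exact pos_sa (h t)
  apply CStarAlgebra.nonneg_iff_eq_star_mul_self.mp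
  rw [StarOrderedRing.nonneg_iff_spectrum_nonneg (R := ℝ) X hsa]
  intro r hr
  by_contra hneg
  have hneg' : r < 0 := not_le.mp hneg
  apply hr
  show IsUnit (algebraMap ℝ (Cone D) r - X)
  rw [← StarSubalgebra.coe_isUnit, ContinuousMap.isUnit_iff_forall_isUnit]
  intro t
  letI := CStarAlgebra.spectralOrder D
  haveI := CStarAlgebra.spectralOrderedRing D
  have h0 : 0 ≤ (X : C(unitInterval, D)) t :=
    CStarAlgebra.nonneg_iff_eq_star_mul_self.mpr (h t)
  have h1 := (StarOrderedRing.nonneg_iff_spectrum_nonneg (R := ℝ)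
    ((X : C(unitInterval, D)) t) (pos_sa (h t))).mp h0
  by_contra hu
  exact absurd (h1 r hu) (not_le.mpr hneg')

theorem pos_op {H : Type} [NormedAddCommGroup H] [InnerProductSpace ℂ H] [CompleteSpace H]
    (T : H →L[ℂ] H) (h : ∀ v, 0 ≤ ⟪v, T v⟫_ℂ) : Pos T := by
  apply CStarAlgebra.nonneg_iff_eq_star_mul_self.mp
  rw [ContinuousLinearMap.nonneg_iff_isPositive, ContinuousLinearMap.isPositive_iff_complex]
  intro v
  have h1 := h v
  rw [Complex.nonneg_iff] at h1
  have h2 : ⟪T v, v⟫_ℂ = (starRingEnd ℂ) ⟪v, T v⟫_ℂ := (inner_conj_symm _ _).symm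
  rw [h2]
  have h3 : (starRingEnd ℂ) ⟪v, T v⟫_ℂ = ((⟪v, T v⟫_ℂ).re : ℂ) := by
    apply Complex.ext
    · rw [Complex.conj_re, Complex.ofReal_re]
    · rw [Complex.conj_im, Complex.ofReal_im, ← h1.2, neg_zero]
  rw [h3]
  exact ⟨rfl, h1.1⟩

/-- vector test for complete positivity -/
def VP {A H : Type} [CStarAlgebra A] [NormedAddCommGroup H] [InnerProductSpace ℂ H]
    (φ : A →ₗ[ℂ] (H →L[ℂ] H)) : Prop :=
  ∀ (k : ℕ) (a : Fin k → A) (x : Fin k → H),
    0 ≤ ∑ i, ∑ j, ⟪x i, φ (star (a i) * a j) (x j)⟫_ℂ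

theorem inner_expand {H : Type} [NormedAddCommGroup H] [InnerProductSpace ℂ H]
    [CompleteSpace H] {k : ℕ} (b : Fin k → (H →L[ℂ] H)) (c : Fin k → Fin k → (H →L[ℂ] H))
    (v : H) : ⟪v, (∑ i, ∑ j, star (b i) * c i j * b j) v⟫_ℂ =
      ∑ i, ∑ j, ⟪b i v, c i j (b j v)⟫_ℂ := by
  rw [ContinuousLinearMap.sum_apply, inner_sum]
  refine Finset.sum_congr rfl (fun i _ => ?_)
  rw [ContinuousLinearMap.sum_apply, inner_sum]
  refine Finset.sum_congr rfl (fun j _ => ?_)
  rw [mul_assoc]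
  show ⟪v, (star (b i)) ((c i j * b j) v)⟫_ℂ = _
  rw [ContinuousLinearMap.star_eq_adjoint, ContinuousLinearMap.adjoint_inner_right]
  rfl

theorem isCP_of_VP {A : Type} [CStarAlgebra A] {ι : Type} [Fintype ι] (φ : A →ₗ[ℂ] Mat ι)
    (h : VP φ) : IsCP φ := by
  intro k a b
  apply pos_op
  intro v
  rw [inner_expand b (fun i j => φ (star (a i) * a j)) v]
  exact h k a (fun i => b i v)

theorem VP_of_isCP {A : Type} [CStarAlgebra A] {ι : Type} [Fintype ι] (φ : A →ₗ[ℂ] Mat ι)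
    (u : EuclideanSpace ℂ ι) (hu : ‖u‖ = 1) (h : IsCP φ) : VP φ := by
  intro k a x
  obtain ⟨c, hc⟩ := h k a (fun i => ContinuousLinearMap.smulRight (innerSL ℂ u) (x i))
  have h1 := inner_expand (fun i => ContinuousLinearMap.smulRight (innerSL ℂ u) (x i))
    (fun i j => φ (star (a i) * a j)) u
  rw [hc] at h1
  have h2 : ∀ i, (ContinuousLinearMap.smulRight (innerSL ℂ u) (x i)) u = x i := by
    intro i
    rw [ContinuousLinearMap.smulRight_apply, innerSL_apply_apply, inner_self_eq_norm_sq_to_K, hu]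
    simp
  simp only [h2] at h1
  rw [← h1]
  show 0 ≤ ⟪u, (star c) (c u)⟫_ℂ
  rw [ContinuousLinearMap.star_eq_adjoint, ContinuousLinearMap.adjoint_inner_right,
    inner_self_eq_norm_sq_to_K]
  have : ((‖c u‖ : ℂ)) ^ 2 = ((‖c u‖ ^ 2 : ℝ) : ℂ) := by push_cast; rfl
  have h3 : (0 : ℂ) ≤ ((‖c u‖ ^ 2 : ℝ) : ℂ) := by
    rw [Complex.zero_le_real]
    positivity
  rw [← this] at h3
  exact h3

/-! ### Blocks -/

section blocks

variable {J ι : Type} [Fintype J] [DecidableEq J] [Fintype ι]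

/-- restriction to a block -/
def R (i : J) : EuclideanSpace ℂ (J × ι) →L[ℂ] EuclideanSpace ℂ ι :=
  LinearMap.toContinuousLinearMap
    { toFun := fun v => WithLp.toLp 2 (fun k => v (i, k))
      map_add' := fun _ _ => rfl
      map_smul' := fun _ _ => rfl }

/-- inclusion of a block -/
def W (i : J) : EuclideanSpace ℂ ι →L[ℂ] EuclideanSpace ℂ (J × ι) :=
  LinearMap.toContinuousLinearMap
    { toFun := fun u => WithLp.toLp 2 (fun p => if p.1 = i then u p.2 else 0)
      map_add' := fun a b => by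
        ext p
        by_cases h : p.1 = i <;> simp [h]
      map_smul' := fun c a => by
        ext p
        by_cases h : p.1 = i <;> simp [h] }

theorem R_apply (i : J) (v : EuclideanSpace ℂ (J × ι)) (k : ι) : R i v k = v (i, k) := rfl

theorem W_apply (i : J) (u : EuclideanSpace ℂ ι) (p : J × ι) :
    W i u p = if p.1 = i then u p.2 else 0 := rfl

theorem inner_W (i : J) (u : EuclideanSpace ℂ ι) (v : EuclideanSpace ℂ (J × ι)) :
    ⟪W i u, v⟫_ℂ = ⟪u, R i v⟫_ℂ := by
  rw [PiLp.inner_apply, PiLp.inner_apply, Fintype.sum_prod_type]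
  have h1 : ∀ j : J, ∑ k : ι, ⟪W i u (j, k), v (j, k)⟫_ℂ =
      if j = i then ∑ k : ι, ⟪u k, R i v k⟫_ℂ else 0 := by
    intro j
    by_cases h : j = i
    · rw [if_pos h]
      refine Finset.sum_congr rfl (fun k _ => ?_)
      rw [W_apply, R_apply, if_pos h, h]
    · rw [if_neg h]
      refine Finset.sum_eq_zero (fun k _ => ?_)
      rw [W_apply, if_neg h, inner_zero_left]
  rw [Finset.sum_congr rfl (fun j _ => h1 j), Finset.sum_ite_eq']
  simp

theorem inner_W' (i : J) (u : EuclideanSpace ℂ ι) (v : EuclideanSpace ℂ (J × ι)) :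
    ⟪v, W i u⟫_ℂ = ⟪R i v, u⟫_ℂ := by
  rw [← inner_conj_symm, inner_W, inner_conj_symm]

theorem RW (i j : J) (u : EuclideanSpace ℂ ι) : R i (W j u) = if i = j then u else 0 := by
  ext k
  rw [R_apply, W_apply]
  by_cases h : i = j
  · simp [h]
  · simp [h]

theorem sum_WR (v : EuclideanSpace ℂ (J × ι)) : ∑ i, W i (R i v) = v := by
  ext p
  rw [WithLp.ofLp_sum, Finset.sum_apply]
  have h1 : ∀ i : J, (W i (R i v)).ofLp p = if p.1 = i then v p else 0 := by
    intro i
    show W i (R i v) p = _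
    rw [W_apply, R_apply]
    by_cases h : p.1 = i
    · rw [if_pos h, if_pos h, ← h]
    · rw [if_neg h, if_neg h]
  rw [Finset.sum_congr rfl (fun i _ => h1 i), Finset.sum_ite_eq]
  simp

theorem sum_norm_R (v : EuclideanSpace ℂ (J × ι)) : ∑ i, ‖R i v‖ ^ 2 = ‖v‖ ^ 2 := by
  have h1 : ⟪v, v⟫_ℂ = ∑ i, ⟪R i v, R i v⟫_ℂ := by
    conv_lhs => rw [← sum_WR v]
    conv_lhs => rw [inner_sum]
    refine Finset.sum_congr rfl (fun i _ => ?_)
    rw [inner_W', sum_WR]
  simp only [inner_self_eq_norm_sq_to_K] at h1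
  have h2 : ((‖v‖ ^ 2 : ℝ) : ℂ) = ((∑ i, ‖R i v‖ ^ 2 : ℝ) : ℂ) := by
    push_cast
    exact h1
  exact (Complex.ofReal_injective h2).symm

theorem norm_R_le (i : J) (v : EuclideanSpace ℂ (J × ι)) : ‖R i v‖ ≤ ‖v‖ := by
  have h1 : ‖R i v‖ ^ 2 ≤ ‖v‖ ^ 2 := by
    rw [← sum_norm_R v]
    exact Finset.single_le_sum (f := fun i => ‖R i v‖ ^ 2) (fun j _ => by positivity)
      (Finset.mem_univ i)
  exact le_of_sq_le_sq h1 (norm_nonneg _)

theorem norm_W (i : J) (u : EuclideanSpace ℂ ι) : ‖W i u‖ = ‖u‖ := by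
  have h1 : ∑ j, ‖R j (W i u)‖ ^ 2 = ‖u‖ ^ 2 := by
    have : ∀ j : J, ‖R j (W i u)‖ ^ 2 = if j = i then ‖u‖ ^ 2 else 0 := by
      intro j
      rw [RW]
      by_cases h : j = i <;> simp [h]
    rw [Finset.sum_congr rfl (fun j _ => this j), Finset.sum_ite_eq']
    simp
  rw [sum_norm_R] at h1
  exact (sq_eq_sq₀ (norm_nonneg _) (norm_nonneg _)).mp h1

/-- diagonal block -/
def dg (i l : J) (M : Mat (J × ι)) : Mat ι := (R i).comp (M.comp (W l))

theorem norm_dg_le (i l : J) (M : Mat (J × ι)) : ‖dg i l M‖ ≤ ‖M‖ := by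
  refine ContinuousLinearMap.opNorm_le_bound _ (norm_nonneg _) (fun u => ?_)
  calc ‖dg i l M u‖ = ‖R i (M (W l u))‖ := rfl
    _ ≤ ‖M (W l u)‖ := norm_R_le _ _
    _ ≤ ‖M‖ * ‖W l u‖ := M.le_opNorm _
    _ = ‖M‖ * ‖u‖ := by rw [norm_W]

theorem dg_add (i l : J) (M N : Mat (J × ι)) : dg i l (M + N) = dg i l M + dg i l N := by
  ext1 u
  show R i ((M + N) (W l u)) = R i (M (W l u)) + R i (N (W l u))
  rw [ContinuousLinearMap.add_apply, map_add]

theorem dg_smul (i l : J) (c : ℂ) (M : Mat (J × ι)) : dg i l (c • M) = c • dg i l M := by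
  ext1 u
  show R i ((c • M) (W l u)) = c • R i (M (W l u))
  rw [ContinuousLinearMap.smul_apply, map_smul]

theorem dg_star_mul (i : J) (M N : Mat (J × ι)) :
    dg i i (star M * N) = ∑ l, star (dg l i M) * dg l i N := by
  ext1 u
  apply ext_inner_left ℂ
  intro w
  rw [ContinuousLinearMap.sum_apply, inner_sum]
  have h1 : ⟪w, dg i i (star M * N) u⟫_ℂ = ⟪M (W i w), N (W i u)⟫_ℂ := by
    show ⟪w, R i ((star M) (N (W i u)))⟫_ℂ = _
    rw [← inner_W, ContinuousLinearMap.star_eq_adjoint, ContinuousLinearMap.adjoint_inner_right]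
  rw [h1]
  conv_lhs => rw [← sum_WR (N (W i u))]
  rw [inner_sum]
  refine Finset.sum_congr rfl (fun l _ => ?_)
  rw [inner_W']
  show _ = ⟪w, (star (dg l i M)) (dg l i N u)⟫_ℂ
  rw [ContinuousLinearMap.star_eq_adjoint, ContinuousLinearMap.adjoint_inner_right]
  rfl

/-- block diagonal map -/
def Phi {A : Type} [CStarAlgebra A] (φ : J → (A →ₗ[ℂ] Mat ι)) : A →ₗ[ℂ] Mat (J × ι) where
  toFun a := ∑ i, (W i).comp ((φ i a).comp (R i))
  map_add' a b := by
    rw [← Finset.sum_add_distrib]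
    refine Finset.sum_congr rfl (fun i _ => ?_)
    ext1 v
    simp
  map_smul' c a := by
    rw [Finset.smul_sum]
    refine Finset.sum_congr rfl (fun i _ => ?_)
    ext1 v
    simp

theorem Phi_apply {A : Type} [CStarAlgebra A] (φ : J → (A →ₗ[ℂ] Mat ι)) (a : A)
    (v : EuclideanSpace ℂ (J × ι)) : Phi φ a v = ∑ i, W i (φ i a (R i v)) := by
  show (∑ i, (W i).comp ((φ i a).comp (R i))) v = _
  rw [ContinuousLinearMap.sum_apply]
  rfl

theorem R_Phi {A : Type} [CStarAlgebra A] (φ : J → (A →ₗ[ℂ] Mat ι)) (a : A) (i : J)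
    (v : EuclideanSpace ℂ (J × ι)) : R i (Phi φ a v) = φ i a (R i v) := by
  rw [Phi_apply, map_sum]
  simp only [RW]
  rw [Finset.sum_ite_eq]
  simp

theorem dg_Phi {A : Type} [CStarAlgebra A] (φ : J → (A →ₗ[ℂ] Mat ι)) (a : A) (i : J) :
    dg i i (Phi φ a) = φ i a := by
  ext1 u
  show R i (Phi φ a (W i u)) = _
  rw [R_Phi, RW, if_pos rfl]

theorem norm_Phi_le {A : Type} [CStarAlgebra A] (φ : J → (A →ₗ[ℂ] Mat ι))
    (h : ∀ i a, ‖φ i a‖ ≤ ‖a‖) (a : A) : ‖Phi φ a‖ ≤ ‖a‖ := by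
  refine ContinuousLinearMap.opNorm_le_bound _ (norm_nonneg _) (fun v => ?_)
  have h1 : ‖Phi φ a v‖ ^ 2 ≤ (‖a‖ * ‖v‖) ^ 2 := by
    rw [← sum_norm_R (Phi φ a v), mul_pow, ← sum_norm_R v, Finset.mul_sum]
    refine Finset.sum_le_sum (fun i _ => ?_)
    rw [R_Phi, ← mul_pow]
    refine pow_le_pow_left₀ (norm_nonneg _) ?_ 2
    refine le_trans ((φ i a).le_opNorm _) ?_
    exact mul_le_mul_of_nonneg_right (h i a) (norm_nonneg _)
  exact le_of_sq_le_sq h1 (by positivity)

theorem VP_Phi {A : Type} [CStarAlgebra A] (φ : J → (A →ₗ[ℂ] Mat ι)) (h : ∀ i, VP (φ i)) :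
    VP (Phi φ) := by
  intro k a x
  have h1 : ∑ p, ∑ q, ⟪x p, Phi φ (star (a p) * a q) (x q)⟫_ℂ =
      ∑ i : J, ∑ p, ∑ q, ⟪R i (x p), φ i (star (a p) * a q) (R i (x q))⟫_ℂ := by
    rw [Finset.sum_comm]
    conv_rhs => rw [Finset.sum_comm]
    rw [Finset.sum_comm]
    refine Finset.sum_congr rfl (fun p _ => ?_)
    conv_rhs => rw [Finset.sum_comm]
    refine Finset.sum_congr rfl (fun q _ => ?_)
    rw [Phi_apply, inner_sum]
    refine Finset.sum_congr rfl (fun i _ => ?_)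
    rw [inner_W']
  rw [h1]
  exact Finset.sum_nonneg (fun i _ => h i k a (fun p => R i (x p)))

end blocks

/-! ### A partition of unity on the interval -/

theorem exists_pou (δ : ℝ) (hδ : 0 < δ) : ∃ (m : ℕ) (h : Fin (m + 1) → C(unitInterval, ℝ))
    (s : Fin (m + 1) → unitInterval), (∀ i t, 0 ≤ h i t) ∧ (∀ t, ∑ i, h i t = 1) ∧
    (∀ i, i ≠ 0 → h i 0 = 0) ∧ s 0 = 0 ∧ (∀ i t, h i t ≠ 0 → dist t (s i) < δ) := by
  obtain ⟨n, hn⟩ := exists_nat_one_div_lt hδ
  set m : ℕ := n + 1 with hm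
  have hm0 : (0 : ℝ) < m := by positivity
  have hmδ : 1 / (m : ℝ) < δ := by
    rw [hm]; push_cast; exact hn
  let G : ℕ → ℝ → ℝ := fun j t => max 0 (min 1 ((m : ℝ) * t + 1 - j))
  have hGc : ∀ j, Continuous (G j) := fun j => by
    simp only [G]
    fun_prop
  refine ⟨m, fun i => ⟨fun t => G (i : ℕ) t - G ((i : ℕ) + 1) t, by
    have := hGc (i : ℕ)
    have := hGc ((i : ℕ) + 1)
    fun_prop⟩, fun i => ⟨(i : ℕ) / (m : ℝ), ?_, ?_⟩, ?_, ?_, ?_, ?_, ?_⟩
  · positivity
  · rw [div_le_one hm0]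
    exact_mod_cast Nat.lt_succ_iff.mp i.2
  · intro i t
    simp only [ContinuousMap.coe_mk, G]
    rw [sub_nonneg]
    push_cast
    apply max_le_max le_rfl
    apply min_le_min le_rfl
    linarith
  · intro t
    simp only [ContinuousMap.coe_mk]
    rw [Fin.sum_univ_eq_sum_range (fun i => G i t - G (i + 1) t), Finset.sum_range_sub']
    have ht0 := t.2.1
    have ht1 := t.2.2
    have e1 : G 0 t = 1 := by
      simp only [G]
      rw [min_eq_left, max_eq_right zero_le_one]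
      push_cast
      have : 0 ≤ (m : ℝ) * t := by positivity
      linarith
    have e2 : G (m + 1) t = 0 := by
      simp only [G]
      apply max_eq_left
      refine le_trans (min_le_right _ _) ?_
      push_cast
      have : (m : ℝ) * t ≤ m * 1 := mul_le_mul_of_nonneg_left ht1 hm0.le
      linarith
    rw [e1, e2]
    ring
  · intro i hi
    have hi' : 1 ≤ (i : ℕ) := by
      by_contra hcon
      apply hi
      apply Fin.ext
      simp only [Fin.val_zero]
      omega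
    have hi2 : (1 : ℝ) ≤ (i : ℕ) := by exact_mod_cast hi'
    simp only [ContinuousMap.coe_mk, G]
    have e1 : max 0 (min 1 ((m : ℝ) * ((0 : unitInterval) : ℝ) + 1 - (i : ℕ))) = 0 := by
      apply max_eq_left
      refine le_trans (min_le_right _ _) ?_
      simp only [Set.Icc.coe_zero, mul_zero]
      linarith
    have e2 : max 0 (min 1 ((m : ℝ) * ((0 : unitInterval) : ℝ) + 1 - (((i : ℕ) + 1 : ℕ) : ℝ))) = 0 := by
      apply max_eq_left
      refine le_trans (min_le_right _ _) ?_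
      simp only [Set.Icc.coe_zero, mul_zero]
      push_cast
      linarith
    rw [e1, e2, sub_zero]
  · apply Subtype.ext
    simp
  · intro i t hne
    rw [Subtype.dist_eq, Real.dist_eq]
    refine lt_of_le_of_lt ?_ hmδ
    by_contra hcon
    apply hne
    simp only [ContinuousMap.coe_mk, G]
    have hcon' : 1 / (m : ℝ) < |(t : ℝ) - (i : ℕ) / (m : ℝ)| := not_le.mp hcon
    rw [lt_abs] at hcon'
    push_cast
    rcases hcon' with h | h
    · have h1 : 1 < (m : ℝ) * t - (i : ℕ) := by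
        have := mul_lt_mul_of_pos_left h hm0
        have e : (m : ℝ) * (1 / m) = 1 := by field_simp
        have e2 : (m : ℝ) * ((t : ℝ) - (i : ℕ) / (m : ℝ)) = m * t - (i : ℕ) := by field_simp
        rw [e, e2] at this
        exact this
      rw [min_eq_left (by linarith), min_eq_left (by linarith)]
      simp
    · have h1 : 1 < (i : ℕ) - (m : ℝ) * t := by
        have := mul_lt_mul_of_pos_left h hm0
        have e : (m : ℝ) * (1 / m) = 1 := by field_simp
        have e2 : (m : ℝ) * -((t : ℝ) - (i : ℕ) / (m : ℝ)) = (i : ℕ) - m * t := by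
          field_simp
          ring
        rw [e, e2] at this
        exact this
      rw [max_eq_left, max_eq_left, sub_zero]
      · refine le_trans (min_le_right _ _) ?_
        linarith
      · refine le_trans (min_le_right _ _) ?_
        linarith

end

end Pool.Agent.R283.TI.ConeP
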