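import Pool.Agent.R283.TI.Stm

/-!
# Part CONV: `T_N(x) / N → x` on the Cuntz algebra
-/

set_option autoImplicit false

open Filter Topology
open scoped InnerProductSpace

namespace Pool.Agent.R283.TI

noncomputable section

section

variable {H : Type} [NormedAddCommGroup H] [InnerProductSpace ℂ H] [CompleteSpace H]

theorem cv_star (A : H →L[ℂ] H) (u v : H) : ⟪A u, v⟫_ℂ = ⟪u, star A v⟫_ℂ := by
  rw [ContinuousLinearMap.star_eq_adjoint, ContinuousLinearMap.adjoint_inner_right]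

/-- the rows of `T_N(y)` -/
def cvR (S₁ S₂ : H →L[ℂ] H) (e : ℕ → H) (N : ℕ) (y : H →L[ℂ] H) (j : ℕ) : H →L[ℂ] H :=
  ∑ k ∈ Finset.Ico 1 (2 ^ N), ⟪e j, y (e k)⟫_ℂ • star (Sw S₁ S₂ k)

theorem cv_TN (S₁ S₂ : H →L[ℂ] H) (e : ℕ → H) (N : ℕ) (y : H →L[ℂ] H) :
    TN S₁ S₂ e N y = ∑ j ∈ Finset.Ico 1 (2 ^ N), Sw S₁ S₂ j * cvR S₁ S₂ e N y j := by
  unfold TN cvR
  refine Finset.sum_congr rfl fun j _ => ?_
  rw [Finset.mul_sum]
  refine Finset.sum_congr rfl fun k _ => ?_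
  rw [mul_smul_comm]

theorem cv_TN_add (S₁ S₂ : H →L[ℂ] H) (e : ℕ → H) (N : ℕ) (x y : H →L[ℂ] H) :
    TN S₁ S₂ e N (x + y) = TN S₁ S₂ e N x + TN S₁ S₂ e N y := by
  unfold TN
  rw [← Finset.sum_add_distrib]
  refine Finset.sum_congr rfl fun j _ => ?_
  rw [← Finset.sum_add_distrib]
  refine Finset.sum_congr rfl fun k _ => ?_
  rw [ContinuousLinearMap.add_apply, inner_add_right, add_smul]

theorem cv_TN_smul (S₁ S₂ : H →L[ℂ] H) (e : ℕ → H) (N : ℕ) (c : ℂ) (x : H →L[ℂ] H) :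
    TN S₁ S₂ e N (c • x) = c • TN S₁ S₂ e N x := by
  unfold TN
  rw [Finset.smul_sum]
  refine Finset.sum_congr rfl fun j _ => ?_
  rw [Finset.smul_sum]
  refine Finset.sum_congr rfl fun k _ => ?_
  rw [ContinuousLinearMap.smul_apply, inner_smul_right, smul_smul]

theorem cv_TN_sub (S₁ S₂ : H →L[ℂ] H) (e : ℕ → H) (N : ℕ) (x y : H →L[ℂ] H) :
    TN S₁ S₂ e N (x - y) = TN S₁ S₂ e N x - TN S₁ S₂ e N y := by
  have h : x - y = x + (-1 : ℂ) • y := by rw [neg_one_smul, sub_eq_add_neg]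
  rw [h, cv_TN_add, cv_TN_smul, neg_one_smul, ← sub_eq_add_neg]

variable {S₁ S₂ : H →L[ℂ] H} {e : ℕ → H}

theorem cv_orth' (hM : Model H S₁ S₂ e) : star S₂ * S₁ = 0 := by
  have h := congrArg star hM.orth
  rw [star_mul, star_star, star_zero] at h
  exact h

/-- the word isometries of a level have orthogonal ranges -/
theorem cv_orth (hM : Model H S₁ S₂ e) : ∀ (l i j : ℕ), i ∈ Finset.Ico (2 ^ l) (2 ^ (l + 1)) →
    j ∈ Finset.Ico (2 ^ l) (2 ^ (l + 1)) →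
    star (Sw S₁ S₂ i) * Sw S₁ S₂ j = if i = j then 1 else 0 := by
  intro l
  induction l with
  | zero =>
    intro i j hi hj
    rw [Finset.mem_Ico] at hi hj
    have hi1 : i = 1 := by omega
    have hj1 : j = 1 := by omega
    subst hi1
    subst hj1
    rw [Sw_one, star_one, one_mul, if_pos rfl]
  | succ l ih =>
    intro i j hi hj
    rw [Finset.mem_Ico] at hi hj
    have hpos : 1 ≤ 2 ^ l := Nat.one_le_two_pow
    have h2 : 2 ^ (l + 1) = 2 * 2 ^ l := by rw [pow_succ]; ring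
    have h3 : 2 ^ (l + 1 + 1) = 4 * 2 ^ l := by rw [pow_succ, pow_succ]; ring
    rw [h2, h3] at hi hj
    obtain ⟨a, ha⟩ := Nat.even_or_odd' i
    obtain ⟨b, hb⟩ := Nat.even_or_odd' j
    have ha' : a ∈ Finset.Ico (2 ^ l) (2 ^ (l + 1)) := by
      rw [Finset.mem_Ico, h2]
      omega
    have hb' : b ∈ Finset.Ico (2 ^ l) (2 ^ (l + 1)) := by
      rw [Finset.mem_Ico, h2]
      omega
    have ha1 : 1 ≤ a := by
      rw [Finset.mem_Ico] at ha'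
      omega
    have hb1 : 1 ≤ b := by
      rw [Finset.mem_Ico] at hb'
      omega
    have hab := ih a b ha' hb'
    rcases ha with rfl | rfl <;> rcases hb with rfl | rfl
    · rw [Sw_even _ _ ha1, Sw_even _ _ hb1, star_mul]
      have : star (Sw S₁ S₂ a) * star S₁ * (S₁ * Sw S₁ S₂ b) =
          star (Sw S₁ S₂ a) * (star S₁ * S₁) * Sw S₁ S₂ b := by
        simp only [mul_assoc]
      rw [this, hM.iso₁, mul_one, hab]
      simp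
    · rw [Sw_even _ _ ha1, Sw_odd _ _ hb1, star_mul]
      have : star (Sw S₁ S₂ a) * star S₁ * (S₂ * Sw S₁ S₂ b) =
          star (Sw S₁ S₂ a) * (star S₁ * S₂) * Sw S₁ S₂ b := by
        simp only [mul_assoc]
      rw [this, hM.orth, mul_zero, zero_mul, if_neg (by omega)]
    · rw [Sw_odd _ _ ha1, Sw_even _ _ hb1, star_mul]
      have : star (Sw S₁ S₂ a) * star S₂ * (S₁ * Sw S₁ S₂ b) =
          star (Sw S₁ S₂ a) * (star S₂ * S₁) * Sw S₁ S₂ b := by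
        simp only [mul_assoc]
      rw [this, cv_orth' hM, mul_zero, zero_mul, if_neg (by omega)]
    · rw [Sw_odd _ _ ha1, Sw_odd _ _ hb1, star_mul]
      have : star (Sw S₁ S₂ a) * star S₂ * (S₂ * Sw S₁ S₂ b) =
          star (Sw S₁ S₂ a) * (star S₂ * S₂) * Sw S₁ S₂ b := by
        simp only [mul_assoc]
      rw [this, hM.iso₂, mul_one, hab]
      simp

theorem cv_norm (hM : Model H S₁ S₂ e) (l : ℕ) (z : ℕ → H) :
    ‖∑ j ∈ Finset.Ico (2 ^ l) (2 ^ (l + 1)), Sw S₁ S₂ j (z j)‖ ^ 2 =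
      ∑ j ∈ Finset.Ico (2 ^ l) (2 ^ (l + 1)), ‖z j‖ ^ 2 := by
  have h1 : ⟪∑ j ∈ Finset.Ico (2 ^ l) (2 ^ (l + 1)), Sw S₁ S₂ j (z j),
      ∑ j ∈ Finset.Ico (2 ^ l) (2 ^ (l + 1)), Sw S₁ S₂ j (z j)⟫_ℂ =
      ∑ j ∈ Finset.Ico (2 ^ l) (2 ^ (l + 1)), ⟪z j, z j⟫_ℂ := by
    rw [sum_inner]
    refine Finset.sum_congr rfl fun i hi => ?_
    rw [inner_sum]
    rw [Finset.sum_eq_single i]
    · rw [cv_star, ← ContinuousLinearMap.mul_apply, cv_orth hM l i i hi hi, if_pos rfl]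
      rfl
    · intro j hj hji
      rw [cv_star, ← ContinuousLinearMap.mul_apply, cv_orth hM l i j hi hj, if_neg (Ne.symm hji)]
      simp
    · intro h
      exact absurd hi h
  have h2 := congrArg Complex.re h1
  rw [Complex.re_sum] at h2
  simp only [inner_self_eq_norm_sq_to_K] at h2
  norm_cast at h2

/-- the matrix of an operator is bounded -/
theorem cv_bessel (hM : Model H S₁ S₂ e) (y : H →L[ℂ] H) (J K : Finset ℕ) (u : ℕ → ℂ) :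
    ∑ j ∈ J, ‖∑ k ∈ K, ⟪e j, y (e k)⟫_ℂ * u k‖ ^ 2 ≤ ‖y‖ ^ 2 * ∑ k ∈ K, ‖u k‖ ^ 2 := by
  have h1 : ∀ j, ∑ k ∈ K, ⟪e j, y (e k)⟫_ℂ * u k = ⟪e j, y (∑ k ∈ K, u k • e k)⟫_ℂ := by
    intro j
    rw [map_sum, inner_sum]
    refine Finset.sum_congr rfl fun k _ => ?_
    rw [map_smul, inner_smul_right, mul_comm]
  simp only [h1]
  have h2 := hM.on.sum_inner_products_le (x := y (∑ k ∈ K, u k • e k)) (s := J)
  refine h2.trans ?_
  have h3 := y.le_opNorm (∑ k ∈ K, u k • e k)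
  have h4 : ‖∑ k ∈ K, u k • e k‖ ^ 2 = ∑ k ∈ K, ‖u k‖ ^ 2 := by
    have h5 := hM.on.inner_sum u u K
    have h6 := congrArg Complex.re h5
    rw [Complex.re_sum] at h6
    simp only [inner_self_eq_norm_sq_to_K, RCLike.conj_mul] at h6
    norm_cast at h6
  rw [← h4, ← mul_pow]
  exact pow_le_pow_left₀ (norm_nonneg _) h3 2

theorem cv_vec (hV : StmtVec) (hM : Model H S₁ S₂ e) (y : H →L[ℂ] H) (J K : Finset ℕ)
    (w : ℕ → H) :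
    ∑ j ∈ J, ‖∑ k ∈ K, ⟪e j, y (e k)⟫_ℂ • w k‖ ^ 2 ≤ ‖y‖ ^ 2 * ∑ k ∈ K, ‖w k‖ ^ 2 := by
  classical
  have h := hV J K (fun j k => ⟪e j, y (e k)⟫_ℂ) ‖y‖ (fun u => ?_) H (fun k => w k)
  · have e1 : ∀ j : J, ∑ k : K, ⟪e j, y (e k)⟫_ℂ • w k = ∑ k ∈ K, ⟪e j, y (e k)⟫_ℂ • w k :=
      fun j => Finset.sum_coe_sort K (fun k => ⟪e j, y (e k)⟫_ℂ • w k)
    have e2 : ∑ k : K, ‖w k‖ ^ 2 = ∑ k ∈ K, ‖w k‖ ^ 2 :=
      Finset.sum_coe_sort K (fun k => ‖w k‖ ^ 2)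
    simp only [e1] at h
    rw [e2] at h
    rw [← Finset.sum_coe_sort J (fun j => ‖∑ k ∈ K, ⟪e j, y (e k)⟫_ℂ • w k‖ ^ 2)]
    exact h
  · obtain ⟨u', hu'⟩ : ∃ u' : ℕ → ℂ, ∀ k : K, u' k = u k := by
      refine ⟨fun k => if h : k ∈ K then u ⟨k, h⟩ else 0, fun k => ?_⟩
      simp
    have h1 := cv_bessel hM y J K u'
    have e1 : ∀ j : J, ∑ k : K, ⟪e j, y (e k)⟫_ℂ * u k = ∑ k ∈ K, ⟪e j, y (e k)⟫_ℂ * u' k := by
      intro j
      rw [← Finset.sum_coe_sort K (fun k => ⟪e j, y (e k)⟫_ℂ * u' k)]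
      exact Finset.sum_congr rfl fun k _ => by rw [hu']
    have e2 : ∑ k : K, ‖u k‖ ^ 2 = ∑ k ∈ K, ‖u' k‖ ^ 2 := by
      rw [← Finset.sum_coe_sort K (fun k => ‖u' k‖ ^ 2)]
      exact Finset.sum_congr rfl fun k _ => by rw [hu']
    simp only [e1]
    rw [e2, Finset.sum_coe_sort J (fun j => ‖∑ k ∈ K, ⟪e j, y (e k)⟫_ℂ * u' k‖ ^ 2)]
    exact h1

theorem cv_rows (hV : StmtVec) (hL : StmtLvl) (hM : Model H S₁ S₂ e) (N : ℕ) (y : H →L[ℂ] H)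
    (J : Finset ℕ) (h : H) :
    ∑ j ∈ J, ‖cvR S₁ S₂ e N y j h‖ ^ 2 ≤ ‖y‖ ^ 2 * (N * ‖h‖ ^ 2) := by
  have h1 := cv_vec hV hM y J (Finset.Ico 1 (2 ^ N)) (fun k => star (Sw S₁ S₂ k) h)
  rw [(hL H S₁ S₂ e hM).2.2 N h] at h1
  refine le_trans (le_of_eq ?_) h1
  refine Finset.sum_congr rfl fun j _ => ?_
  unfold cvR
  simp only [ContinuousLinearMap.sum_apply, ContinuousLinearMap.smul_apply]

/-- the parts of `T_N` which belong to a level are small -/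
theorem cv_level (hV : StmtVec) (hL : StmtLvl) (hM : Model H S₁ S₂ e) (N l : ℕ)
    (y : H →L[ℂ] H) :
    ‖∑ j ∈ Finset.Ico (2 ^ l) (2 ^ (l + 1)), Sw S₁ S₂ j * cvR S₁ S₂ e N y j‖ ≤
      Real.sqrt N * ‖y‖ := by
  refine ContinuousLinearMap.opNorm_le_bound _ (by positivity) fun h => ?_
  simp only [ContinuousLinearMap.sum_apply, ContinuousLinearMap.mul_apply]
  have h1 := cv_norm hM l (fun j => cvR S₁ S₂ e N y j h)
  have h2 := cv_rows hV hL hM N y (Finset.Ico (2 ^ l) (2 ^ (l + 1))) h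
  rw [← h1] at h2
  refine le_of_sq_le_sq ?_ (by positivity)
  refine h2.trans (le_of_eq ?_)
  rw [mul_pow, mul_pow, Real.sq_sqrt (Nat.cast_nonneg N)]
  ring

/-- `‖T_N(x)‖ ≤ N ‖x‖` -/
theorem cv_TN_le (hV : StmtVec) (hL : StmtLvl) (hM : Model H S₁ S₂ e) (N : ℕ)
    (x : H →L[ℂ] H) : ‖TN S₁ S₂ e N x‖ ≤ N * ‖x‖ := by
  refine ContinuousLinearMap.opNorm_le_bound _ (by positivity) fun h => ?_
  obtain ⟨v, hv⟩ : ∃ v, v = TN S₁ S₂ e N x h := ⟨_, rfl⟩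
  rw [← hv]
  have h1 : ‖v‖ ^ 2 ≤ ∑ j ∈ Finset.Ico 1 (2 ^ N),
      ‖star (Sw S₁ S₂ j) v‖ * ‖cvR S₁ S₂ e N x j h‖ := by
    have h2 : ⟪v, v⟫_ℂ = ∑ j ∈ Finset.Ico 1 (2 ^ N),
        ⟪star (Sw S₁ S₂ j) v, cvR S₁ S₂ e N x j h⟫_ℂ := by
      have h3 : v = ∑ j ∈ Finset.Ico 1 (2 ^ N), Sw S₁ S₂ j (cvR S₁ S₂ e N x j h) := by
        rw [hv, cv_TN]
        simp only [ContinuousLinearMap.sum_apply, ContinuousLinearMap.mul_apply]
      calc ⟪v, v⟫_ℂ = ⟪v, ∑ j ∈ Finset.Ico 1 (2 ^ N),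
            Sw S₁ S₂ j (cvR S₁ S₂ e N x j h)⟫_ℂ := by rw [← h3]
        _ = _ := by
          rw [inner_sum]
          refine Finset.sum_congr rfl fun j _ => ?_
          rw [cv_star (star (Sw S₁ S₂ j)), star_star]
    have h4 : ‖v‖ ^ 2 = ‖⟪v, v⟫_ℂ‖ := by
      rw [inner_self_eq_norm_sq_to_K]
      simp
    rw [h4, h2]
    exact (norm_sum_le _ _).trans (Finset.sum_le_sum fun j _ => norm_inner_le_norm _ _)
  have h2 := (hL H S₁ S₂ e hM).2.2 N v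
  have h3 := cv_rows hV hL hM N x (Finset.Ico 1 (2 ^ N)) h
  have h4 := Finset.sum_mul_sq_le_sq_mul_sq (Finset.Ico 1 (2 ^ N))
    (fun j => ‖star (Sw S₁ S₂ j) v‖) (fun j => ‖cvR S₁ S₂ e N x j h‖)
  rw [h2] at h4
  rcases (norm_nonneg v).eq_or_lt with h0 | h0
  · rw [← h0]
    positivity
  · have h5 : (‖v‖ ^ 2) ^ 2 ≤ (N * ‖v‖ ^ 2) * (‖x‖ ^ 2 * (N * ‖h‖ ^ 2)) := by
      refine (pow_le_pow_left₀ (by positivity) h1 2).trans (h4.trans ?_)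
      exact mul_le_mul_of_nonneg_left h3 (by positivity)
    have h6 : ‖v‖ ^ 2 * ‖v‖ ^ 2 ≤ ‖v‖ ^ 2 * (N * ‖x‖ * ‖h‖) ^ 2 := by
      refine le_trans (le_of_eq (by ring)) (h5.trans (le_of_eq (by ring)))
    have h7 := le_of_mul_le_mul_left h6 (by positivity)
    exact le_of_sq_le_sq h7 (by positivity)

/-! ### the recursion -/

theorem cv_split (f : ℕ → H →L[ℂ] H) (m : ℕ) (hm : 1 ≤ m) :
    ∑ j ∈ Finset.Ico 1 (2 * m), f j =
      f 1 + ∑ a ∈ Finset.Ico 1 m, (f (2 * a) + f (2 * a + 1)) := by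
  induction m, hm using Nat.le_induction with
  | base => simp
  | succ m hm ih =>
    have h1 : 2 * (m + 1) = 2 * m + 1 + 1 := by ring
    rw [h1, Finset.sum_Ico_succ_top (by omega), Finset.sum_Ico_succ_top (by omega), ih,
      Finset.sum_Ico_succ_top hm]
    abel

theorem cv_row11 (hM : Model H S₁ S₂ e) (N : ℕ) (y : H →L[ℂ] H) {a : ℕ} (ha : 1 ≤ a) :
    cvR S₁ S₂ e N (S₁ * y) (2 * a) = cvR S₁ S₂ e N y a := by
  unfold cvR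
  refine Finset.sum_congr rfl fun k _ => ?_
  rw [ContinuousLinearMap.mul_apply, ← hM.e₁ a ha, cv_star, ← ContinuousLinearMap.mul_apply,
    hM.iso₁]
  rfl

theorem cv_row12 (hM : Model H S₁ S₂ e) (N : ℕ) (y : H →L[ℂ] H) {a : ℕ} (ha : 1 ≤ a) :
    cvR S₁ S₂ e N (S₁ * y) (2 * a + 1) = 0 := by
  unfold cvR
  refine Finset.sum_eq_zero fun k _ => ?_
  rw [ContinuousLinearMap.mul_apply, ← hM.e₂ a ha, cv_star, ← ContinuousLinearMap.mul_apply,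
    cv_orth' hM]
  simp

theorem cv_row21 (hM : Model H S₁ S₂ e) (N : ℕ) (y : H →L[ℂ] H) {a : ℕ} (ha : 1 ≤ a) :
    cvR S₁ S₂ e N (S₂ * y) (2 * a) = 0 := by
  unfold cvR
  refine Finset.sum_eq_zero fun k _ => ?_
  rw [ContinuousLinearMap.mul_apply, ← hM.e₁ a ha, cv_star, ← ContinuousLinearMap.mul_apply,
    hM.orth]
  simp

theorem cv_row22 (hM : Model H S₁ S₂ e) (N : ℕ) (y : H →L[ℂ] H) {a : ℕ} (ha : 1 ≤ a) :
    cvR S₁ S₂ e N (S₂ * y) (2 * a + 1) = cvR S₁ S₂ e N y a := by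
  unfold cvR
  refine Finset.sum_congr rfl fun k _ => ?_
  rw [ContinuousLinearMap.mul_apply, ← hM.e₂ a ha, cv_star, ← ContinuousLinearMap.mul_apply,
    hM.iso₂]
  rfl

theorem cv_rows1 (hM : Model H S₁ S₂ e) (N : ℕ) (y : H →L[ℂ] H) {a : ℕ} (ha : 1 ≤ a) :
    cvR S₁ S₂ e N (star S₁ * y) a = cvR S₁ S₂ e N y (2 * a) := by
  unfold cvR
  refine Finset.sum_congr rfl fun k _ => ?_
  rw [ContinuousLinearMap.mul_apply, ← hM.e₁ a ha, cv_star]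

theorem cv_rows2 (hM : Model H S₁ S₂ e) (N : ℕ) (y : H →L[ℂ] H) {a : ℕ} (ha : 1 ≤ a) :
    cvR S₁ S₂ e N (star S₂ * y) a = cvR S₁ S₂ e N y (2 * a + 1) := by
  unfold cvR
  refine Finset.sum_congr rfl fun k _ => ?_
  rw [ContinuousLinearMap.mul_apply, ← hM.e₂ a ha, cv_star]

theorem cv_S1 (hM : Model H S₁ S₂ e) (n : ℕ) (y : H →L[ℂ] H) :
    TN S₁ S₂ e (n + 1) (S₁ * y) - S₁ * TN S₁ S₂ e (n + 1) y =
      cvR S₁ S₂ e (n + 1) (S₁ * y) 1 -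
        S₁ * ∑ j ∈ Finset.Ico (2 ^ n) (2 ^ (n + 1)), Sw S₁ S₂ j * cvR S₁ S₂ e (n + 1) y j := by
  have h2 : 2 ^ (n + 1) = 2 * 2 ^ n := by rw [pow_succ]; ring
  have hpos : 1 ≤ 2 ^ n := Nat.one_le_two_pow
  have h3 : TN S₁ S₂ e (n + 1) (S₁ * y) = cvR S₁ S₂ e (n + 1) (S₁ * y) 1 +
      S₁ * ∑ a ∈ Finset.Ico 1 (2 ^ n), Sw S₁ S₂ a * cvR S₁ S₂ e (n + 1) y a := by
    rw [cv_TN]
    conv_lhs => rw [h2]
    rw [cv_split _ _ hpos, Sw_one, one_mul, Finset.mul_sum]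
    congr 1
    refine Finset.sum_congr rfl fun a ha => ?_
    rw [Finset.mem_Ico] at ha
    rw [cv_row11 hM _ _ ha.1, cv_row12 hM _ _ ha.1, mul_zero, add_zero, Sw_even _ _ ha.1, mul_assoc]
  have h4 : TN S₁ S₂ e (n + 1) y =
      ∑ a ∈ Finset.Ico 1 (2 ^ n), Sw S₁ S₂ a * cvR S₁ S₂ e (n + 1) y a +
      ∑ j ∈ Finset.Ico (2 ^ n) (2 ^ (n + 1)), Sw S₁ S₂ j * cvR S₁ S₂ e (n + 1) y j := by
    rw [cv_TN, Finset.sum_Ico_consecutive _ hpos (by omega)]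
  rw [h3, h4, mul_add]
  abel

theorem cv_S2 (hM : Model H S₁ S₂ e) (n : ℕ) (y : H →L[ℂ] H) :
    TN S₁ S₂ e (n + 1) (S₂ * y) - S₂ * TN S₁ S₂ e (n + 1) y =
      cvR S₁ S₂ e (n + 1) (S₂ * y) 1 -
        S₂ * ∑ j ∈ Finset.Ico (2 ^ n) (2 ^ (n + 1)), Sw S₁ S₂ j * cvR S₁ S₂ e (n + 1) y j := by
  have h2 : 2 ^ (n + 1) = 2 * 2 ^ n := by rw [pow_succ]; ring
  have hpos : 1 ≤ 2 ^ n := Nat.one_le_two_pow
  have h3 : TN S₁ S₂ e (n + 1) (S₂ * y) = cvR S₁ S₂ e (n + 1) (S₂ * y) 1 +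
      S₂ * ∑ a ∈ Finset.Ico 1 (2 ^ n), Sw S₁ S₂ a * cvR S₁ S₂ e (n + 1) y a := by
    rw [cv_TN]
    conv_lhs => rw [h2]
    rw [cv_split _ _ hpos, Sw_one, one_mul, Finset.mul_sum]
    congr 1
    refine Finset.sum_congr rfl fun a ha => ?_
    rw [Finset.mem_Ico] at ha
    rw [cv_row21 hM _ _ ha.1, cv_row22 hM _ _ ha.1, mul_zero, zero_add, Sw_odd _ _ ha.1, mul_assoc]
  have h4 : TN S₁ S₂ e (n + 1) y =
      ∑ a ∈ Finset.Ico 1 (2 ^ n), Sw S₁ S₂ a * cvR S₁ S₂ e (n + 1) y a +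
      ∑ j ∈ Finset.Ico (2 ^ n) (2 ^ (n + 1)), Sw S₁ S₂ j * cvR S₁ S₂ e (n + 1) y j := by
    rw [cv_TN, Finset.sum_Ico_consecutive _ hpos (by omega)]
  rw [h3, h4, mul_add]
  abel

theorem cv_T1 (hM : Model H S₁ S₂ e) (N : ℕ) (y : H →L[ℂ] H) :
    TN S₁ S₂ e N (star S₁ * y) - star S₁ * TN S₁ S₂ e N y =
      star S₁ * (∑ j ∈ Finset.Ico (2 ^ N) (2 ^ (N + 1)), Sw S₁ S₂ j * cvR S₁ S₂ e N y j -
        cvR S₁ S₂ e N y 1) := by
  have h2 : 2 ^ (N + 1) = 2 * 2 ^ N := by rw [pow_succ]; ring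
  have hpos : 1 ≤ 2 ^ N := Nat.one_le_two_pow
  have h3 : TN S₁ S₂ e N (star S₁ * y) = star S₁ *
      ∑ a ∈ Finset.Ico 1 (2 ^ N), (Sw S₁ S₂ (2 * a) * cvR S₁ S₂ e N y (2 * a) +
        Sw S₁ S₂ (2 * a + 1) * cvR S₁ S₂ e N y (2 * a + 1)) := by
    rw [cv_TN, Finset.mul_sum]
    refine Finset.sum_congr rfl fun a ha => ?_
    rw [Finset.mem_Ico] at ha
    rw [cv_rows1 hM _ _ ha.1, Sw_even _ _ ha.1, Sw_odd _ _ ha.1, mul_add]
    have e1 : star S₁ * (S₁ * Sw S₁ S₂ a * cvR S₁ S₂ e N y (2 * a)) =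
        (star S₁ * S₁) * (Sw S₁ S₂ a * cvR S₁ S₂ e N y (2 * a)) := by
      simp only [mul_assoc]
    have e2 : star S₁ * (S₂ * Sw S₁ S₂ a * cvR S₁ S₂ e N y (2 * a + 1)) =
        (star S₁ * S₂) * (Sw S₁ S₂ a * cvR S₁ S₂ e N y (2 * a + 1)) := by
      simp only [mul_assoc]
    rw [e1, e2, hM.iso₁, hM.orth, one_mul, zero_mul, add_zero]
  have h4 : ∑ j ∈ Finset.Ico 1 (2 * 2 ^ N), Sw S₁ S₂ j * cvR S₁ S₂ e N y j =
      TN S₁ S₂ e N y +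
      ∑ j ∈ Finset.Ico (2 ^ N) (2 * 2 ^ N), Sw S₁ S₂ j * cvR S₁ S₂ e N y j := by
    rw [cv_TN, Finset.sum_Ico_consecutive _ hpos (by omega)]
  rw [cv_split _ _ hpos, Sw_one, one_mul] at h4
  rw [h2, h3, ← mul_sub]
  congr 1
  rw [sub_eq_sub_iff_add_eq_add, add_comm, h4, add_comm]

theorem cv_T2 (hM : Model H S₁ S₂ e) (N : ℕ) (y : H →L[ℂ] H) :
    TN S₁ S₂ e N (star S₂ * y) - star S₂ * TN S₁ S₂ e N y =
      star S₂ * (∑ j ∈ Finset.Ico (2 ^ N) (2 ^ (N + 1)), Sw S₁ S₂ j * cvR S₁ S₂ e N y j -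
        cvR S₁ S₂ e N y 1) := by
  have h2 : 2 ^ (N + 1) = 2 * 2 ^ N := by rw [pow_succ]; ring
  have hpos : 1 ≤ 2 ^ N := Nat.one_le_two_pow
  have h3 : TN S₁ S₂ e N (star S₂ * y) = star S₂ *
      ∑ a ∈ Finset.Ico 1 (2 ^ N), (Sw S₁ S₂ (2 * a) * cvR S₁ S₂ e N y (2 * a) +
        Sw S₁ S₂ (2 * a + 1) * cvR S₁ S₂ e N y (2 * a + 1)) := by
    rw [cv_TN, Finset.mul_sum]
    refine Finset.sum_congr rfl fun a ha => ?_
    rw [Finset.mem_Ico] at ha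
    rw [cv_rows2 hM _ _ ha.1, Sw_even _ _ ha.1, Sw_odd _ _ ha.1, mul_add]
    have e1 : star S₂ * (S₁ * Sw S₁ S₂ a * cvR S₁ S₂ e N y (2 * a)) =
        (star S₂ * S₁) * (Sw S₁ S₂ a * cvR S₁ S₂ e N y (2 * a)) := by
      simp only [mul_assoc]
    have e2 : star S₂ * (S₂ * Sw S₁ S₂ a * cvR S₁ S₂ e N y (2 * a + 1)) =
        (star S₂ * S₂) * (Sw S₁ S₂ a * cvR S₁ S₂ e N y (2 * a + 1)) := by
      simp only [mul_assoc]
    rw [e1, e2, hM.iso₂, cv_orth' hM, one_mul, zero_mul, zero_add]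
  have h4 : ∑ j ∈ Finset.Ico 1 (2 * 2 ^ N), Sw S₁ S₂ j * cvR S₁ S₂ e N y j =
      TN S₁ S₂ e N y +
      ∑ j ∈ Finset.Ico (2 ^ N) (2 * 2 ^ N), Sw S₁ S₂ j * cvR S₁ S₂ e N y j := by
    rw [cv_TN, Finset.sum_Ico_consecutive _ hpos (by omega)]
  rw [cv_split _ _ hpos, Sw_one, one_mul] at h4
  rw [h2, h3, ← mul_sub]
  congr 1
  rw [sub_eq_sub_iff_add_eq_add, add_comm, h4, add_comm]

theorem cv_one (hM : Model H S₁ S₂ e) : ‖S₁‖ ≤ 1 ∧ ‖S₂‖ ≤ 1 := by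
  have h0 : ‖(1 : H →L[ℂ] H)‖ ≤ 1 := ContinuousLinearMap.norm_id_le
  constructor
  · have h1 := CStarRing.norm_star_mul_self (x := S₁)
    rw [hM.iso₁] at h1
    nlinarith [norm_nonneg S₁]
  · have h1 := CStarRing.norm_star_mul_self (x := S₂)
    rw [hM.iso₂] at h1
    nlinarith [norm_nonneg S₂]

theorem cv_nrow (hV : StmtVec) (hL : StmtLvl) (hM : Model H S₁ S₂ e) (N : ℕ) (y : H →L[ℂ] H) :
    ‖cvR S₁ S₂ e N y 1‖ ≤ Real.sqrt N * ‖y‖ := by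
  have h := cv_level hV hL hM N 0 y
  have h1 : Finset.Ico (2 ^ 0) (2 ^ (0 + 1)) = {1} := by decide
  rw [h1, Finset.sum_singleton, Sw_one, one_mul] at h
  exact h

/-- `T_N(x y)` is close to `x T_N(y)` -/
def CvP (S₁ S₂ : H →L[ℂ] H) (e : ℕ → H) (x : H →L[ℂ] H) : Prop :=
  ∃ C : ℝ, 0 ≤ C ∧ ∀ N : ℕ, 1 ≤ N → ∀ y : H →L[ℂ] H,
    ‖TN S₁ S₂ e N (x * y) - x * TN S₁ S₂ e N y‖ ≤ C * Real.sqrt N * ‖y‖

theorem cv_mul_le {A B : H →L[ℂ] H} {r : ℝ} (hA : ‖A‖ ≤ 1) (hB : ‖B‖ ≤ r) : ‖A * B‖ ≤ r := by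
  refine (norm_mul_le _ _).trans ?_
  have h1 : ‖A‖ * ‖B‖ ≤ 1 * ‖B‖ := mul_le_mul_of_nonneg_right hA (norm_nonneg _)
  linarith

theorem cv_P1 (hV : StmtVec) (hL : StmtLvl) (hM : Model H S₁ S₂ e) : CvP S₁ S₂ e S₁ := by
  refine ⟨2, by norm_num, fun N hN y => ?_⟩
  obtain ⟨n, rfl⟩ : ∃ n, N = n + 1 := ⟨N - 1, by omega⟩
  rw [cv_S1 hM]
  have h1 := cv_nrow hV hL hM (n + 1) (S₁ * y)
  have h2 := cv_mul_le (cv_one hM).1 (cv_level hV hL hM (n + 1) n y)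
  have h3 := cv_mul_le (cv_one hM).1 (le_refl ‖y‖)
  have h4 := mul_le_mul_of_nonneg_left h3 (Real.sqrt_nonneg ((n + 1 : ℕ) : ℝ))
  refine (norm_sub_le _ _).trans ?_
  linarith

theorem cv_P2 (hV : StmtVec) (hL : StmtLvl) (hM : Model H S₁ S₂ e) : CvP S₁ S₂ e S₂ := by
  refine ⟨2, by norm_num, fun N hN y => ?_⟩
  obtain ⟨n, rfl⟩ : ∃ n, N = n + 1 := ⟨N - 1, by omega⟩
  rw [cv_S2 hM]
  have h1 := cv_nrow hV hL hM (n + 1) (S₂ * y)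
  have h2 := cv_mul_le (cv_one hM).2 (cv_level hV hL hM (n + 1) n y)
  have h3 := cv_mul_le (cv_one hM).2 (le_refl ‖y‖)
  have h4 := mul_le_mul_of_nonneg_left h3 (Real.sqrt_nonneg ((n + 1 : ℕ) : ℝ))
  refine (norm_sub_le _ _).trans ?_
  linarith

theorem cv_Q1 (hV : StmtVec) (hL : StmtLvl) (hM : Model H S₁ S₂ e) : CvP S₁ S₂ e (star S₁) := by
  refine ⟨2, by norm_num, fun N hN y => ?_⟩
  rw [cv_T1 hM]
  have h1 := cv_nrow hV hL hM N y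
  have h2 := cv_level hV hL hM N N y
  refine cv_mul_le ?_ ((norm_sub_le _ _).trans (by linarith))
  rw [norm_star]
  exact (cv_one hM).1

theorem cv_Q2 (hV : StmtVec) (hL : StmtLvl) (hM : Model H S₁ S₂ e) : CvP S₁ S₂ e (star S₂) := by
  refine ⟨2, by norm_num, fun N hN y => ?_⟩
  rw [cv_T2 hM]
  have h1 := cv_nrow hV hL hM N y
  have h2 := cv_level hV hL hM N N y
  refine cv_mul_le ?_ ((norm_sub_le _ _).trans (by linarith))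
  rw [norm_star]
  exact (cv_one hM).2

theorem cv_Pc (c : ℂ) : CvP S₁ S₂ e (algebraMap ℂ (H →L[ℂ] H) c) := by
  refine ⟨0, le_rfl, fun N _ y => ?_⟩
  rw [Algebra.algebraMap_eq_smul_one, smul_mul_assoc, smul_mul_assoc, one_mul, one_mul,
    cv_TN_smul, sub_self, norm_zero]
  simp

theorem cv_Padd {x x' : H →L[ℂ] H} (hx : CvP S₁ S₂ e x) (hx' : CvP S₁ S₂ e x') :
    CvP S₁ S₂ e (x + x') := by
  obtain ⟨C, hC, h⟩ := hx
  obtain ⟨C', hC', h'⟩ := hx'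
  refine ⟨C + C', by positivity, fun N hN y => ?_⟩
  have e1 : TN S₁ S₂ e N ((x + x') * y) - (x + x') * TN S₁ S₂ e N y =
      (TN S₁ S₂ e N (x * y) - x * TN S₁ S₂ e N y) +
      (TN S₁ S₂ e N (x' * y) - x' * TN S₁ S₂ e N y) := by
    rw [add_mul, add_mul, cv_TN_add]
    abel
  rw [e1]
  refine (norm_add_le _ _).trans ?_
  have h1 := h N hN y
  have h2 := h' N hN y
  linarith

theorem cv_Pmul {x x' : H →L[ℂ] H} (hx : CvP S₁ S₂ e x) (hx' : CvP S₁ S₂ e x') :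
    CvP S₁ S₂ e (x * x') := by
  obtain ⟨C, hC, h⟩ := hx
  obtain ⟨C', hC', h'⟩ := hx'
  refine ⟨C * ‖x'‖ + ‖x‖ * C', by positivity, fun N hN y => ?_⟩
  have e1 : TN S₁ S₂ e N (x * x' * y) - x * x' * TN S₁ S₂ e N y =
      (TN S₁ S₂ e N (x * (x' * y)) - x * TN S₁ S₂ e N (x' * y)) +
      x * (TN S₁ S₂ e N (x' * y) - x' * TN S₁ S₂ e N y) := by
    rw [mul_assoc, mul_assoc, mul_sub]
    abel
  rw [e1]
  refine (norm_add_le _ _).trans ?_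
  have h1 := h N hN (x' * y)
  have h2 := h' N hN y
  have h3 : C * Real.sqrt N * ‖x' * y‖ ≤ C * Real.sqrt N * (‖x'‖ * ‖y‖) :=
    mul_le_mul_of_nonneg_left (norm_mul_le _ _) (by positivity)
  have h4 : ‖x * (TN S₁ S₂ e N (x' * y) - x' * TN S₁ S₂ e N y)‖ ≤
      ‖x‖ * (C' * Real.sqrt N * ‖y‖) :=
    (norm_mul_le _ _).trans (mul_le_mul_of_nonneg_left h2 (norm_nonneg _))
  linarith

theorem cv_Pall (hV : StmtVec) (hL : StmtLvl) (hM : Model H S₁ S₂ e) {x : H →L[ℂ] H}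
    (hx : x ∈ StarAlgebra.adjoin ℂ {S₁, S₂}) : CvP S₁ S₂ e x := by
  have h : CvP S₁ S₂ e x ∧ CvP S₁ S₂ e (star x) := by
    induction hx using StarAlgebra.adjoin_induction with
    | mem x h =>
      rcases h with rfl | h
      · exact ⟨cv_P1 hV hL hM, cv_Q1 hV hL hM⟩
      · rw [Set.mem_singleton_iff] at h
        subst h
        exact ⟨cv_P2 hV hL hM, cv_Q2 hV hL hM⟩
    | algebraMap r =>
      refine ⟨cv_Pc r, ?_⟩
      rw [← algebraMap_star_comm]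
      exact cv_Pc _
    | add x y _ _ hx hy =>
      refine ⟨cv_Padd hx.1 hy.1, ?_⟩
      rw [star_add]
      exact cv_Padd hx.2 hy.2
    | mul x y _ _ hx hy =>
      refine ⟨cv_Pmul hx.1 hy.1, ?_⟩
      rw [star_mul]
      exact cv_Pmul hy.2 hx.2
    | star x _ hx =>
      rw [star_star]
      exact ⟨hx.2, hx.1⟩
  exact h.1

theorem cv_TN_one (hL : StmtLvl) (hM : Model H S₁ S₂ e) (N : ℕ) :
    TN S₁ S₂ e N 1 = (N : ℂ) • 1 := by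
  rw [← (hL H S₁ S₂ e hM).2.1 N, cv_TN]
  refine Finset.sum_congr rfl fun j hj => ?_
  congr 1
  unfold cvR
  rw [Finset.sum_eq_single j]
  · have h1 : ⟪e j, (1 : H →L[ℂ] H) (e j)⟫_ℂ = 1 := by
      rw [ContinuousLinearMap.one_apply, inner_self_eq_norm_sq_to_K, hM.on.1 j]
      simp
    rw [h1, one_smul]
  · intro k _ hk
    have h1 : ⟪e j, (1 : H →L[ℂ] H) (e k)⟫_ℂ = 0 := by
      rw [ContinuousLinearMap.one_apply]
      exact hM.on.2 (Ne.symm hk)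
    rw [h1, zero_smul]
  · intro h
    exact absurd hj h

theorem cv_main (hL : StmtLvl) (hM : Model H S₁ S₂ e) {x : H →L[ℂ] H} (hx : CvP S₁ S₂ e x) :
    ∃ C : ℝ, 0 ≤ C ∧ ∀ N : ℕ, 1 ≤ N →
      ‖((1 : ℂ) / (N : ℂ)) • TN S₁ S₂ e N x - x‖ ≤ C / Real.sqrt N := by
  obtain ⟨C, hC, h⟩ := hx
  refine ⟨C, hC, fun N hN => ?_⟩
  have h1 := h N hN 1
  rw [mul_one, cv_TN_one hL hM, mul_smul_comm, mul_one] at h1
  have hN0 : (0 : ℝ) < N := by exact_mod_cast hN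
  have hNC : (N : ℂ) ≠ 0 := by
    have : N ≠ 0 := by omega
    exact_mod_cast this
  have e1 : ((1 : ℂ) / (N : ℂ)) • TN S₁ S₂ e N x - x =
      ((1 : ℂ) / (N : ℂ)) • (TN S₁ S₂ e N x - (N : ℂ) • x) := by
    rw [smul_sub, smul_smul, one_div_mul_cancel hNC, one_smul]
  rw [e1, norm_smul]
  have h2 : ‖(1 : ℂ) / (N : ℂ)‖ = 1 / N := by simp
  rw [h2]
  have h3 : ‖(1 : H →L[ℂ] H)‖ ≤ 1 := ContinuousLinearMap.norm_id_le
  have h4 : C * Real.sqrt N * ‖(1 : H →L[ℂ] H)‖ ≤ C * Real.sqrt N * 1 :=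
    mul_le_mul_of_nonneg_left h3 (by positivity)
  have h5 : (1 : ℝ) / N * ‖TN S₁ S₂ e N x - (N : ℂ) • x‖ ≤ 1 / N * (C * Real.sqrt N) :=
    mul_le_mul_of_nonneg_left (by linarith) (by positivity)
  refine h5.trans (le_of_eq ?_)
  have h6 : Real.sqrt N * Real.sqrt N = N := Real.mul_self_sqrt hN0.le
  have h7 : Real.sqrt N ≠ 0 := (Real.sqrt_pos.2 hN0).ne'
  field_simp
  nlinarith

end

/-- Part CONV -/
theorem stmtConv (hV : StmtVec) (hL : StmtLvl) : StmtConv := by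
  intro H _ _ _ S₁ S₂ e hM x hx
  rw [Metric.tendsto_atTop]
  intro ε hε
  have hx' : x ∈ closure ((StarAlgebra.adjoin ℂ {S₁, S₂} : StarSubalgebra ℂ (H →L[ℂ] H)) :
      Set (H →L[ℂ] H)) := hx
  obtain ⟨x', hx'm, hd⟩ := Metric.mem_closure_iff.1 hx' (ε / 3) (by linarith)
  rw [dist_eq_norm] at hd
  obtain ⟨C, hC, hb⟩ := cv_main hL hM (cv_Pall hV hL hM hx'm)
  have ht : Tendsto (fun N : ℕ => C / Real.sqrt N) atTop (𝓝 0) :=
    tendsto_const_nhds.div_atTop (Real.tendsto_sqrt_atTop.comp tendsto_natCast_atTop_atTop)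
  obtain ⟨N0, hN0⟩ := (ht.eventually_lt_const (by linarith : 0 < ε / 3)).exists_forall_of_atTop
  refine ⟨max N0 1, fun N hN => ?_⟩
  have hN1 : 1 ≤ N := (le_max_right _ _).trans hN
  have hN2 : N0 ≤ N := (le_max_left _ _).trans hN
  have hNR : (0 : ℝ) < N := by exact_mod_cast hN1
  rw [dist_zero_right, norm_norm]
  have h1 := hb N hN1
  have h2 := hN0 N hN2
  have h3 : ‖((1 : ℂ) / (N : ℂ)) • TN S₁ S₂ e N (x - x')‖ ≤ ‖x - x'‖ := by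
    rw [norm_smul]
    have h4 : ‖(1 : ℂ) / (N : ℂ)‖ = 1 / N := by simp
    rw [h4]
    have h5 : (1 : ℝ) / N * ‖TN S₁ S₂ e N (x - x')‖ ≤ 1 / N * (N * ‖x - x'‖) :=
      mul_le_mul_of_nonneg_left (cv_TN_le hV hL hM N _) (by positivity)
    refine h5.trans (le_of_eq ?_)
    field_simp
  have e1 : ((1 : ℂ) / (N : ℂ)) • TN S₁ S₂ e N x - x =
      ((1 : ℂ) / (N : ℂ)) • TN S₁ S₂ e N (x - x') +
      (((1 : ℂ) / (N : ℂ)) • TN S₁ S₂ e N x' - x') - (x - x') := by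
    rw [cv_TN_sub, smul_sub]
    abel
  rw [e1]
  refine lt_of_le_of_lt ((norm_sub_le _ _).trans (add_le_add_left (norm_add_le _ _) _)) ?_
  linarith

end

end Pool.Agent.R283.TI
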