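import Mathlib

/-!
# Type I local approximation: definitions and statements for MP_b9f29c_an
-/

set_option autoImplicit false

open Filter Topology
open scoped InnerProductSpace

namespace Pool.Agent.R283.TI

noncomputable section

/-- `x` is positive -/
def Pos {A : Type} [Mul A] [Star A] (x : A) : Prop := ∃ c : A, x = star c * c

/-- Complete positivity of a linear map between C*-algebras:
`∑ i j, b_i^* φ(a_i^* a_j) b_j ≥ 0` for all finite families. -/
def IsCP {A B : Type} [CStarAlgebra A] [CStarAlgebra B] (φ : A →ₗ[ℂ] B) : Prop :=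
  ∀ (k : ℕ) (a : Fin k → A) (b : Fin k → B),
    Pos (∑ i, ∑ j, star (b i) * φ (star (a i) * a j) * b j)

/-- The matrix algebra of operators on the Hilbert space `ℂ^ι`. -/
abbrev Mat (ι : Type) [Fintype ι] : Type := EuclideanSpace ℂ ι →L[ℂ] EuclideanSpace ℂ ι

/-- Nuclearity (completely positive approximation property): the identity is a point-norm limit
of maps which factor through matrix algebras by completely positive contractions. -/
def Nuclear (A : Type) [CStarAlgebra A] : Prop :=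
  ∀ (F : Finset A) (ε : ℝ), 0 < ε → ∃ (ι : Type) (_ : Fintype ι) (φ : A →ₗ[ℂ] Mat ι)
    (ψ : Mat ι →ₗ[ℂ] A), IsCP φ ∧ IsCP ψ ∧ (∀ x, ‖φ x‖ ≤ ‖x‖) ∧ (∀ y, ‖ψ y‖ ≤ ‖y‖) ∧
      ∀ x ∈ F, ‖ψ (φ x) - x‖ < ε

/-- Every matrix algebra over `A` is finite. -/
def StablyFinite (A : Type) [CStarAlgebra A] : Prop :=
  ∀ (n : ℕ) (v : Matrix (Fin n) (Fin n) A), star v * v = 1 → v * star v = 1

/-- `π` is a nonzero topologically irreducible representation. -/
def Irr {B H : Type} [NonUnitalNonAssocSemiring B] [Star B] [DistribMulAction ℂ B]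
    [NormedAddCommGroup H] [InnerProductSpace ℂ H] [CompleteSpace H]
    (π : B →⋆ₙₐ[ℂ] (H →L[ℂ] H)) : Prop :=
  (∃ b, π b ≠ 0) ∧ ∀ W : Submodule ℂ H, IsClosed (W : Set H) →
    (∀ b, ∀ w ∈ W, π b w ∈ W) → W = ⊥ ∨ W = ⊤

/-- `B` is type I: the image of every irreducible representation contains the compact
operators. -/
def TypeI (B : Type) [NonUnitalNonAssocSemiring B] [Star B] [DistribMulAction ℂ B] : Prop :=
  ∀ (H : Type) [NormedAddCommGroup H] [InnerProductSpace ℂ H] [CompleteSpace H]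
    (π : B →⋆ₙₐ[ℂ] (H →L[ℂ] H)), Irr π → ∀ T : H →L[ℂ] H, IsCompactOperator T → ∃ b, π b = T

/-- `A` is locally approximable by type I C*-subalgebras. -/
def LocallyTypeI (A : Type) [CStarAlgebra A] : Prop :=
  ∀ (F : Finset A) (ε : ℝ), 0 < ε → ∃ B : NonUnitalStarSubalgebra ℂ A,
    IsClosed (B : Set A) ∧ TypeI B ∧ ∀ x ∈ F, ∃ b ∈ B, ‖x - b‖ < ε

/-- The algebra of all continuous functions `f` from `[0,1]` to `D` with `f 0` scalar. -/
def Cone (D : Type) [CStarAlgebra D] : StarSubalgebra ℂ C(unitInterval, D) where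
  carrier := {f | ∃ c : ℂ, f 0 = algebraMap ℂ D c}
  mul_mem' := by
    rintro f g ⟨c, hc⟩ ⟨d, hd⟩
    exact ⟨c * d, by rw [ContinuousMap.mul_apply, hc, hd, map_mul]⟩
  add_mem' := by
    rintro f g ⟨c, hc⟩ ⟨d, hd⟩
    exact ⟨c + d, by rw [ContinuousMap.add_apply, hc, hd, map_add]⟩
  algebraMap_mem' := fun c => ⟨c, rfl⟩
  star_mem' := by
    rintro f ⟨c, hc⟩
    refine ⟨star c, ?_⟩
    rw [ContinuousMap.star_apply, hc, algebraMap_star_comm]

theorem isClosed_Cone (D : Type) [CStarAlgebra D] :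
    IsClosed (Cone D : Set C(unitInterval, D)) := by
  have h : (Cone D : Set C(unitInterval, D)) =
      (fun f : C(unitInterval, D) => f 0) ⁻¹' (Set.range (algebraMap ℂ D)) := by
    ext f
    constructor
    · rintro ⟨c, hc⟩
      exact ⟨c, hc.symm⟩
    · rintro ⟨c, hc⟩
      exact ⟨c, hc.symm⟩
  rw [h]
  refine IsClosed.preimage (by fun_prop) ?_
  have h2 : (Set.range (algebraMap ℂ D)) = ((ℂ ∙ (1 : D)) : Submodule ℂ D) := by
    ext x
    simp [Submodule.mem_span_singleton, Algebra.algebraMap_eq_smul_one]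
  rw [h2]
  exact Submodule.closed_of_finiteDimensional _

instance (D : Type) [CStarAlgebra D] : CStarAlgebra C(unitInterval, D) where

instance instClosedCone (D : Type) [CStarAlgebra D] :
    IsClosed (Cone D : Set C(unitInterval, D)) := isClosed_Cone D

instance instCone (D : Type) [CStarAlgebra D] : CStarAlgebra (Cone D) :=
  StarSubalgebra.cstarAlgebra (Cone D)

/-- Part CONE -/
def StmtCone : Prop := ∀ (D : Type) [CStarAlgebra D], Nuclear D → Nuclear (Cone D)

/-- Part FIN -/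
def StmtFin : Prop := ∀ (D : Type) [CStarAlgebra D], StablyFinite (Cone D)

/-- Part SEP -/
def StmtSep : Prop := ∀ (D : Type) [CStarAlgebra D] [TopologicalSpace.SeparableSpace D],
  TopologicalSpace.SeparableSpace (Cone D)

/-- Part IRR: every unital C*-algebra has an irreducible representation whose kernel is a maximal
two-sided ideal. -/
def StmtIrr : Prop := ∀ (E : Type) [CStarAlgebra E] [Nontrivial E],
  ∃ (H : Type) (_ : NormedAddCommGroup H) (_ : InnerProductSpace ℂ H) (_ : CompleteSpace H)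
    (π : E →⋆ₐ[ℂ] (H →L[ℂ] H)), Nontrivial H ∧
    (∀ W : Submodule ℂ H, IsClosed (W : Set H) → (∀ b, ∀ w ∈ W, π b w ∈ W) → W = ⊥ ∨ W = ⊤) ∧
    (∀ I : Submodule ℂ E, (∀ x y, y ∈ I → x * y ∈ I) → (∀ x y, x ∈ I → x * y ∈ I) →
      (∀ x, π x = 0 → x ∈ I) → (∃ x ∈ I, π x ≠ 0) → (1 : E) ∈ I)

/-- The data for the Cuntz algebra `O_2`: two isometries with orthogonal ranges which add up
to the identity, and an orthonormal family `e_1, e_2, ...` with `S_1 e_j = e_{2j}`,
`S_2 e_j = e_{2j+1}` (`j ≥ 1`); `e 0` is irrelevant. -/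
structure Model (H : Type) [NormedAddCommGroup H] [InnerProductSpace ℂ H] [CompleteSpace H]
    (S₁ S₂ : H →L[ℂ] H) (e : ℕ → H) : Prop where
  iso₁ : star S₁ * S₁ = 1
  iso₂ : star S₂ * S₂ = 1
  orth : star S₁ * S₂ = 0
  sum : S₁ * star S₁ + S₂ * star S₂ = 1
  on : Orthonormal ℂ e
  e₁ : ∀ j, 1 ≤ j → S₁ (e j) = e (2 * j)
  e₂ : ∀ j, 1 ≤ j → S₂ (e j) = e (2 * j + 1)

/-- The C*-algebra generated by `S₁`, `S₂` (and `1`). -/
def O2 {H : Type} [NormedAddCommGroup H] [InnerProductSpace ℂ H] [CompleteSpace H]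
    (S₁ S₂ : H →L[ℂ] H) : StarSubalgebra ℂ (H →L[ℂ] H) :=
  (StarAlgebra.adjoin ℂ {S₁, S₂}).topologicalClosure

instance instClosedO2 {H : Type} [NormedAddCommGroup H] [InnerProductSpace ℂ H] [CompleteSpace H]
    (S₁ S₂ : H →L[ℂ] H) : IsClosed (O2 S₁ S₂ : Set (H →L[ℂ] H)) :=
  StarSubalgebra.isClosed_topologicalClosure _

instance instO2 {H : Type} [NormedAddCommGroup H] [InnerProductSpace ℂ H] [CompleteSpace H]
    (S₁ S₂ : H →L[ℂ] H) : CStarAlgebra (O2 S₁ S₂) :=
  StarSubalgebra.cstarAlgebra (O2 S₁ S₂)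

/-- Part MODEL -/
def StmtModel : Prop := ∃ (H : Type) (_ : NormedAddCommGroup H) (_ : InnerProductSpace ℂ H)
  (_ : CompleteSpace H) (S₁ S₂ : H →L[ℂ] H) (e : ℕ → H), Model H S₁ S₂ e

/-- Part O2N -/
def StmtO2N : Prop := ∀ (H : Type) [NormedAddCommGroup H] [InnerProductSpace ℂ H]
  [CompleteSpace H] (S₁ S₂ : H →L[ℂ] H) (e : ℕ → H), Model H S₁ S₂ e → Nuclear (O2 S₁ S₂)

/-- Part O2S -/
def StmtO2S : Prop := ∀ (H : Type) [NormedAddCommGroup H] [InnerProductSpace ℂ H]
  [CompleteSpace H] (S₁ S₂ : H →L[ℂ] H), TopologicalSpace.SeparableSpace (O2 S₁ S₂)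

end

end Pool.Agent.R283.TI
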