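import Pool.Agent.R283.TI.Stm

/-!
# `T_N / N` factors through a matrix algebra by completely positive contractions
-/

set_option autoImplicit false

open Filter Topology
open scoped InnerProductSpace

namespace Pool.Agent.R283.TI

noncomputable section

namespace Fac

theorem pos_sum {A κ : Type} [CStarAlgebra A] (s : Finset κ) (c : κ → A) :
    Pos (∑ i ∈ s, star (c i) * c i) := by
  let _ := CStarAlgebra.spectralOrder A
  let _ := CStarAlgebra.spectralOrderedRing A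
  have h : 0 ≤ ∑ i ∈ s, star (c i) * c i := Finset.sum_nonneg fun i _ => star_mul_self_nonneg (c i)
  exact CStarAlgebra.nonneg_iff_eq_star_mul_self.1 h

theorem pos_adj {H K : Type} [NormedAddCommGroup H] [InnerProductSpace ℂ H] [CompleteSpace H]
    [NormedAddCommGroup K] [InnerProductSpace ℂ K] [CompleteSpace K] (T : K →L[ℂ] H) :
    Pos ((ContinuousLinearMap.adjoint T ∘L T : K →L[ℂ] K)) := by
  have h : (0 : K →L[ℂ] K) ≤ ContinuousLinearMap.adjoint T ∘L T := by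
    rw [ContinuousLinearMap.nonneg_iff_isPositive]
    exact ContinuousLinearMap.isPositive_adjoint_comp_self T
  exact CStarAlgebra.nonneg_iff_eq_star_mul_self.1 h

section mat

variable {ι : Type} [Fintype ι] [DecidableEq ι]

/-- matrix entries -/
def ent (M : Mat ι) (j k : ι) : ℂ := (M (EuclideanSpace.single k 1)) j

theorem single_sum (u : EuclideanSpace ℂ ι) :
    u = ∑ k, u k • (EuclideanSpace.single k (1 : ℂ)) := by
  ext j
  simp [Finset.sum_apply, Pi.single_apply]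

theorem apply_ent (M : Mat ι) (u : EuclideanSpace ℂ ι) (j : ι) :
    (M u) j = ∑ k, ent M j k * u k := by
  conv_lhs => rw [single_sum u]
  rw [map_sum]
  simp only [map_smul, WithLp.ofLp_sum, WithLp.ofLp_smul, Finset.sum_apply, Pi.smul_apply, smul_eq_mul]
  exact Finset.sum_congr rfl fun k _ => mul_comm _ _

theorem ent_add (M M' : Mat ι) (j k : ι) : ent (M + M') j k = ent M j k + ent M' j k := by
  unfold ent
  rw [ContinuousLinearMap.add_apply, PiLp.add_apply]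

theorem ent_smul (c : ℂ) (M : Mat ι) (j k : ι) : ent (c • M) j k = c * ent M j k := by
  unfold ent
  rw [ContinuousLinearMap.smul_apply, PiLp.smul_apply, smul_eq_mul]

theorem ent_star_mul (a b : Mat ι) (j k : ι) :
    ent (star a * b) j k = ∑ m, star (ent a m j) * ent b m k := by
  have h1 : ent (star a * b) j k =
      ⟪EuclideanSpace.single j (1 : ℂ), (star a * b) (EuclideanSpace.single k 1)⟫_ℂ := by
    rw [EuclideanSpace.inner_single_left, map_one, one_mul]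
    rfl
  rw [h1, ContinuousLinearMap.mul_apply, ContinuousLinearMap.star_eq_adjoint,
    ContinuousLinearMap.adjoint_inner_right, PiLp.inner_apply]
  refine Finset.sum_congr rfl fun m _ => ?_
  rw [RCLike.inner_apply, mul_comm]
  rfl

theorem ent_bound (M : Mat ι) (u : ι → ℂ) :
    ∑ j, ‖∑ k, ent M j k * u k‖ ^ 2 ≤ ‖M‖ ^ 2 * ∑ k, ‖u k‖ ^ 2 := by
  have h1 := M.le_opNorm (WithLp.toLp 2 u)
  have h2 : ‖M (WithLp.toLp 2 u)‖ ^ 2 ≤ (‖M‖ * ‖(WithLp.toLp 2 u : EuclideanSpace ℂ ι)‖) ^ 2 :=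
    pow_le_pow_left₀ (norm_nonneg _) h1 2
  rw [mul_pow, EuclideanSpace.norm_sq_eq, EuclideanSpace.norm_sq_eq] at h2
  simp only [apply_ent] at h2
  exact h2

end mat

variable {H : Type} [NormedAddCommGroup H] [InnerProductSpace ℂ H] [CompleteSpace H]

theorem Sw_mem (S₁ S₂ : H →L[ℂ] H) (n : ℕ) : Sw S₁ S₂ n ∈ O2 S₁ S₂ := by
  have h1 : S₁ ∈ O2 S₁ S₂ :=
    StarSubalgebra.le_topologicalClosure _ (StarAlgebra.subset_adjoin ℂ {S₁, S₂} (by simp))
  have h2 : S₂ ∈ O2 S₁ S₂ :=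
    StarSubalgebra.le_topologicalClosure _ (StarAlgebra.subset_adjoin ℂ {S₁, S₂} (by simp))
  induction n using Nat.strong_induction_on with
  | _ n ih =>
    rw [Sw]
    split_ifs with h h'
    · exact one_mem _
    · exact mul_mem h1 (ih (n / 2) (by omega))
    · exact mul_mem h2 (ih (n / 2) (by omega))

/-- the word isometries as elements of the algebra -/
def sw (S₁ S₂ : H →L[ℂ] H) (n : ℕ) : O2 S₁ S₂ := ⟨Sw S₁ S₂ n, Sw_mem S₁ S₂ n⟩

section

variable {ι : Type} [Fintype ι] [DecidableEq ι]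

/-- the isometry of `ℂ^ι` onto the span of an orthonormal family -/
def Vl (f : ι → H) : EuclideanSpace ℂ ι →ₗ[ℂ] H where
  toFun u := ∑ j, u j • f j
  map_add' u v := by
    rw [← Finset.sum_add_distrib]
    exact Finset.sum_congr rfl fun j _ => by rw [PiLp.add_apply, add_smul]
  map_smul' c u := by
    rw [RingHom.id_apply, Finset.smul_sum]
    exact Finset.sum_congr rfl fun j _ => by rw [PiLp.smul_apply, smul_eq_mul, mul_smul]

theorem Vl_norm {f : ι → H} (hf : Orthonormal ℂ f) (u : EuclideanSpace ℂ ι) :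
    ‖Vl f u‖ = ‖u‖ := by
  have h1 : ⟪Vl f u, Vl f u⟫_ℂ = ⟪u, u⟫_ℂ := by
    show ⟪∑ j, u j • f j, ∑ j, u j • f j⟫_ℂ = _
    rw [hf.inner_sum, PiLp.inner_apply]
    refine Finset.sum_congr rfl fun j _ => ?_
    rw [RCLike.inner_apply, mul_comm]
  have h3 : ‖Vl f u‖ ^ 2 = ‖u‖ ^ 2 := by
    rw [norm_sq_eq_re_inner (𝕜 := ℂ) (Vl f u), norm_sq_eq_re_inner (𝕜 := ℂ) u, h1]
  exact (pow_left_inj₀ (norm_nonneg _) (norm_nonneg _) two_ne_zero).1 h3

/-- the bounded version -/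
def V {f : ι → H} (hf : Orthonormal ℂ f) : EuclideanSpace ℂ ι →L[ℂ] H :=
  (Vl f).mkContinuous 1 fun u => by rw [one_mul, Vl_norm hf]

theorem V_norm {f : ι → H} (hf : Orthonormal ℂ f) : ‖V hf‖ ≤ 1 :=
  LinearMap.mkContinuous_norm_le _ zero_le_one _

theorem V_single {f : ι → H} (hf : Orthonormal ℂ f) (k : ι) :
    V hf (EuclideanSpace.single k 1) = f k := by
  show ∑ j, (EuclideanSpace.single k (1 : ℂ)) j • f j = f k
  rw [Finset.sum_eq_single k]
  · simp
  · intro j _ hj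
    simp [Pi.single_apply, hj]
  · intro h
    exact absurd (Finset.mem_univ _) h

/-- the compression -/
def ph (S₁ S₂ : H →L[ℂ] H) {f : ι → H} (hf : Orthonormal ℂ f) : O2 S₁ S₂ →ₗ[ℂ] Mat ι where
  toFun x := ContinuousLinearMap.adjoint (V hf) ∘L (x : H →L[ℂ] H) ∘L V hf
  map_add' x y := by
    ext u : 1
    simp
  map_smul' c x := by
    ext u : 1
    simp

theorem ph_apply (S₁ S₂ : H →L[ℂ] H) {f : ι → H} (hf : Orthonormal ℂ f) (x : O2 S₁ S₂) :
    ph S₁ S₂ hf x = ContinuousLinearMap.adjoint (V hf) ∘L (x : H →L[ℂ] H) ∘L V hf := rfl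

theorem ph_cp (S₁ S₂ : H →L[ℂ] H) {f : ι → H} (hf : Orthonormal ℂ f) : IsCP (ph S₁ S₂ hf) := by
  intro k a b
  have h1 : (∑ i, ∑ j, star (b i) * ph S₁ S₂ hf (star (a i) * a j) * b j) =
      ContinuousLinearMap.adjoint (∑ i, (a i : H →L[ℂ] H) ∘L V hf ∘L b i) ∘L
        (∑ i, (a i : H →L[ℂ] H) ∘L V hf ∘L b i) := by
    ext u : 1
    refine ext_inner_left ℂ fun v => ?_
    rw [ContinuousLinearMap.comp_apply, ContinuousLinearMap.adjoint_inner_right]
    simp only [ContinuousLinearMap.sum_apply, ContinuousLinearMap.comp_apply, inner_sum, sum_inner]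
    rw [Finset.sum_comm]
    refine Finset.sum_congr rfl fun j _ => Finset.sum_congr rfl fun i _ => ?_
    rw [ContinuousLinearMap.mul_apply, ContinuousLinearMap.mul_apply,
      ContinuousLinearMap.star_eq_adjoint, ContinuousLinearMap.adjoint_inner_right, ph_apply,
      ContinuousLinearMap.comp_apply, ContinuousLinearMap.comp_apply,
      ContinuousLinearMap.adjoint_inner_right]
    show ⟪_, ((star (a i : H →L[ℂ] H)) * (a j : H →L[ℂ] H)) _⟫_ℂ = _
    rw [ContinuousLinearMap.mul_apply, ContinuousLinearMap.star_eq_adjoint,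
      ContinuousLinearMap.adjoint_inner_right]
  rw [h1]
  exact pos_adj _

theorem ph_norm (S₁ S₂ : H →L[ℂ] H) {f : ι → H} (hf : Orthonormal ℂ f) (x : O2 S₁ S₂) :
    ‖ph S₁ S₂ hf x‖ ≤ ‖x‖ := by
  rw [ph_apply]
  have h1 := ContinuousLinearMap.opNorm_comp_le (ContinuousLinearMap.adjoint (V hf))
    ((x : H →L[ℂ] H) ∘L V hf)
  have h2 := ContinuousLinearMap.opNorm_comp_le (x : H →L[ℂ] H) (V hf)
  have h3 : ‖ContinuousLinearMap.adjoint (V hf)‖ ≤ 1 := by
    rw [LinearIsometryEquiv.norm_map]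
    exact V_norm hf
  have h4 := V_norm hf
  have h5 : ‖(x : H →L[ℂ] H)‖ = ‖x‖ := rfl
  rw [h5] at h2
  have h6 : (0 : ℝ) ≤ ‖x‖ := norm_nonneg _
  have h7 : ‖x‖ * ‖V hf‖ ≤ ‖x‖ := by nlinarith
  have h8 : (0 : ℝ) ≤ ‖(x : H →L[ℂ] H) ∘L V hf‖ := norm_nonneg _
  nlinarith [norm_nonneg (ContinuousLinearMap.adjoint (V hf))]

theorem ph_ent (S₁ S₂ : H →L[ℂ] H) {f : ι → H} (hf : Orthonormal ℂ f) (x : O2 S₁ S₂) (j k : ι) :
    ent (ph S₁ S₂ hf x) j k = ⟪f j, (x : H →L[ℂ] H) (f k)⟫_ℂ := by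
  have h1 : ent (ph S₁ S₂ hf x) j k =
      ⟪EuclideanSpace.single j (1 : ℂ), ph S₁ S₂ hf x (EuclideanSpace.single k 1)⟫_ℂ := by
    rw [EuclideanSpace.inner_single_left, map_one, one_mul]
    rfl
  rw [h1, ph_apply, ContinuousLinearMap.comp_apply, ContinuousLinearMap.comp_apply,
    ContinuousLinearMap.adjoint_inner_right, V_single, V_single]

/-- the map back -/
def ps (S₁ S₂ : H →L[ℂ] H) (r : ℝ) (g : ι → ℕ) : Mat ι →ₗ[ℂ] O2 S₁ S₂ where
  toFun M := ((r * r : ℝ) : ℂ) • ∑ j, ∑ k, ent M j k • (sw S₁ S₂ (g j) * star (sw S₁ S₂ (g k)))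
  map_add' M M' := by
    simp only [ent_add, add_smul, Finset.sum_add_distrib, smul_add]
  map_smul' c M := by
    simp only [ent_smul, mul_smul, RingHom.id_apply, ← Finset.smul_sum]
    rw [smul_comm]

theorem ps_apply (S₁ S₂ : H →L[ℂ] H) (r : ℝ) (g : ι → ℕ) (M : Mat ι) :
    ps S₁ S₂ r g M =
      ((r * r : ℝ) : ℂ) • ∑ j, ∑ k, ent M j k • (sw S₁ S₂ (g j) * star (sw S₁ S₂ (g k))) := rfl

theorem ps_cp (S₁ S₂ : H →L[ℂ] H) (r : ℝ) (g : ι → ℕ) : IsCP (ps S₁ S₂ r g) := by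
  intro n a b
  let c : ι → O2 S₁ S₂ := fun m =>
    (r : ℂ) • ∑ q, ∑ k, ent (a q) m k • (star (sw S₁ S₂ (g k)) * b q)
  have h1 : (∑ p, ∑ q, star (b p) * ps S₁ S₂ r g (star (a p) * a q) * b q) =
      ∑ m, star (c m) * c m := by
    have h2 : ∀ m, star (c m) * c m = ∑ p, ∑ q, ∑ j, ∑ k,
        (((r * r : ℝ) : ℂ) * (star (ent (a p) m j) * ent (a q) m k)) •
          (star (b p) * (sw S₁ S₂ (g j) * star (sw S₁ S₂ (g k))) * b q) := by
      intro m
      show star ((r : ℂ) • ∑ p, ∑ j, ent (a p) m j • (star (sw S₁ S₂ (g j)) * b p)) *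
        ((r : ℂ) • ∑ q, ∑ k, ent (a q) m k • (star (sw S₁ S₂ (g k)) * b q)) = _
      rw [star_smul, star_sum, smul_mul_smul_comm, Finset.sum_mul, Finset.smul_sum]
      refine Finset.sum_congr rfl fun p _ => ?_
      rw [Finset.mul_sum, Finset.smul_sum]
      refine Finset.sum_congr rfl fun q _ => ?_
      rw [star_sum, Finset.sum_mul, Finset.smul_sum]
      refine Finset.sum_congr rfl fun j _ => ?_
      rw [Finset.mul_sum, Finset.smul_sum]
      refine Finset.sum_congr rfl fun k _ => ?_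
      rw [star_smul, smul_mul_smul_comm, smul_smul, star_mul, star_star]
      congr 1
      rw [Complex.star_def, Complex.conj_ofReal, Complex.ofReal_mul]
    have h3 : ∀ p q, star (b p) * ps S₁ S₂ r g (star (a p) * a q) * b q =
        ∑ m, ∑ j, ∑ k, (((r * r : ℝ) : ℂ) * (star (ent (a p) m j) * ent (a q) m k)) •
          (star (b p) * (sw S₁ S₂ (g j) * star (sw S₁ S₂ (g k))) * b q) := by
      intro p q
      rw [ps_apply, mul_smul_comm, smul_mul_assoc, Finset.mul_sum, Finset.sum_mul,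
        Finset.smul_sum]
      rw [Finset.sum_comm]
      refine Finset.sum_congr rfl fun j _ => ?_
      rw [Finset.mul_sum, Finset.sum_mul, Finset.smul_sum]
      rw [Finset.sum_comm]
      refine Finset.sum_congr rfl fun k _ => ?_
      rw [mul_smul_comm, smul_mul_assoc, smul_smul, ent_star_mul, Finset.mul_sum,
        Finset.sum_smul]
    simp only [h2, h3]
    symm
    rw [Finset.sum_comm]
    refine Finset.sum_congr rfl fun p _ => ?_
    rw [Finset.sum_comm]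
  rw [h1]
  exact pos_sum _ _

end

/-- the index type -/
abbrev Ix (N : ℕ) : Type := {j // j ∈ Finset.Ico 1 (2 ^ N)}

end Fac

set_option maxHeartbeats 4000000 in
open Fac in
theorem stmtFac (hV : StmtVec) (hL : StmtLvl) : StmtFac := by
  classical
  intro H _ _ _ S₁ S₂ e hM N hN
  obtain ⟨-, -, hL3⟩ := hL H S₁ S₂ e hM
  have hNr : (0 : ℝ) < N := by exact_mod_cast hN
  have hf : Orthonormal ℂ (fun j : Ix N => e j.1) := hM.on.comp _ Subtype.val_injective
  obtain ⟨r, hr⟩ : ∃ r : ℝ, r * r = 1 / N :=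
    ⟨Real.sqrt (1 / N), Real.mul_self_sqrt (by positivity)⟩
  have hrc : ((r * r : ℝ) : ℂ) = (1 : ℂ) / (N : ℂ) := by
    rw [hr]
    push_cast
    rfl
  refine ⟨Ix N, inferInstance, ph S₁ S₂ hf, ps S₁ S₂ r (fun j : Ix N => j.1), ph_cp _ _ _,
    ps_cp _ _ _ _, ph_norm _ _ _, ?_, ?_⟩
  · intro M
    show ‖((ps S₁ S₂ r (fun j : Ix N => j.1) M : O2 S₁ S₂) : H →L[ℂ] H)‖ ≤ ‖M‖
    refine ContinuousLinearMap.opNorm_le_bound _ (norm_nonneg _) fun h => ?_
    obtain ⟨y, hy⟩ : ∃ y, y = ((ps S₁ S₂ r (fun j : Ix N => j.1) M : O2 S₁ S₂) : H →L[ℂ] H) h :=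
      ⟨_, rfl⟩
    have hval : y = ((r * r : ℝ) : ℂ) • ∑ j : Ix N, ∑ k : Ix N, ent M j k •
        (Sw S₁ S₂ j.1 (star (Sw S₁ S₂ k.1) h)) := by
      rw [hy, ps_apply]
      show (((r * r : ℝ) : ℂ) • ((∑ j : Ix N, ∑ k : Ix N, ent M j k •
        (sw S₁ S₂ j.1 * star (sw S₁ S₂ k.1)) : O2 S₁ S₂) : H →L[ℂ] H)) h = _
      rw [ContinuousLinearMap.smul_apply]
      congr 1
      simp only [AddSubmonoidClass.coe_finset_sum, ContinuousLinearMap.sum_apply]
      rfl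
    rw [← hy]
    have hg : ∀ g : H, ‖⟪g, y⟫_ℂ‖ ≤ ‖M‖ * ‖h‖ * ‖g‖ := by
      intro g
      have e1 : ⟪g, y⟫_ℂ = ((r * r : ℝ) : ℂ) * ∑ j : Ix N, ⟪star (Sw S₁ S₂ j.1) g,
          ∑ k : Ix N, ent M j k • star (Sw S₁ S₂ k.1) h⟫_ℂ := by
        rw [hval, inner_smul_right, inner_sum]
        congr 1
        refine Finset.sum_congr rfl fun j _ => ?_
        rw [inner_sum, inner_sum]
        refine Finset.sum_congr rfl fun k _ => ?_
        rw [inner_smul_right, inner_smul_right, ContinuousLinearMap.star_eq_adjoint (Sw S₁ S₂ j.1),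
          ContinuousLinearMap.adjoint_inner_left]
      have e2 : ‖∑ j : Ix N, ⟪star (Sw S₁ S₂ j.1) g,
          ∑ k : Ix N, ent M j k • star (Sw S₁ S₂ k.1) h⟫_ℂ‖ ≤
          Real.sqrt (∑ j : Ix N, ‖star (Sw S₁ S₂ j.1) g‖ ^ 2) *
          Real.sqrt (∑ j : Ix N, ‖∑ k : Ix N, ent M j k • star (Sw S₁ S₂ k.1) h‖ ^ 2) := by
        refine (norm_sum_le _ _).trans ?_
        refine (Finset.sum_le_sum fun j _ => norm_inner_le_norm _ _).trans ?_
        exact Real.sum_mul_le_sqrt_mul_sqrt _ _ _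
      have e3 : ∀ x : H, ∑ j : Ix N, ‖star (Sw S₁ S₂ j.1) x‖ ^ 2 = N * ‖x‖ ^ 2 := by
        intro x
        rw [← hL3 N x]
        exact Finset.sum_coe_sort (Finset.Ico 1 (2 ^ N)) fun j => ‖star (Sw S₁ S₂ j) x‖ ^ 2
      have e4 : ∑ j : Ix N, ‖∑ k : Ix N, ent M j k • star (Sw S₁ S₂ k.1) h‖ ^ 2 ≤
          ‖M‖ ^ 2 * (N * ‖h‖ ^ 2) := by
        refine (hV (Ix N) (Ix N) (fun j k => ent M j k) ‖M‖ (ent_bound M) H
          (fun k => star (Sw S₁ S₂ k.1) h)).trans ?_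
        rw [e3]
      have e5 : Real.sqrt (∑ j : Ix N, ‖star (Sw S₁ S₂ j.1) g‖ ^ 2) = Real.sqrt N * ‖g‖ := by
        rw [e3, Real.sqrt_mul hNr.le, Real.sqrt_sq (norm_nonneg _)]
      have e6 : Real.sqrt (∑ j : Ix N, ‖∑ k : Ix N, ent M j k • star (Sw S₁ S₂ k.1) h‖ ^ 2) ≤
          ‖M‖ * (Real.sqrt N * ‖h‖) := by
        refine (Real.sqrt_le_sqrt e4).trans (le_of_eq ?_)
        rw [Real.sqrt_mul (by positivity), Real.sqrt_sq (norm_nonneg _), Real.sqrt_mul hNr.le,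
          Real.sqrt_sq (norm_nonneg _)]
      rw [e1, norm_mul]
      have e7 : ‖((r * r : ℝ) : ℂ)‖ = 1 / N := by
        rw [hr, Complex.norm_real, Real.norm_of_nonneg (by positivity)]
      rw [e7]
      calc 1 / (N : ℝ) * _ ≤ 1 / (N : ℝ) * ((Real.sqrt N * ‖g‖) * (‖M‖ * (Real.sqrt N * ‖h‖))) := by
            refine mul_le_mul_of_nonneg_left (e2.trans ?_) (by positivity)
            rw [e5]
            exact mul_le_mul_of_nonneg_left e6 (by positivity)
        _ = (Real.sqrt N * Real.sqrt N) / N * (‖M‖ * ‖h‖ * ‖g‖) := by ring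
        _ = _ := by
            rw [Real.mul_self_sqrt hNr.le, div_self hNr.ne', one_mul]
    have h1 := hg y
    have h2 : ‖⟪y, y⟫_ℂ‖ = ‖y‖ * ‖y‖ := by
      rw [inner_self_eq_norm_sq_to_K (𝕜 := ℂ)]
      rw [norm_pow, pow_two]
      simp
    rw [h2] at h1
    by_cases hy0 : ‖y‖ = 0
    · rw [hy0]
      positivity
    · exact le_of_mul_le_mul_right h1 (lt_of_le_of_ne (norm_nonneg _) (Ne.symm hy0))
  · intro x
    rw [ps_apply]
    simp only [ph_ent, hrc]
    show ((1 : ℂ) / (N : ℂ)) • ((∑ j : Ix N, ∑ k : Ix N, ⟪e j.1, (x : H →L[ℂ] H) (e k.1)⟫_ℂ •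
      (sw S₁ S₂ j.1 * star (sw S₁ S₂ k.1)) : O2 S₁ S₂) : H →L[ℂ] H) = _
    congr 1
    unfold TN
    rw [AddSubmonoidClass.coe_finset_sum]
    rw [← Finset.sum_coe_sort (Finset.Ico 1 (2 ^ N))]
    refine Finset.sum_congr rfl fun j _ => ?_
    rw [AddSubmonoidClass.coe_finset_sum, ← Finset.sum_coe_sort (Finset.Ico 1 (2 ^ N))]
    rfl

end

end Pool.Agent.R283.TI
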