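import Pool.Agent.R283.TI.Defs

/-!
# Part FIN for MP_b9f29c_an: the cone algebra is stably finite
-/

set_option autoImplicit false

open Filter Topology

namespace Pool.Agent.R283.TI

namespace FinAux

variable {D : Type} [CStarAlgebra D]

/-- evaluation at a point -/
def ev (t : unitInterval) : Cone D →+* D where
  toFun f := (f : C(unitInterval, D)) t
  map_one' := rfl
  map_mul' _ _ := rfl
  map_zero' := rfl
  map_add' _ _ := rfl

lemma ev_star (t : unitInterval) (f : Cone D) : ev t (star f) = star (ev t f) := rfl

lemma ev_ext {f g : Cone D} (h : ∀ t, ev t f = ev t g) : f = g := by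
  apply Subtype.ext
  ext t
  exact h t

lemma cont_ev (f : Cone D) : Continuous fun t => ev t f := (f : C(unitInterval, D)).continuous

end FinAux

open FinAux

theorem stmtFin : StmtFin := by
  intro D _ n v hv
  set V : unitInterval → Matrix (Fin n) (Fin n) D := fun t => v.map (ev t) with hV
  have hstar : ∀ t, (star v).map (ev t) = star (V t) := by
    intro t
    ext i j
    rfl
  have hVV : ∀ t, star (V t) * V t = 1 := by
    intro t
    have h := congrArg (fun M : Matrix (Fin n) (Fin n) (Cone D) => M.map (ev t)) hv
    simp only [Matrix.map_mul] at h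
    rw [hstar t] at h
    rw [h]
    exact Matrix.map_one _ (map_zero _) (map_one _)
  set P : unitInterval → (Fin n → Fin n → D) := fun t i j => (1 - V t * star (V t)) i j with hP
  have hcontV : ∀ i j, Continuous fun t => V t i j := fun i j => cont_ev (v i j)
  have hcont : Continuous P := by
    refine continuous_pi fun i => continuous_pi fun j => ?_
    have h1 : (fun t => P t i j) = fun t => (1 : Matrix (Fin n) (Fin n) D) i j -
        ∑ k, V t i k * star (V t j k) := by
      funext t
      simp only [hP, Matrix.sub_apply, Matrix.mul_apply, Matrix.star_apply]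
    show Continuous fun t => P t i j
    rw [h1]
    exact continuous_const.sub (continuous_finsetSum _ fun k _ =>
      (hcontV i k).mul (hcontV j k).star)
  have hidem : ∀ t, (1 - V t * star (V t)) * (1 - V t * star (V t)) = 1 - V t * star (V t) := by
    intro t
    have h1 : V t * star (V t) * (V t * star (V t)) = V t * star (V t) := by
      rw [mul_assoc, ← mul_assoc (star (V t)), hVV t, one_mul]
    rw [mul_sub, mul_one, sub_mul, one_mul, h1, sub_self, sub_zero]
  have hnorm : ∀ t, ‖P t‖ ≤ n * ‖P t‖ ^ 2 := by
    intro t
    rw [pi_norm_le_iff_of_nonneg (by positivity)]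
    intro i
    rw [pi_norm_le_iff_of_nonneg (by positivity)]
    intro j
    have h1 : P t i j = ∑ k, P t i k * P t k j := by
      have := congrFun (congrFun (hidem t) i) j
      rw [Matrix.mul_apply] at this
      exact this.symm
    rw [h1]
    calc ‖∑ k, P t i k * P t k j‖ ≤ ∑ k, ‖P t i k * P t k j‖ := norm_sum_le _ _
      _ ≤ ∑ _k : Fin n, ‖P t‖ ^ 2 := by
          refine Finset.sum_le_sum fun k _ => ?_
          refine (norm_mul_le _ _).trans ?_
          rw [pow_two]
          exact mul_le_mul ((norm_le_pi_norm (P t i) k).trans (norm_le_pi_norm (P t) i))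
            ((norm_le_pi_norm (P t k) j).trans (norm_le_pi_norm (P t) k)) (norm_nonneg _)
            (norm_nonneg _)
      _ = n * ‖P t‖ ^ 2 := by rw [Finset.sum_const, Finset.card_univ, Fintype.card_fin, nsmul_eq_mul]
  have hset : {t | P t = 0} = {t | n * ‖P t‖ < 1} := by
    ext t
    constructor
    · intro h
      show n * ‖P t‖ < 1
      rw [show P t = 0 from h, norm_zero, mul_zero]
      exact zero_lt_one
    · intro h
      have h' : n * ‖P t‖ < 1 := h
      by_contra hne
      have h1 : 0 < ‖P t‖ := norm_pos_iff.2 hne
      have h2 := hnorm t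
      nlinarith
  have hclopen : IsClopen {t | P t = 0} := by
    constructor
    · exact isClosed_eq hcont continuous_const
    · rw [hset]
      exact isOpen_lt (continuous_const.mul hcont.norm) continuous_const
  have h0 : P 0 = 0 := by
    rcases subsingleton_or_nontrivial D with hD | hD
    · exact Subsingleton.elim _ _
    · have hc : ∀ i j, ∃ c : ℂ, V 0 i j = algebraMap ℂ D c := fun i j => (v i j).2
      choose c hc using hc
      set M : Matrix (Fin n) (Fin n) ℂ := Matrix.of c with hM
      have hV0 : V 0 = M.map (algebraMap ℂ D) := by
        ext i j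
        exact hc i j
      have hVs : star (V 0) = (star M).map (algebraMap ℂ D) := by
        ext i j
        rw [Matrix.star_apply, hc j i]
        exact (algebraMap_star_comm (c j i)).symm
      have hinj : Function.Injective (algebraMap ℂ D) := (algebraMap ℂ D).injective
      have h1 : star M * M = 1 := by
        have h2 := hVV 0
        rw [hVs, hV0, ← Matrix.map_mul] at h2
        have h3 : (1 : Matrix (Fin n) (Fin n) D) = (1 : Matrix (Fin n) (Fin n) ℂ).map
            (algebraMap ℂ D) := (Matrix.map_one _ (map_zero _) (map_one _)).symm
        rw [h3] at h2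
        exact Matrix.map_injective hinj h2
      have h2 : M * star M = 1 := mul_eq_one_comm.1 h1
      have h3 : V 0 * star (V 0) = 1 := by
        rw [hVs, hV0, ← Matrix.map_mul, h2]
        exact Matrix.map_one _ (map_zero _) (map_one _)
      funext i j
      show (1 - V 0 * star (V 0)) i j = 0
      rw [h3, sub_self]
      rfl
  have huniv : {t | P t = 0} = Set.univ := hclopen.eq_univ ⟨0, h0⟩
  have hall : ∀ t, V t * star (V t) = 1 := by
    intro t
    have ht : P t = 0 := by
      have : t ∈ {t | P t = 0} := huniv ▸ Set.mem_univ t
      exact this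
    have h1 : (1 : Matrix (Fin n) (Fin n) D) - V t * star (V t) = 0 := by
      ext i j
      exact congrFun (congrFun ht i) j
    exact (sub_eq_zero.1 h1).symm
  apply Matrix.ext
  intro i j
  apply ev_ext
  intro t
  have h2 : (v * star v).map (ev t) = 1 := by
    rw [Matrix.map_mul, hstar t]
    exact hall t
  have h3 : ((1 : Matrix (Fin n) (Fin n) (Cone D)).map (ev t)) = 1 :=
    Matrix.map_one _ (map_zero _) (map_one _)
  exact (congrFun (congrFun h2 i) j).trans (congrFun (congrFun h3 i) j).symm

end Pool.Agent.R283.TI

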