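import Mathlib
import Pool.Agent.R283.TI.Defs

/-!
# MP_b9f29c_an, part IRR: irreducible representation whose kernel is a maximal two-sided ideal
-/

set_option autoImplicit false

open Filter Topology
open scoped InnerProductSpace ComplexOrder

namespace Pool.Agent.R283.TI

namespace Irr

variable {E : Type} [CStarAlgebra E]

/-- two-sided ideal -/
def TS (I : Submodule ℂ E) : Prop :=
  (∀ x y, y ∈ I → x * y ∈ I) ∧ (∀ x y, x ∈ I → x * y ∈ I)

theorem exists_max [Nontrivial E] : ∃ J : Submodule ℂ E, TS J ∧ (1 : E) ∉ J ∧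
    ∀ I : Submodule ℂ E, TS I → (1 : E) ∉ I → J ≤ I → I = J := by
  obtain ⟨J, -, hJ⟩ := zorn_le_nonempty₀ {I : Submodule ℂ E | TS I ∧ (1 : E) ∉ I} (by
    intro c hc hch y hy
    have hne : c.Nonempty := ⟨y, hy⟩
    have hdir : DirectedOn (fun x1 x2 => x1 ≤ x2) c := hch.directedOn
    refine ⟨sSup c, ⟨⟨?_, ?_⟩, ?_⟩, fun z hz => le_sSup hz⟩
    · intro x z hz
      rw [Submodule.mem_sSup_of_directed hne hdir] at hz ⊢
      obtain ⟨I, hI, hzI⟩ := hz
      exact ⟨I, hI, (hc hI).1.1 x z hzI⟩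
    · intro x z hz
      rw [Submodule.mem_sSup_of_directed hne hdir] at hz ⊢
      obtain ⟨I, hI, hzI⟩ := hz
      exact ⟨I, hI, (hc hI).1.2 x z hzI⟩
    · intro h1
      rw [Submodule.mem_sSup_of_directed hne hdir] at h1
      obtain ⟨I, hI, h1I⟩ := h1
      exact (hc hI).2 h1I) ⊥ (by
    refine ⟨⟨?_, ?_⟩, ?_⟩
    · intro x y hy
      rw [Submodule.mem_bot] at hy ⊢
      rw [hy, mul_zero]
    · intro x y hx
      rw [Submodule.mem_bot] at hx ⊢
      rw [hx, zero_mul]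
    · rw [Submodule.mem_bot]
      exact one_ne_zero)
  refine ⟨J, hJ.prop.1, hJ.prop.2, fun I hI h1 hJI => ?_⟩
  exact le_antisymm (hJ.le_of_ge ⟨hI, h1⟩ hJI) hJI

/-- the states vanishing on `J`, as functions -/
def St (J : Submodule ℂ E) : Set (E → ℂ) :=
  {ρ | (∀ a b, ρ (a + b) = ρ a + ρ b) ∧ (∀ (c : ℂ) a, ρ (c • a) = c * ρ a) ∧
    (∀ a, ‖ρ a‖ ≤ ‖a‖) ∧ ρ 1 = 1 ∧ ∀ a ∈ J, ρ a = 0}

theorem St_compact (J : Submodule ℂ E) : IsCompact (St J) := by
  have hK : IsCompact (Set.pi Set.univ (fun a : E => Metric.closedBall (0 : ℂ) ‖a‖)) :=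
    isCompact_univ_pi (fun a => isCompact_closedBall 0 ‖a‖)
  refine hK.of_isClosed_subset ?_ ?_
  · have ev : ∀ a : E, Continuous (fun ρ : E → ℂ => ρ a) := fun a => continuous_apply a
    refine IsClosed.inter ?_ (IsClosed.inter ?_ (IsClosed.inter ?_ (IsClosed.inter ?_ ?_)))
    · have : {ρ : E → ℂ | ∀ a b, ρ (a + b) = ρ a + ρ b}
          = ⋂ a, ⋂ b, {ρ : E → ℂ | ρ (a + b) = ρ a + ρ b} := by
        ext ρ; simp
      change IsClosed {ρ : E → ℂ | ∀ a b, ρ (a + b) = ρ a + ρ b}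
      rw [this]
      exact isClosed_iInter fun a => isClosed_iInter fun b =>
        isClosed_eq (ev _) ((ev a).add (ev b))
    · have : {ρ : E → ℂ | ∀ (c : ℂ) a, ρ (c • a) = c * ρ a}
          = ⋂ c : ℂ, ⋂ a, {ρ : E → ℂ | ρ (c • a) = c * ρ a} := by
        ext ρ; simp
      change IsClosed {ρ : E → ℂ | ∀ (c : ℂ) a, ρ (c • a) = c * ρ a}
      rw [this]
      exact isClosed_iInter fun c => isClosed_iInter fun a =>
        isClosed_eq (ev _) (continuous_const.mul (ev a))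
    · have : {ρ : E → ℂ | ∀ a, ‖ρ a‖ ≤ ‖a‖} = ⋂ a, {ρ : E → ℂ | ‖ρ a‖ ≤ ‖a‖} := by
        ext ρ; simp
      change IsClosed {ρ : E → ℂ | ∀ a, ‖ρ a‖ ≤ ‖a‖}
      rw [this]
      exact isClosed_iInter fun a => isClosed_le (ev a).norm continuous_const
    · exact isClosed_eq (ev 1) continuous_const
    · have : {ρ : E → ℂ | ∀ a ∈ J, ρ a = 0} = ⋂ a, ⋂ _ : a ∈ J, {ρ : E → ℂ | ρ a = 0} := by
        ext ρ; simp
      change IsClosed {ρ : E → ℂ | ∀ a ∈ J, ρ a = 0}
      rw [this]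
      exact isClosed_iInter fun a => isClosed_iInter fun _ => isClosed_eq (ev a) continuous_const
  · rintro ρ ⟨_, _, h, _⟩ a _
    simpa using h a

theorem St_nonempty [Nontrivial E] (J : Submodule ℂ E) (hJ : TS J) (h1 : (1 : E) ∉ J) :
    (St J).Nonempty := by
  have hj : ∀ j ∈ J, 1 ≤ ‖(1 : E) - j‖ := by
    intro j hj
    by_contra hlt
    push Not at hlt
    have hu := isUnit_one_sub_of_norm_lt_one hlt
    rw [sub_sub_cancel] at hu
    obtain ⟨u, hu⟩ := hu
    apply h1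
    have := hJ.1 (↑u⁻¹ : E) j hj
    rwa [← hu, Units.inv_mul] at this
  have hn1 : ‖(Submodule.Quotient.mk 1 : E ⧸ J)‖ = 1 := by
    apply le_antisymm
    · have := Submodule.Quotient.norm_mk_le J (1 : E)
      rwa [CStarRing.norm_one] at this
    · by_contra hlt
      push Not at hlt
      obtain ⟨m, hm, hm2⟩ := Submodule.Quotient.norm_mk_lt
        (Submodule.Quotient.mk 1 : E ⧸ J) (ε := 1 - ‖(Submodule.Quotient.mk 1 : E ⧸ J)‖)
        (by linarith)
      rw [add_sub_cancel] at hm2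
      have hmem : 1 - m ∈ J := by
        rw [← Submodule.Quotient.eq, hm]
      have := hj _ hmem
      rw [sub_sub_cancel] at this
      linarith
  obtain ⟨g, hg, hg1⟩ := exists_dual_vector ℂ (Submodule.Quotient.mk 1 : E ⧸ J)
    (by rw [hn1]; norm_num)
  rw [hn1] at hg1
  refine ⟨fun a => g (Submodule.Quotient.mk a), ?_, ?_, ?_, ?_, ?_⟩
  · intro a b
    beta_reduce
    rw [Submodule.Quotient.mk_add, map_add]
  · intro c a
    beta_reduce
    rw [Submodule.Quotient.mk_smul, map_smul, smul_eq_mul]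
  · intro a
    calc ‖g (Submodule.Quotient.mk a)‖ ≤ ‖g‖ * ‖(Submodule.Quotient.mk a : E ⧸ J)‖ :=
          g.le_opNorm _
      _ ≤ 1 * ‖a‖ := by
          rw [hg]
          gcongr
          exact Submodule.Quotient.norm_mk_le J a
      _ = ‖a‖ := one_mul _
  · simpa using hg1
  · intro a ha
    have : (Submodule.Quotient.mk a : E ⧸ J) = 0 := (Submodule.Quotient.mk_eq_zero J).2 ha
    simp [this]

theorem exists_extreme [Nontrivial E] (J : Submodule ℂ E) (hJ : TS J) (h1 : (1 : E) ∉ J) :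
    ((St J).extremePoints ℝ).Nonempty :=
  (St_compact J).extremePoints_nonempty (St_nonempty J hJ h1)

/-- states are real on selfadjoint elements -/
theorem real_of_sa {ρ : E → ℂ} (hadd : ∀ a b, ρ (a + b) = ρ a + ρ b)
    (hsm : ∀ (c : ℂ) a, ρ (c • a) = c * ρ a) (hn : ∀ a, ‖ρ a‖ ≤ ‖a‖) (hone : ρ 1 = 1)
    {a : E} (ha : IsSelfAdjoint a) : (ρ a).im = 0 := by
  have key : ∀ t : ℝ, ((ρ a).im + t) ^ 2 ≤ ‖a‖ ^ 2 + t ^ 2 := by
    intro t
    have e1 : ρ (a + ((t : ℂ) * Complex.I) • (1 : E)) = ρ a + (t : ℂ) * Complex.I := by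
      rw [hadd, hsm, hone, mul_one]
    have h2 := hn (a + ((t : ℂ) * Complex.I) • (1 : E))
    rw [e1] at h2
    have h3 : ‖a + ((t : ℂ) * Complex.I) • (1 : E)‖ ^ 2 ≤ ‖a‖ ^ 2 + t ^ 2 := by
      rw [sq, ← CStarRing.norm_star_mul_self]
      have e2 : star (a + ((t : ℂ) * Complex.I) • (1 : E)) * (a + ((t : ℂ) * Complex.I) • (1 : E))
          = star a * a + ((t ^ 2 : ℝ) : ℂ) • (1 : E) := by
        rw [star_add, star_smul, star_one, ha.star_eq]
        have : star ((t : ℂ) * Complex.I) = -((t : ℂ) * Complex.I) := by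
          simp
        rw [this]
        have e5 : (a + (-((t : ℂ) * Complex.I)) • (1 : E)) * (a + ((t : ℂ) * Complex.I) • (1 : E))
            = a * a + (-((t : ℂ) * Complex.I * ((t : ℂ) * Complex.I))) • (1 : E) := by
          rw [neg_smul, neg_smul]
          simp only [add_mul, mul_add, neg_mul, smul_mul_assoc, one_mul, mul_smul_comm,
            mul_one, smul_add, smul_neg, smul_smul]
          abel
        rw [e5]
        have e4 : -((t : ℂ) * Complex.I * ((t : ℂ) * Complex.I)) = ((t ^ 2 : ℝ) : ℂ) := by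
          push_cast
          have := Complex.I_mul_I
          linear_combination (-(t : ℂ) ^ 2) * this
        rw [← e4]
      rw [e2]
      calc ‖star a * a + ((t ^ 2 : ℝ) : ℂ) • (1 : E)‖
          ≤ ‖star a * a‖ + ‖((t ^ 2 : ℝ) : ℂ) • (1 : E)‖ := norm_add_le _ _
        _ ≤ ‖a‖ ^ 2 + t ^ 2 := by
          rw [CStarRing.norm_star_mul_self, norm_smul, Complex.norm_real, Real.norm_eq_abs,
            abs_of_nonneg (sq_nonneg t)]
          rcases subsingleton_or_nontrivial E with hE | hE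
          · have : ‖(1 : E)‖ = 0 := by
              rw [Subsingleton.elim (1 : E) 0, norm_zero]
            rw [this]
            nlinarith [sq_nonneg t]
          · rw [CStarRing.norm_one]
            nlinarith
    have h4 : ((ρ a).im + t) ^ 2 ≤ ‖ρ a + (t : ℂ) * Complex.I‖ ^ 2 := by
      rw [Complex.sq_norm, Complex.normSq_apply]
      simp
      nlinarith [sq_nonneg (ρ a).re]
    calc ((ρ a).im + t) ^ 2 ≤ ‖ρ a + (t : ℂ) * Complex.I‖ ^ 2 := h4
      _ ≤ ‖a + ((t : ℂ) * Complex.I) • (1 : E)‖ ^ 2 := by gcongr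
      _ ≤ ‖a‖ ^ 2 + t ^ 2 := h3
  by_contra hne
  set y := (ρ a).im with hy
  -- take `t = (‖a‖^2 + 1) / (2 y)`
  have h := key ((‖a‖ ^ 2 + 1) / (2 * y))
  have e : 2 * y * ((‖a‖ ^ 2 + 1) / (2 * y)) = ‖a‖ ^ 2 + 1 := by
    field_simp
  nlinarith [sq_nonneg y]

section order

attribute [local instance] CStarAlgebra.spectralOrder CStarAlgebra.spectralOrderedRing

theorem nonneg_of_state {ρ : E → ℂ} (hadd : ∀ a b, ρ (a + b) = ρ a + ρ b)
    (hsm : ∀ (c : ℂ) a, ρ (c • a) = c * ρ a) (hn : ∀ a, ‖ρ a‖ ≤ ‖a‖) (hone : ρ 1 = 1)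
    {a : E} (ha : 0 ≤ a) : 0 ≤ ρ a := by
  have hsa : IsSelfAdjoint a := .of_nonneg ha
  have him := real_of_sa hadd hsm hn hone hsa
  rw [Complex.nonneg_iff]
  refine ⟨?_, him.symm⟩
  have h1 : a ≤ algebraMap ℝ E ‖a‖ := hsa.le_algebraMap_norm_self
  have h2 : 0 ≤ algebraMap ℝ E ‖a‖ - a := sub_nonneg.2 h1
  have h3 : algebraMap ℝ E ‖a‖ - a ≤ algebraMap ℝ E ‖a‖ := sub_le_self _ ha
  have h4 : ‖algebraMap ℝ E ‖a‖ - a‖ ≤ ‖a‖ := by
    refine (CStarAlgebra.norm_le_norm_of_nonneg_of_le h2 h3).trans ?_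
    rw [Algebra.algebraMap_eq_smul_one, norm_smul, norm_norm]
    rcases subsingleton_or_nontrivial E with hE | hE
    · have : ‖(1 : E)‖ = 0 := by
        rw [Subsingleton.elim (1 : E) 0, norm_zero]
      rw [this, mul_zero]
      exact norm_nonneg _
    · rw [CStarRing.norm_one, mul_one]
  have h5 : ρ (algebraMap ℝ E ‖a‖ - a) = (‖a‖ : ℂ) - ρ a := by
    have e1 : algebraMap ℝ E ‖a‖ - a = ((‖a‖ : ℂ)) • (1 : E) + (-1 : ℂ) • a := by
      rw [Algebra.algebraMap_eq_smul_one, neg_one_smul, sub_eq_add_neg, Complex.coe_smul]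
    rw [e1, hadd, hsm, hsm, hone]
    ring
  have h6 := hn (algebraMap ℝ E ‖a‖ - a)
  rw [h5] at h6
  have h7 := (Complex.abs_re_le_norm ((‖a‖ : ℂ) - ρ a)).trans (h6.trans h4)
  rw [abs_le] at h7
  simp at h7
  linarith [h7.2]

/-- a state as a positive linear map -/
noncomputable def toPos (ρ : E → ℂ) (hadd : ∀ a b, ρ (a + b) = ρ a + ρ b)
    (hsm : ∀ (c : ℂ) a, ρ (c • a) = c * ρ a) (hn : ∀ a, ‖ρ a‖ ≤ ‖a‖) (hone : ρ 1 = 1) :
    E →ₚ[ℂ] ℂ :=
  PositiveLinearMap.mk₀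
    { toFun := ρ
      map_add' := hadd
      map_smul' := hsm } (fun _ hx => nonneg_of_state hadd hsm hn hone hx)

end order

end Irr

attribute [local instance] CStarAlgebra.spectralOrder CStarAlgebra.spectralOrderedRing

open Irr in
theorem stmtIrr : StmtIrr := by
  intro E _ _
  obtain ⟨J, hJ, h1J, hmax⟩ := exists_max (E := E)
  obtain ⟨ρ, hρ⟩ := exists_extreme J hJ h1J
  rw [mem_extremePoints_iff_left] at hρ
  obtain ⟨⟨hadd, hsm, hn, hone, hvan⟩, hext⟩ := hρ
  set f : E →ₚ[ℂ] ℂ := toPos ρ hadd hsm hn hone with hf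
  have hfρ : ∀ a, f a = ρ a := fun a => rfl
  set π : E →⋆ₐ[ℂ] (f.GNS →L[ℂ] f.GNS) := f.gnsStarAlgHom with hπ
  set ξ : f.GNS := ((f.toPreGNS 1 : f.PreGNS) : f.GNS) with hξ
  have hπξ : ∀ a, π a ξ = ((f.toPreGNS a : f.PreGNS) : f.GNS) := by
    intro a
    have h0 : π a ξ = ((f.leftMulMapPreGNS a (f.toPreGNS 1) : f.PreGNS) : f.GNS) :=
      PositiveLinearMap.gnsNonUnitalStarAlgHom_apply_coe f
    rw [h0]
    simp
  have hinn : ∀ a b : E, ⟪((f.toPreGNS a : f.PreGNS) : f.GNS), ((f.toPreGNS b : f.PreGNS) : f.GNS)⟫_ℂ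
      = ρ (star a * b) := by
    intro a b
    rw [UniformSpace.Completion.inner_coe, PositiveLinearMap.preGNS_inner_def]
    rfl
  have hρπ : ∀ a, ⟪ξ, π a ξ⟫_ℂ = ρ a := by
    intro a
    rw [hπξ, hξ, hinn]
    simp
  have hdense : ∀ W : Submodule ℂ f.GNS, IsClosed (W : Set f.GNS) → (∀ a, π a ξ ∈ W) → W = ⊤ := by
    intro W hW h
    rw [eq_top_iff]
    rintro x -
    have : (x : f.GNS) ∈ closure (W : Set f.GNS) := by
      refine closure_mono ?_ (UniformSpace.Completion.denseRange_coe x)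
      rintro _ ⟨b, rfl⟩
      have := h (f.ofPreGNS b)
      rw [hπξ] at this
      simpa using this
    rwa [hW.closure_eq] at this
  have hξn : ⟪ξ, ξ⟫_ℂ = 1 := by
    have := hρπ 1
    rw [map_one] at this
    rw [← hone, ← this]
    rfl
  have hξ0 : ξ ≠ 0 := by
    intro h
    rw [h, inner_zero_left] at hξn
    exact zero_ne_one hξn
  -- `J` is in the kernel
  have hJker : ∀ j ∈ J, π j = 0 := by
    intro j hj
    ext x
    induction x using UniformSpace.Completion.induction_on with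
    | hp => exact isClosed_eq (π j).continuous continuous_const
    | ih b =>
      have h0 : π j (b : f.GNS) = ((f.toPreGNS (j * f.ofPreGNS b) : f.PreGNS) : f.GNS) :=
        PositiveLinearMap.gnsNonUnitalStarAlgHom_apply_coe f
      rw [h0]
      have h2 : ⟪((f.toPreGNS (j * f.ofPreGNS b) : f.PreGNS) : f.GNS),
          ((f.toPreGNS (j * f.ofPreGNS b) : f.PreGNS) : f.GNS)⟫_ℂ = 0 := by
        rw [hinn]
        apply hvan
        apply hJ.1
        exact hJ.2 _ _ hj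
      rw [inner_self_eq_zero] at h2
      simpa using h2
  refine ⟨f.GNS, inferInstance, inferInstance, inferInstance, π, ⟨⟨ξ, 0, hξ0⟩⟩, ?_, ?_⟩
  · -- irreducibility
    intro W hW hinv
    have hWc : CompleteSpace W := hW.completeSpace_coe
    set p : f.GNS := W.starProjection ξ with hp
    have hpW : p ∈ W := W.starProjection_apply_mem ξ
    set q : f.GNS := ξ - p with hq
    have hqW : q ∈ Wᗮ := W.sub_starProjection_mem_orthogonal ξ
    have hadj : ∀ (a : E) (x y : f.GNS), ⟪x, π a y⟫_ℂ = ⟪π (star a) x, y⟫_ℂ := by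
      intro a x y
      rw [map_star, ContinuousLinearMap.star_eq_adjoint, ContinuousLinearMap.adjoint_inner_left]
    have hinv' : ∀ (a : E), ∀ w ∈ Wᗮ, π a w ∈ Wᗮ := by
      intro a w hw
      rw [Submodule.mem_orthogonal] at hw ⊢
      intro u hu
      rw [hadj]
      exact hw _ (hinv _ u hu)
    have hpq : ξ = p + q := by rw [hq]; abel
    have hc1 : ∀ a, ⟪p, π a q⟫_ℂ = 0 := fun a =>
      (Submodule.mem_orthogonal _ _).1 (hinv' a q hqW) p hpW
    have hc2 : ∀ a, ⟪q, π a p⟫_ℂ = 0 := fun a =>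
      (Submodule.mem_orthogonal' _ _).1 hqW _ (hinv a p hpW)
    have hsplit : ∀ a, ρ a = ⟪p, π a p⟫_ℂ + ⟪q, π a q⟫_ℂ := by
      intro a
      rw [← hρπ a, hpq]
      simp only [map_add, inner_add_left, inner_add_right, hc1, hc2]
      ring
    have hnn : ‖p‖ ^ 2 + ‖q‖ ^ 2 = 1 := by
      have := hsplit 1
      rw [hone, map_one] at this
      have e1 : ⟪p, (1 : f.GNS →L[ℂ] f.GNS) p⟫_ℂ = ((‖p‖ ^ 2 : ℝ) : ℂ) := by
        have := inner_self_eq_norm_sq_to_K (𝕜 := ℂ) p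
        simpa using this
      have e2 : ⟪q, (1 : f.GNS →L[ℂ] f.GNS) q⟫_ℂ = ((‖q‖ ^ 2 : ℝ) : ℂ) := by
        have := inner_self_eq_norm_sq_to_K (𝕜 := ℂ) q
        simpa using this
      rw [e1, e2] at this
      exact_mod_cast this.symm
    by_cases hp0 : p = 0
    · left
      have : Wᗮ = ⊤ := by
        apply hdense _ W.isClosed_orthogonal
        intro a
        rw [hpq, hp0, zero_add]
        exact hinv' a q hqW
      rw [Submodule.eq_bot_iff]
      intro w hw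
      have h2 : w ∈ Wᗮ := by rw [this]; trivial
      have := (Submodule.mem_orthogonal _ _).1 h2 w hw
      rwa [inner_self_eq_zero] at this
    by_cases hq0 : q = 0
    · right
      apply hdense W hW
      intro a
      rw [hpq, hq0, add_zero]
      exact hinv a p hpW
    -- the proper convex combination
    exfalso
    have hpp : 0 < ‖p‖ ^ 2 := by positivity
    have hqp : 0 < ‖q‖ ^ 2 := by positivity
    have hmem : ∀ v : f.GNS, 0 < ‖v‖ ^ 2 → (fun a => ⟪v, π a v⟫_ℂ / ((‖v‖ ^ 2 : ℝ) : ℂ)) ∈ St J := by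
      intro v hv
      have hvc : ((‖v‖ ^ 2 : ℝ) : ℂ) ≠ 0 := by exact_mod_cast hv.ne'
      refine ⟨?_, ?_, ?_, ?_, ?_⟩
      · intro a b
        beta_reduce
        rw [map_add, add_apply, inner_add_right, add_div]
      · intro c a
        beta_reduce
        rw [map_smul, smul_apply, inner_smul_right, mul_div_assoc]
      · intro a
        beta_reduce
        rw [norm_div, Complex.norm_real, Real.norm_eq_abs, abs_of_pos hv, div_le_iff₀ hv]
        calc ‖⟪v, π a v⟫_ℂ‖ ≤ ‖v‖ * ‖π a v‖ := norm_inner_le_norm _ _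
          _ ≤ ‖v‖ * (‖π a‖ * ‖v‖) := by gcongr; exact (π a).le_opNorm v
          _ ≤ ‖v‖ * (‖a‖ * ‖v‖) := by
            gcongr
            exact NonUnitalStarAlgHom.norm_apply_le π a
          _ = ‖a‖ * ‖v‖ ^ 2 := by ring
      · have := inner_self_eq_norm_sq_to_K (𝕜 := ℂ) v
        beta_reduce
        rw [map_one]
        have e : ⟪v, (1 : f.GNS →L[ℂ] f.GNS) v⟫_ℂ = ((‖v‖ ^ 2 : ℝ) : ℂ) := by simpa using this
        rw [e, div_self hvc]
      · intro a ha
        beta_reduce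
        rw [hJker a ha]
        simp
    have hex := hext _ (hmem p hpp) _ (hmem q hqp) (by
      refine ⟨‖p‖ ^ 2, ‖q‖ ^ 2, hpp, hqp, hnn, ?_⟩
      funext a
      have h1 : ((‖p‖ ^ 2 : ℝ) : ℂ) ≠ 0 := by exact_mod_cast hpp.ne'
      have h2 : ((‖q‖ ^ 2 : ℝ) : ℂ) ≠ 0 := by exact_mod_cast hqp.ne'
      simp only [Pi.add_apply, Pi.smul_apply, Complex.real_smul]
      rw [hsplit a, mul_div_cancel₀ _ h1, mul_div_cancel₀ _ h2])
    have hpa : ∀ a, ⟪p, π a p⟫_ℂ = ((‖p‖ ^ 2 : ℝ) : ℂ) * ρ a := by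
      intro a
      have := congrFun hex a
      beta_reduce at this
      rw [div_eq_iff (by exact_mod_cast hpp.ne')] at this
      rw [this, mul_comm]
    have horth : ∀ a, ⟪p - ((‖p‖ ^ 2 : ℝ) : ℂ) • ξ, π a ξ⟫_ℂ = 0 := by
      intro a
      have e1 : ⟪p, π a ξ⟫_ℂ = ⟪p, π a p⟫_ℂ := by
        rw [hpq, map_add, inner_add_right, hc1, add_zero]
      rw [inner_sub_left, inner_smul_left, hρπ, e1, hpa, Complex.conj_ofReal, sub_self]
    have hz : p - ((‖p‖ ^ 2 : ℝ) : ℂ) • ξ = 0 := by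
      set z := p - ((‖p‖ ^ 2 : ℝ) : ℂ) • ξ with hz
      have : (ℂ ∙ z)ᗮ = ⊤ := by
        apply hdense _ (Submodule.isClosed_orthogonal _)
        intro a
        rw [Submodule.mem_orthogonal_singleton_iff_inner_right]
        exact horth a
      have h2 : z ∈ (ℂ ∙ z)ᗮ := by rw [this]; trivial
      rw [Submodule.mem_orthogonal_singleton_iff_inner_right, inner_self_eq_zero] at h2
      exact h2
    have hξW : ξ ∈ W := by
      have h1 : ((‖p‖ ^ 2 : ℝ) : ℂ) ≠ 0 := by exact_mod_cast hpp.ne'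
      have h2 : ξ = (((‖p‖ ^ 2 : ℝ) : ℂ))⁻¹ • p := by
        rw [sub_eq_zero.1 hz, smul_smul]
        rw [← sub_eq_zero.1 hz]
        rw [inv_mul_cancel₀ h1, one_smul]
      rw [h2]
      exact W.smul_mem _ hpW
    apply hq0
    rw [hq, hp, Submodule.starProjection_eq_self_iff.2 hξW, sub_self]
  · -- maximality
    intro I hI1 hI2 hker ⟨x, hxI, hx⟩
    by_contra h1
    have hJI : J ≤ I := fun j hj => hker j (hJker j hj)
    have := hmax I ⟨hI1, hI2⟩ h1 hJI
    rw [this] at hxI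
    exact hx (hJker x hxI)

end Pool.Agent.R283.TI
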