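import Pool.Agent.R283.TI.Stm

/-!
# Part LVL: the ranges of the word isometries of a level add up to the identity
-/

set_option autoImplicit false

open Filter Topology
open scoped InnerProductSpace

namespace Pool.Agent.R283.TI

noncomputable section

/-- reindexing of a dyadic level -/
theorem sum_level_succ {M : Type} [AddCommMonoid M] (f : ℕ → M) (l : ℕ) :
    ∑ j ∈ Finset.Ico (2 ^ (l + 1)) (2 ^ (l + 2)), f j =
      ∑ j ∈ Finset.Ico (2 ^ l) (2 ^ (l + 1)), (f (2 * j) + f (2 * j + 1)) := by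
  have key : ∀ a b : ℕ, a ≤ b → ∑ j ∈ Finset.Ico (2 * a) (2 * b), f j =
      ∑ j ∈ Finset.Ico a b, (f (2 * j) + f (2 * j + 1)) := by
    intro a b hab
    induction b, hab using Nat.le_induction with
    | base => simp
    | succ b hb ih =>
      rw [Finset.sum_Ico_succ_top hb, ← ih]
      have h1 : 2 * (b + 1) = (2 * b + 1) + 1 := by ring
      rw [h1, Finset.sum_Ico_succ_top (by omega), Finset.sum_Ico_succ_top (by omega), add_assoc]
  have := key (2 ^ l) (2 ^ (l + 1)) (Nat.pow_le_pow_right (by norm_num) (by omega))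
  have h1 : 2 * 2 ^ l = 2 ^ (l + 1) := by ring
  have h2 : 2 * 2 ^ (l + 1) = 2 ^ (l + 2) := by ring
  rw [h1, h2] at this
  exact this

theorem stmtLvl : StmtLvl := by
  intro H _ _ _ S₁ S₂ e hM
  have h1 : ∀ l : ℕ, ∑ j ∈ Finset.Ico (2 ^ l) (2 ^ (l + 1)),
      Sw S₁ S₂ j * star (Sw S₁ S₂ j) = 1 := by
    intro l
    induction l with
    | zero => simp [Sw_one]
    | succ l ih =>
      rw [sum_level_succ]
      have h2 : ∀ j ∈ Finset.Ico (2 ^ l) (2 ^ (l + 1)),
          Sw S₁ S₂ (2 * j) * star (Sw S₁ S₂ (2 * j)) +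
            Sw S₁ S₂ (2 * j + 1) * star (Sw S₁ S₂ (2 * j + 1)) =
          S₁ * (Sw S₁ S₂ j * star (Sw S₁ S₂ j)) * star S₁ +
            S₂ * (Sw S₁ S₂ j * star (Sw S₁ S₂ j)) * star S₂ := by
        intro j hj
        have hj1 : 1 ≤ j := le_trans Nat.one_le_two_pow (Finset.mem_Ico.1 hj).1
        rw [Sw_even S₁ S₂ hj1, Sw_odd S₁ S₂ hj1, star_mul, star_mul]
        simp only [mul_assoc]
      rw [Finset.sum_congr rfl h2, Finset.sum_add_distrib, ← Finset.sum_mul, ← Finset.mul_sum,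
        ← Finset.sum_mul, ← Finset.mul_sum, ih, mul_one, mul_one, hM.sum]
  have h2 : ∀ N : ℕ, ∑ j ∈ Finset.Ico 1 (2 ^ N), Sw S₁ S₂ j * star (Sw S₁ S₂ j) =
      (N : ℂ) • (1 : H →L[ℂ] H) := by
    intro N
    induction N with
    | zero => simp
    | succ N ih =>
      rw [← Finset.sum_Ico_consecutive _ (Nat.one_le_two_pow (n := N))
        (Nat.pow_le_pow_right (by norm_num) (Nat.le_succ N)), ih, h1 N]
      push_cast
      rw [add_smul, one_smul]
  refine ⟨h1, h2, ?_⟩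
  intro N h
  have h3 : ∀ j, ((‖star (Sw S₁ S₂ j) h‖ ^ 2 : ℝ) : ℂ) =
      ⟪h, (Sw S₁ S₂ j * star (Sw S₁ S₂ j)) h⟫_ℂ := by
    intro j
    rw [ContinuousLinearMap.mul_apply]
    conv_rhs => rw [← ContinuousLinearMap.adjoint_inner_left, ← ContinuousLinearMap.star_eq_adjoint]
    rw [inner_self_eq_norm_sq_to_K]
    push_cast
    rfl
  have h4 : ((∑ j ∈ Finset.Ico 1 (2 ^ N), ‖star (Sw S₁ S₂ j) h‖ ^ 2 : ℝ) : ℂ) =
      ((N * ‖h‖ ^ 2 : ℝ) : ℂ) := by
    rw [Complex.ofReal_sum, Finset.sum_congr rfl (fun j _ => h3 j), ← inner_sum,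
      ← ContinuousLinearMap.sum_apply, h2 N, ContinuousLinearMap.smul_apply,
      ContinuousLinearMap.one_apply, inner_smul_right, inner_self_eq_norm_sq_to_K]
    push_cast
    rfl
  exact_mod_cast h4

end

end Pool.Agent.R283.TI
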