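import Pool.Agent.R283.TI.Defs

/-!
# Part MODEL: two isometries on `ℓ²(ℕ)`
-/

set_option autoImplicit false

open Filter Topology
open scoped InnerProductSpace

namespace Pool.Agent.R283.TI

noncomputable section

namespace ModelAux

section

variable {H : Type} [NormedAddCommGroup H] [InnerProductSpace ℂ H] [CompleteSpace H]
  (b : HilbertBasis ℕ ℂ H)

theorem vec_ext {u v : H} (h : ∀ n, ⟪b n, u⟫_ℂ = ⟪b n, v⟫_ℂ) : u = v := by
  apply b.repr.injective
  ext n
  rw [b.repr_apply_apply, b.repr_apply_apply, h n]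

theorem op_ext {S T : H →L[ℂ] H} (h : ∀ n, S (b n) = T (b n)) : S = T := by
  have hd : Dense ((Submodule.span ℂ (Set.range b) : Submodule ℂ H) : Set H) := by
    exact Submodule.dense_iff_topologicalClosure_eq_top.mpr b.dense_span
  refine ContinuousLinearMap.ext_on hd ?_
  rintro _ ⟨n, rfl⟩
  exact h n

theorem exists_iso (s : ℕ → ℕ) (hs : Function.Injective s) :
    ∃ S : H →L[ℂ] H, star S * S = 1 ∧ (∀ n, S (b n) = b (s n)) ∧
      (∀ n, star S (b (s n)) = b n) ∧ (∀ m, (∀ n, s n ≠ m) → star S (b m) = 0) := by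
  have hon : Orthonormal ℂ (fun n => b (s n)) := b.orthonormal.comp s hs
  let L : lp (fun _ : ℕ => ℂ) 2 →ₗᵢ[ℂ] H := hon.orthogonalFamily.linearIsometry
  let S : H →L[ℂ] H := (L.comp b.repr.toLinearIsometry).toContinuousLinearMap
  have hSb : ∀ n, S (b n) = b (s n) := by
    intro n
    show L (b.repr (b n)) = b (s n)
    rw [b.repr_self]
    show hon.orthogonalFamily.linearIsometry _ = _
    rw [hon.orthogonalFamily.linearIsometry_apply_single]
    simp
  have hin : ∀ x y, ⟪S x, S y⟫_ℂ = ⟪x, y⟫_ℂ := by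
    intro x y
    exact (L.comp b.repr.toLinearIsometry).inner_map_map x y
  have hiso : star S * S = 1 := by
    ext x
    refine ext_inner_left ℂ fun y => ?_
    rw [ContinuousLinearMap.mul_apply, ContinuousLinearMap.star_eq_adjoint,
      ContinuousLinearMap.adjoint_inner_right, hin]
    rfl
  refine ⟨S, hiso, hSb, ?_, ?_⟩
  · intro n
    rw [← hSb n]
    have := congrArg (fun T : H →L[ℂ] H => T (b n)) hiso
    simpa using this
  · intro m hm
    refine vec_ext b fun n => ?_
    rw [ContinuousLinearMap.star_eq_adjoint, ContinuousLinearMap.adjoint_inner_right, hSb,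
      inner_zero_right]
    exact b.orthonormal.2 (hm n)

end

end ModelAux

open ModelAux in
theorem stmtModel : StmtModel := by
  let H := lp (fun _ : ℕ => ℂ) 2
  let b : HilbertBasis ℕ ℂ H := default
  obtain ⟨S₁, hi₁, hb₁, hc₁, hd₁⟩ := exists_iso b (fun n => 2 * n) (fun a c h => by
    simpa using h)
  obtain ⟨S₂, hi₂, hb₂, hc₂, hd₂⟩ := exists_iso b (fun n => 2 * n + 1) (fun a c h => by
    simpa using h)
  refine ⟨H, inferInstance, inferInstance, inferInstance, S₁, S₂, b, ?_⟩
  refine ⟨hi₁, hi₂, ?_, ?_, b.orthonormal, fun j _ => hb₁ j, fun j _ => hb₂ j⟩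
  · refine op_ext b fun n => ?_
    rw [ContinuousLinearMap.mul_apply, hb₂, hd₁ _ (fun k => by omega)]
    rfl
  · refine op_ext b fun n => ?_
    rw [ContinuousLinearMap.add_apply, ContinuousLinearMap.mul_apply,
      ContinuousLinearMap.mul_apply]
    rcases Nat.even_or_odd' n with ⟨k, hk | hk⟩
    · have h1 : star S₁ (b n) = b k := by rw [hk]; exact hc₁ k
      have h2 : star S₂ (b n) = 0 := hd₂ n (fun j => by omega)
      rw [h1, h2, map_zero, add_zero, hb₁, ← hk]
      rfl
    · have h1 : star S₂ (b n) = b k := by rw [hk]; exact hc₂ k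
      have h2 : star S₁ (b n) = 0 := hd₁ n (fun j => by omega)
      rw [h1, h2, map_zero, zero_add, hb₂, ← hk]
      rfl

end

end Pool.Agent.R283.TI
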