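import Pool.Agent.R283.TI.Defs

/-!
# Part SEP: separability of `Cone D` and of `O2`
-/

set_option autoImplicit false

open Filter Topology
open scoped InnerProductSpace

namespace Pool.Agent.R283.TI

noncomputable section

theorem stmtSep : StmtSep := by
  intro D _ _
  haveI : SecondCountableTopology D := UniformSpace.secondCountable_of_separable D
  haveI : SecondCountableTopology C(unitInterval, D) := inferInstance
  haveI : SecondCountableTopology (Cone D) := TopologicalSpace.Subtype.secondCountableTopology _
  infer_instance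

theorem stmtO2S : StmtO2S := by
  intro H _ _ _ S₁ S₂
  set s : Set (H →L[ℂ] H) := {S₁, S₂} with hs
  have hc : (s ∪ star s).Countable := by
    refine Set.Countable.union ?_ ?_
    · exact (Set.toFinite _).countable
    · have : star s = star '' s := by
        rw [Set.image_star]
      rw [this]
      exact ((Set.toFinite s).image _).countable
  have hm : ((Submonoid.closure (s ∪ star s) : Submonoid (H →L[ℂ] H)) :
      Set (H →L[ℂ] H)).Countable := by
    haveI := hc.to_subtype
    rw [Submonoid.closure_eq_mrange]
    rw [MonoidHom.coe_mrange]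
    haveI : Countable (FreeMonoid (↥(s ∪ star s))) :=
      (inferInstance : Countable (List (↥(s ∪ star s))))
    exact Set.countable_range _
  have h1 : TopologicalSpace.IsSeparable
      ((Submodule.span ℂ ((Submonoid.closure (s ∪ star s) : Submonoid (H →L[ℂ] H)) :
        Set (H →L[ℂ] H)) : Submodule ℂ (H →L[ℂ] H)) : Set (H →L[ℂ] H)) :=
    (hm.isSeparable).span
  have h2 : ((O2 S₁ S₂ : StarSubalgebra ℂ (H →L[ℂ] H)) : Set (H →L[ℂ] H)) =
      closure ((Submodule.span ℂ ((Submonoid.closure (s ∪ star s) : Submonoid (H →L[ℂ] H)) :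
        Set (H →L[ℂ] H)) : Submodule ℂ (H →L[ℂ] H)) : Set (H →L[ℂ] H)) := by
    rw [← StarAlgebra.adjoin_eq_span]
    rfl
  have h3 : TopologicalSpace.IsSeparable
      ((O2 S₁ S₂ : StarSubalgebra ℂ (H →L[ℂ] H)) : Set (H →L[ℂ] H)) := by
    rw [h2]
    exact h1.closure
  exact h3.separableSpace

end

end Pool.Agent.R283.TI
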