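import Pool.Agent.R283.TI.Defs

/-!
# Short forms of the definitions
-/

set_option autoImplicit false

open Filter Topology
open scoped InnerProductSpace

namespace Pool.Agent.R283.TI

noncomputable section

/-- The matrix algebra of operators on the Hilbert space `ℂ^ι`. -/
def Mx (ι : Type) [Fintype ι] : Type := EuclideanSpace ℂ ι →L[ℂ] EuclideanSpace ℂ ι

instance Mx.inst (ι : Type) [Fintype ι] : CStarAlgebra (Mx ι) :=
  instCStarAlgebraContinuousLinearMapComplexIdOfCompleteSpace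

/-- `φ` is a completely positive contraction: `∑ i j, b_i^* φ(a_i^* a_j) b_j` is of the form
`c^* c` for all finite families `a`, `b`, and `‖φ x‖ ≤ ‖x‖`. -/
def CPC {A B : Type} [CStarAlgebra A] [CStarAlgebra B] (φ : A →ₗ[ℂ] B) : Prop :=
  (∀ (k : ℕ) (a : Fin k → A) (b : Fin k → B),
    ∃ c : B, ∑ i, ∑ j, star (b i) * φ (star (a i) * a j) * b j = star c * c) ∧
  ∀ x, ‖φ x‖ ≤ ‖x‖

/-- Nuclearity (completely positive approximation property): the identity is a point-norm limit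
of maps which factor through matrix algebras by completely positive contractions. -/
def IsNuclear (A : Type) [CStarAlgebra A] : Prop :=
  ∀ (F : Finset A) (ε : ℝ), 0 < ε → ∃ (ι : Type) (_ : Fintype ι) (φ : A →ₗ[ℂ] Mx ι)
    (ψ : Mx ι →ₗ[ℂ] A), CPC φ ∧ CPC ψ ∧ ∀ x ∈ F, ‖ψ (φ x) - x‖ < ε

/-- `π` is a *-representation of `B` on the Hilbert space `H`. -/
structure IsRep {B H : Type} [Add B] [Mul B] [Star B] [SMul ℂ B]
    [NormedAddCommGroup H] [InnerProductSpace ℂ H] (π : B → H →L[ℂ] H) : Prop where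
  add : ∀ a b h, π (a + b) h = π a h + π b h
  smul : ∀ (c : ℂ) a h, π (c • a) h = c • π a h
  mul : ∀ a b h, π (a * b) h = π a (π b h)
  star : ∀ a h k, ⟪π (star a) h, k⟫_ℂ = ⟪h, π a k⟫_ℂ

/-- `π` is nonzero and has no nontrivial closed invariant subspace. -/
def IsIrr {B H : Type} [NormedAddCommGroup H] [InnerProductSpace ℂ H]
    (π : B → H →L[ℂ] H) : Prop :=
  (∃ b h, π b h ≠ 0) ∧ ∀ W : Submodule ℂ H, IsClosed (W : Set H) →
    (∀ b, ∀ w ∈ W, π b w ∈ W) → W = ⊥ ∨ W = ⊤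

/-- `B` is type I: the image of every irreducible representation contains the compact
operators. -/
def IsTypeI (B : Type) [Add B] [Mul B] [Star B] [SMul ℂ B] : Prop :=
  ∀ (H : Type) [NormedAddCommGroup H] [InnerProductSpace ℂ H] [CompleteSpace H]
    (π : B → H →L[ℂ] H), IsRep π → IsIrr π →
    ∀ T : H →L[ℂ] H, IsCompactOperator T → ∃ b, π b = T

/-- `A` is locally approximable by type I C*-subalgebras. -/
def IsLocallyTypeI (A : Type) [CStarAlgebra A] : Prop :=
  ∀ (F : Finset A) (ε : ℝ), 0 < ε → ∃ B : NonUnitalStarSubalgebra ℂ A,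
    IsClosed (B : Set A) ∧ IsTypeI B ∧ ∀ x ∈ F, ∃ b ∈ B, ‖x - b‖ < ε

theorem Nuclear.isNuclear {A : Type} [CStarAlgebra A] (h : Nuclear A) : IsNuclear A := by
  intro F ε hε
  obtain ⟨ι, hι, φ, ψ, h1, h2, h3, h4, h5⟩ := h F ε hε
  exact ⟨ι, hι, φ, ψ, ⟨h1, h3⟩, ⟨h2, h4⟩, h5⟩

theorem IsTypeI.typeI {B : Type} [NonUnitalNonAssocSemiring B] [Star B] [DistribMulAction ℂ B]
    (h : IsTypeI B) : TypeI B := by
  intro H _ _ _ π hπ T hT
  refine h H π ⟨fun a b h => ?_, fun c a h => ?_, fun a b h => ?_, fun a h k => ?_⟩ ⟨?_, hπ.2⟩ T hT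
  · rw [map_add]; rfl
  · rw [map_smul]; rfl
  · rw [map_mul]; rfl
  · rw [map_star, ContinuousLinearMap.star_eq_adjoint, ContinuousLinearMap.adjoint_inner_left]
  · obtain ⟨b, hb⟩ := hπ.1
    by_contra hc
    push Not at hc
    exact hb (ContinuousLinearMap.ext fun h => hc b h)

theorem IsLocallyTypeI.locallyTypeI {A : Type} [CStarAlgebra A] (h : IsLocallyTypeI A) :
    LocallyTypeI A := by
  intro F ε hε
  obtain ⟨B, h1, h2, h3⟩ := h F ε hε
  exact ⟨B, h1, h2.typeI, h3⟩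

end

end Pool.Agent.R283.TI
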