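import Pool.Agent.R283.TI.Defs

/-!
# Statements of the parts about the Cuntz algebra
-/

set_option autoImplicit false

open Filter Topology
open scoped InnerProductSpace

namespace Pool.Agent.R283.TI

noncomputable section

/-- Part VEC: vector valued version of an operator bound. -/
def StmtVec : Prop := ∀ (ι κ : Type) [Fintype ι] [Fintype κ] (c : ι → κ → ℂ) (C : ℝ),
  (∀ u : κ → ℂ, ∑ j, ‖∑ k, c j k * u k‖ ^ 2 ≤ C ^ 2 * ∑ k, ‖u k‖ ^ 2) →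
  ∀ (H : Type) [NormedAddCommGroup H] [InnerProductSpace ℂ H] (w : κ → H),
    ∑ j, ‖∑ k, c j k • w k‖ ^ 2 ≤ C ^ 2 * ∑ k, ‖w k‖ ^ 2

section

variable {H : Type} [NormedAddCommGroup H] [InnerProductSpace ℂ H] [CompleteSpace H]

/-- the word isometries `S_1 = 1`, `S_{2j} = S₁ S_j`, `S_{2j+1} = S₂ S_j` -/
def Sw (S₁ S₂ : H →L[ℂ] H) (n : ℕ) : H →L[ℂ] H :=
  if h : n ≤ 1 then 1
  else (if n % 2 = 0 then S₁ else S₂) * Sw S₁ S₂ (n / 2)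
termination_by n
decreasing_by omega

theorem Sw_one (S₁ S₂ : H →L[ℂ] H) : Sw S₁ S₂ 1 = 1 := by
  rw [Sw]; simp

theorem Sw_even (S₁ S₂ : H →L[ℂ] H) {j : ℕ} (hj : 1 ≤ j) :
    Sw S₁ S₂ (2 * j) = S₁ * Sw S₁ S₂ j := by
  rw [Sw, dif_neg (by omega)]
  have h1 : 2 * j % 2 = 0 := by omega
  have h2 : 2 * j / 2 = j := by omega
  rw [if_pos h1, h2]

theorem Sw_odd (S₁ S₂ : H →L[ℂ] H) {j : ℕ} (hj : 1 ≤ j) :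
    Sw S₁ S₂ (2 * j + 1) = S₂ * Sw S₁ S₂ j := by
  rw [Sw, dif_neg (by omega)]
  have h1 : ¬ (2 * j + 1) % 2 = 0 := by omega
  have h2 : (2 * j + 1) / 2 = j := by omega
  rw [if_neg h1, h2]

/-- `T_N(x) = ∑_{1 ≤ j, k < 2^N} ⟨e_j, x e_k⟩ S_j S_k^*` -/
def TN (S₁ S₂ : H →L[ℂ] H) (e : ℕ → H) (N : ℕ) (x : H →L[ℂ] H) : H →L[ℂ] H :=
  ∑ j ∈ Finset.Ico 1 (2 ^ N), ∑ k ∈ Finset.Ico 1 (2 ^ N),
    ⟪e j, x (e k)⟫_ℂ • (Sw S₁ S₂ j * star (Sw S₁ S₂ k))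

end

/-- Part LVL: the ranges of the word isometries of a level add up to the identity -/
def StmtLvl : Prop := ∀ (H : Type) [NormedAddCommGroup H] [InnerProductSpace ℂ H]
  [CompleteSpace H] (S₁ S₂ : H →L[ℂ] H) (e : ℕ → H), Model H S₁ S₂ e →
  (∀ l : ℕ, ∑ j ∈ Finset.Ico (2 ^ l) (2 ^ (l + 1)), Sw S₁ S₂ j * star (Sw S₁ S₂ j) = 1) ∧
  (∀ N : ℕ, ∑ j ∈ Finset.Ico 1 (2 ^ N), Sw S₁ S₂ j * star (Sw S₁ S₂ j) = (N : ℂ) • 1) ∧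
  (∀ (N : ℕ) (h : H), ∑ j ∈ Finset.Ico 1 (2 ^ N), ‖star (Sw S₁ S₂ j) h‖ ^ 2 = N * ‖h‖ ^ 2)

/-- Part CONV: `T_N(x) / N → x` for `x` in the Cuntz algebra -/
def StmtConv : Prop := ∀ (H : Type) [NormedAddCommGroup H] [InnerProductSpace ℂ H]
  [CompleteSpace H] (S₁ S₂ : H →L[ℂ] H) (e : ℕ → H), Model H S₁ S₂ e →
  ∀ x ∈ O2 S₁ S₂, Tendsto (fun N : ℕ => ‖((1 : ℂ) / (N : ℂ)) • TN S₁ S₂ e N x - x‖) atTop (𝓝 0)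

/-- Part FAC: `T_N / N` factors through a matrix algebra by completely positive contractions -/
def StmtFac : Prop := ∀ (H : Type) [NormedAddCommGroup H] [InnerProductSpace ℂ H]
  [CompleteSpace H] (S₁ S₂ : H →L[ℂ] H) (e : ℕ → H), Model H S₁ S₂ e → ∀ N : ℕ, 1 ≤ N →
  ∃ (ι : Type) (_ : Fintype ι) (φ : O2 S₁ S₂ →ₗ[ℂ] Mat ι) (ψ : Mat ι →ₗ[ℂ] O2 S₁ S₂),
    IsCP φ ∧ IsCP ψ ∧ (∀ x, ‖φ x‖ ≤ ‖x‖) ∧ (∀ y, ‖ψ y‖ ≤ ‖y‖) ∧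
    ∀ x, ((ψ (φ x) : O2 S₁ S₂) : H →L[ℂ] H) = ((1 : ℂ) / (N : ℂ)) • TN S₁ S₂ e N x

theorem stmtO2N_of (hC : StmtConv) (hF : StmtFac) : StmtO2N := by
  intro H _ _ _ S₁ S₂ e hM F ε hε
  classical
  have h1 : ∀ᶠ N : ℕ in atTop, ∀ x ∈ F,
      ‖((1 : ℂ) / (N : ℂ)) • TN S₁ S₂ e N (x : H →L[ℂ] H) - (x : H →L[ℂ] H)‖ < ε := by
    rw [eventually_all_finset]
    intro x _
    exact (hC H S₁ S₂ e hM x x.2).eventually_lt_const hε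
  obtain ⟨N, hN1, hN2⟩ := (h1.and (eventually_ge_atTop 1)).exists
  obtain ⟨ι, hι, φ, ψ, a, b, c, d, hx⟩ := hF H S₁ S₂ e hM N hN2
  refine ⟨ι, hι, φ, ψ, a, b, c, d, fun x hxF => ?_⟩
  have h2 := hN1 x hxF
  rw [← hx x] at h2
  exact h2

end

end Pool.Agent.R283.TI
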