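import Pool.Agent.R283.TI.Stm

/-!
# Part VEC: vector valued version of an operator bound
-/

set_option autoImplicit false

open Filter Topology
open scoped InnerProductSpace

namespace Pool.Agent.R283.TI

noncomputable section

theorem stmtVec : StmtVec := by
  intro ι κ _ _ c C hC H _ _ w
  classical
  let V : Submodule ℂ H := Submodule.span ℂ (Set.range w)
  haveI : FiniteDimensional ℂ V := FiniteDimensional.span_of_finite ℂ (Set.finite_range w)
  let b := stdOrthonormalBasis ℂ V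
  have hw : ∀ k, w k ∈ V := fun k => Submodule.subset_span ⟨k, rfl⟩
  let w' : κ → V := fun k => ⟨w k, hw k⟩
  have hn : ∀ v : V, ‖v‖ ^ 2 = ∑ p, ‖b.repr v p‖ ^ 2 := by
    intro v
    rw [← b.repr.norm_map v, EuclideanSpace.norm_sq_eq]
  have e1 : ∀ j, ‖∑ k, c j k • w k‖ ^ 2 = ∑ p, ‖∑ k, c j k * b.repr (w' k) p‖ ^ 2 := by
    intro j
    have h1 : ∑ k, c j k • w k = ((∑ k, c j k • w' k : V) : H) := by
      simp [w']
    rw [h1, ← Submodule.coe_norm, hn]
    refine Finset.sum_congr rfl fun p _ => ?_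
    congr 2
    rw [map_sum]
    simp
  have e2 : ∀ k, ‖w k‖ ^ 2 = ∑ p, ‖b.repr (w' k) p‖ ^ 2 := by
    intro k
    rw [← hn]
    rfl
  calc ∑ j, ‖∑ k, c j k • w k‖ ^ 2
      = ∑ j, ∑ p, ‖∑ k, c j k * b.repr (w' k) p‖ ^ 2 := Finset.sum_congr rfl fun j _ => e1 j
    _ = ∑ p, ∑ j, ‖∑ k, c j k * b.repr (w' k) p‖ ^ 2 := Finset.sum_comm
    _ ≤ ∑ p, C ^ 2 * ∑ k, ‖b.repr (w' k) p‖ ^ 2 :=
        Finset.sum_le_sum fun p _ => hC (fun k => b.repr (w' k) p)
    _ = C ^ 2 * ∑ k, ‖w k‖ ^ 2 := by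
        rw [← Finset.mul_sum, Finset.sum_comm]
        congr 1
        exact Finset.sum_congr rfl fun k _ => (e2 k).symm

end

end Pool.Agent.R283.TI
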