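import Pool.Agent.R283.TI.NT
import Pool.Agent.R283.TI.Short
import Pool.Agent.R283.TI.Stm
import Pool.Agent.R283.TI.Conv
import Pool.Agent.R283.TI.Fac
import Pool.Agent.R283.TI.Fin
import Pool.Agent.R283.TI.Irr
import Pool.Agent.R283.TI.Lvl
import Pool.Agent.R283.TI.Model
import Pool.Agent.R283.TI.Sep
import Pool.Agent.R283.TI.Vec
import Pool.Agent.R283.TI.Cone

/-!
# A stably finite nuclear C*-algebra which is not locally type I
-/

set_option autoImplicit false

open Filter Topology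
open scoped InnerProductSpace

namespace Pool.Agent.R283.TI

noncomputable section

theorem main : ∃ (A : Type) (_ : CStarAlgebra A), TopologicalSpace.SeparableSpace A ∧
    Nuclear A ∧ StablyFinite A ∧ ¬ LocallyTypeI A := by
  obtain ⟨H, i1, i2, i3, S₁, S₂, e, hM⟩ := stmtModel
  have hsub := StarAlgebra.subset_adjoin ℂ ({S₁, S₂} : Set (H →L[ℂ] H))
  have m1 : S₁ ∈ O2 S₁ S₂ := StarSubalgebra.le_topologicalClosure _ (hsub (by simp))
  have m2 : S₂ ∈ O2 S₁ S₂ := StarSubalgebra.le_topologicalClosure _ (hsub (by simp))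
  have hnt : Nontrivial (O2 S₁ S₂) := by
    refine ⟨0, 1, fun h => ?_⟩
    have h1 : (0 : H →L[ℂ] H) = 1 := congrArg Subtype.val h
    have h2 := congrArg (fun T : H →L[ℂ] H => T (e 0)) h1
    have h3 := hM.on.1 0
    simp only [ContinuousLinearMap.zero_apply, ContinuousLinearMap.one_apply] at h2
    rw [← h2, norm_zero] at h3
    exact zero_ne_one h3
  have := stmtO2S H S₁ S₂
  refine ⟨Cone (O2 S₁ S₂), instCone _, stmtSep (O2 S₁ S₂),
    stmtCone (O2 S₁ S₂) (stmtO2N_of (stmtConv stmtVec stmtLvl) (stmtFac stmtVec stmtLvl) H S₁ S₂ e hM),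
    stmtFin (O2 S₁ S₂), ?_⟩
  exact not_locallyTypeI stmtIrr hnt ⟨S₁, m1⟩ ⟨S₂, m2⟩ (Subtype.ext hM.iso₁) (Subtype.ext hM.iso₂)
    (Subtype.ext hM.sum)

theorem main_short : ∃ (A : Type) (_ : CStarAlgebra A), TopologicalSpace.SeparableSpace A ∧
    IsNuclear A ∧ StablyFinite A ∧ ¬ IsLocallyTypeI A := by
  obtain ⟨A, i, h1, h2, h3, h4⟩ := main
  exact ⟨A, i, h1, h2.isNuclear, h3, fun h => h4 h.locallyTypeI⟩

end

end Pool.Agent.R283.TI
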