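import Pool.Agent.R283.TI.Defs

/-!
# The cone algebra over a C*-algebra containing Cuntz isometries is not locally type I
-/

set_option autoImplicit false

open Filter Topology
open scoped InnerProductSpace

namespace Pool.Agent.R283.TI

noncomputable section

/-- the trace of an operator on a finite dimensional Hilbert space is bounded by `n ‖Z‖` -/
lemma norm_trace_le {H : Type} [NormedAddCommGroup H] [InnerProductSpace ℂ H]
    [FiniteDimensional ℂ H] (Z : H →L[ℂ] H) :
    ‖LinearMap.trace ℂ H (Z : H →ₗ[ℂ] H)‖ ≤ Module.finrank ℂ H * ‖Z‖ := by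
  rw [LinearMap.trace_eq_sum_inner _ (stdOrthonormalBasis ℂ H)]
  calc ‖∑ i, ⟪stdOrthonormalBasis ℂ H i, (Z : H →ₗ[ℂ] H) (stdOrthonormalBasis ℂ H i)⟫_ℂ‖
      ≤ ∑ i, ‖⟪stdOrthonormalBasis ℂ H i, (Z : H →ₗ[ℂ] H) (stdOrthonormalBasis ℂ H i)⟫_ℂ‖ :=
        norm_sum_le _ _
    _ ≤ ∑ _i : Fin (Module.finrank ℂ H), ‖Z‖ := by
        refine Finset.sum_le_sum fun i _ => ?_
        refine (norm_inner_le_norm _ _).trans ?_
        have h1 := (stdOrthonormalBasis ℂ H).orthonormal.1 i
        rw [h1, one_mul]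
        have h2 := Z.le_opNorm (stdOrthonormalBasis ℂ H i)
        rw [h1, mul_one] at h2
        exact h2
    _ = Module.finrank ℂ H * ‖Z‖ := by simp

lemma trace_contra {H : Type} [NormedAddCommGroup H] [InnerProductSpace ℂ H] [CompleteSpace H]
    [FiniteDimensional ℂ H] [Nontrivial H] (β₁ β₂ : H →L[ℂ] H)
    (h : ‖(β₁ * star β₁ + β₂ * star β₂ - 1) - (star β₁ * β₁ + star β₂ * β₂ - 1 - 1)‖ < 1) :
    False := by
  set Z := (β₁ * star β₁ + β₂ * star β₂ - 1) - (star β₁ * β₁ + star β₂ * β₂ - 1 - 1) with hZ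
  have h1 := norm_trace_le Z
  have h2 : LinearMap.trace ℂ H (Z : H →ₗ[ℂ] H) = Module.finrank ℂ H := by
    have h3 : ∀ A B : H →L[ℂ] H, LinearMap.trace ℂ H ((A * B : H →L[ℂ] H) : H →ₗ[ℂ] H) =
        LinearMap.trace ℂ H ((B * A : H →L[ℂ] H) : H →ₗ[ℂ] H) := fun A B =>
      LinearMap.trace_mul_comm ℂ (A : H →ₗ[ℂ] H) (B : H →ₗ[ℂ] H)
    have h4 : LinearMap.trace ℂ H ((1 : H →L[ℂ] H) : H →ₗ[ℂ] H) = Module.finrank ℂ H :=
      LinearMap.trace_one ℂ H
    have h5 : (Z : H →ₗ[ℂ] H) =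
        ((β₁ * star β₁ : H →L[ℂ] H) : H →ₗ[ℂ] H) + ((β₂ * star β₂ : H →L[ℂ] H) : H →ₗ[ℂ] H)
        - ((1 : H →L[ℂ] H) : H →ₗ[ℂ] H) - (((star β₁ * β₁ : H →L[ℂ] H) : H →ₗ[ℂ] H) +
          ((star β₂ * β₂ : H →L[ℂ] H) : H →ₗ[ℂ] H) - ((1 : H →L[ℂ] H) : H →ₗ[ℂ] H)
          - ((1 : H →L[ℂ] H) : H →ₗ[ℂ] H)) := by
      rw [hZ]; rfl
    rw [h5]
    simp only [map_sub, map_add]
    rw [h3 β₁ (star β₁), h3 β₂ (star β₂), h4]
    ring
  rw [h2] at h1
  have h6 : (0 : ℝ) < Module.finrank ℂ H := by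
    exact_mod_cast Module.finrank_pos
  have h7 : ‖((Module.finrank ℂ H : ℕ) : ℂ)‖ = Module.finrank ℂ H := by simp
  rw [h7] at h1
  nlinarith

section

variable {D : Type} [CStarAlgebra D]

/-- the path `t ↦ t s` -/
def path (s : D) : Cone D :=
  ⟨⟨fun t => ((t : ℝ) : ℂ) • s, by fun_prop⟩, 0, by simp⟩

lemma path_one (s : D) : ((path s : Cone D) : C(unitInterval, D)) 1 = s := by
  simp [path]

/-- evaluation at `1` -/
def ev (B : NonUnitalStarSubalgebra ℂ (Cone D)) : B →⋆ₙₐ[ℂ] D where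
  toFun b := ((b : Cone D) : C(unitInterval, D)) 1
  map_smul' _ _ := rfl
  map_zero' := rfl
  map_add' _ _ := rfl
  map_mul' _ _ := rfl
  map_star' _ := rfl

lemma ev_near (B : NonUnitalStarSubalgebra ℂ (Cone D)) (s : D) (b : B) :
    ‖s - ev B b‖ ≤ ‖path s - (b : Cone D)‖ := by
  have h1 : s - ev B b = ((path s - (b : Cone D) : Cone D) : C(unitInterval, D)) 1 := by
    have : ((path s - (b : Cone D) : Cone D) : C(unitInterval, D)) 1 =
      ((path s : Cone D) : C(unitInterval, D)) 1 - ((b : Cone D) : C(unitInterval, D)) 1 := rfl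
    rw [this, path_one]
    rfl
  rw [h1]
  exact ContinuousMap.norm_coe_le_norm _ _

lemma near_aux {s c : D} {ε : ℝ} (hs : ‖s‖ ≤ 1) (hε : ‖s - c‖ ≤ ε) (hε1 : ε ≤ 1) :
    ‖star c * c - star s * s‖ ≤ 3 * ε ∧ ‖c * star c - s * star s‖ ≤ 3 * ε := by
  have hε0 : 0 ≤ ε := (norm_nonneg _).trans hε
  have hc : ‖c‖ ≤ 1 + ε := by
    have : c = s - (s - c) := by abel
    calc ‖c‖ = ‖s - (s - c)‖ := by rw [← this]
      _ ≤ ‖s‖ + ‖s - c‖ := norm_sub_le _ _
      _ ≤ 1 + ε := by linarith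
  have hcs : ‖c - s‖ ≤ ε := by rwa [norm_sub_rev]
  constructor
  · have h1 : star c * c - star s * s = star c * (c - s) + star (c - s) * s := by
      rw [star_sub]; noncomm_ring
    rw [h1]
    refine (norm_add_le _ _).trans ?_
    have h2 : ‖star c * (c - s)‖ ≤ (1 + ε) * ε := by
      refine (norm_mul_le _ _).trans ?_
      rw [norm_star]
      gcongr
    have h3 : ‖star (c - s) * s‖ ≤ ε * 1 := by
      refine (norm_mul_le _ _).trans ?_
      rw [norm_star]
      gcongr
    nlinarith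
  · have h1 : c * star c - s * star s = c * star (c - s) + (c - s) * star s := by
      rw [star_sub]; noncomm_ring
    rw [h1]
    refine (norm_add_le _ _).trans ?_
    have h2 : ‖c * star (c - s)‖ ≤ (1 + ε) * ε := by
      refine (norm_mul_le _ _).trans ?_
      rw [norm_star]
      gcongr
    have h3 : ‖(c - s) * star s‖ ≤ ε * 1 := by
      refine (norm_mul_le _ _).trans ?_
      rw [norm_star]
      gcongr
    nlinarith

end

section

variable {D : Type} [CStarAlgebra D]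

/-- the unital C*-algebra generated by the range of a homomorphism -/
def Env {B : Type} [NonUnitalNonAssocSemiring B] [Star B] [DistribMulAction ℂ B]
    (q : B →⋆ₙₐ[ℂ] D) : StarSubalgebra ℂ D :=
  (StarAlgebra.adjoin ℂ (Set.range q)).topologicalClosure

instance instClosedEnv {B : Type} [NonUnitalNonAssocSemiring B] [Star B] [DistribMulAction ℂ B]
    (q : B →⋆ₙₐ[ℂ] D) : IsClosed (Env q : Set D) :=
  StarSubalgebra.isClosed_topologicalClosure _

instance instEnv {B : Type} [NonUnitalNonAssocSemiring B] [Star B] [DistribMulAction ℂ B]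
    (q : B →⋆ₙₐ[ℂ] D) : CStarAlgebra (Env q) :=
  StarSubalgebra.cstarAlgebra (Env q)

lemma mem_Env {B : Type} [NonUnitalNonAssocSemiring B] [Star B] [DistribMulAction ℂ B]
    (q : B →⋆ₙₐ[ℂ] D) (b : B) : q b ∈ Env q :=
  StarSubalgebra.le_topologicalClosure _ (StarAlgebra.subset_adjoin ℂ _ ⟨b, rfl⟩)

/-- the corestriction -/
def cor {B : Type} [NonUnitalNonAssocSemiring B] [Star B] [DistribMulAction ℂ B]
    (q : B →⋆ₙₐ[ℂ] D) : B →⋆ₙₐ[ℂ] Env q where
  toFun b := ⟨q b, mem_Env q b⟩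
  map_smul' c b := Subtype.ext (map_smul q c b)
  map_zero' := Subtype.ext (map_zero q)
  map_add' a b := Subtype.ext (map_add q a b)
  map_mul' a b := Subtype.ext (map_mul q a b)
  map_star' a := Subtype.ext (map_star q a)

lemma invariant_ext {B : Type} [NonUnitalNonAssocSemiring B] [Star B] [DistribMulAction ℂ B]
    (q : B →⋆ₙₐ[ℂ] D) {H : Type} [NormedAddCommGroup H] [InnerProductSpace ℂ H]
    [CompleteSpace H] (π : Env q →⋆ₐ[ℂ] (H →L[ℂ] H)) (W : Submodule ℂ H)
    (hW : IsClosed (W : Set H)) (hinv : ∀ b, ∀ w ∈ W, π (cor q b) w ∈ W) :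
    ∀ x : Env q, ∀ w ∈ W, π x w ∈ W := by
  have h1 : ∀ x : D, ∀ hx : x ∈ StarAlgebra.adjoin ℂ (Set.range q), ∀ w ∈ W,
      π ⟨x, StarSubalgebra.le_topologicalClosure _ hx⟩ w ∈ W ∧
      π (star ⟨x, StarSubalgebra.le_topologicalClosure _ hx⟩) w ∈ W := by
    intro x hx
    induction hx using StarAlgebra.adjoin_induction with
    | mem x hx =>
      obtain ⟨b, rfl⟩ := hx
      intro w hw
      refine ⟨hinv b w hw, ?_⟩
      have h2 := hinv (star b) w hw
      rw [map_star] at h2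
      exact h2
    | algebraMap r =>
      intro w hw
      have : (⟨algebraMap ℂ D r, StarSubalgebra.le_topologicalClosure _
          (algebraMap_mem _ r)⟩ : Env q) = algebraMap ℂ (Env q) r := rfl
      rw [this, ← algebraMap_star_comm, AlgHomClass.commutes, AlgHomClass.commutes]
      exact ⟨W.smul_mem r hw, W.smul_mem (star r) hw⟩
    | add x y hx hy ihx ihy =>
      intro w hw
      have : (⟨x + y, StarSubalgebra.le_topologicalClosure _ (add_mem hx hy)⟩ : Env q) =
        ⟨x, StarSubalgebra.le_topologicalClosure _ hx⟩ +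
        ⟨y, StarSubalgebra.le_topologicalClosure _ hy⟩ := rfl
      rw [this, star_add, map_add, map_add]
      exact ⟨W.add_mem (ihx w hw).1 (ihy w hw).1, W.add_mem (ihx w hw).2 (ihy w hw).2⟩
    | mul x y hx hy ihx ihy =>
      intro w hw
      have : (⟨x * y, StarSubalgebra.le_topologicalClosure _ (mul_mem hx hy)⟩ : Env q) =
        ⟨x, StarSubalgebra.le_topologicalClosure _ hx⟩ *
        ⟨y, StarSubalgebra.le_topologicalClosure _ hy⟩ := rfl
      rw [this, star_mul, map_mul, map_mul]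
      exact ⟨(ihx _ (ihy w hw).1).1, (ihy _ (ihx w hw).2).2⟩
    | star x hx ihx =>
      intro w hw
      have : (⟨star x, StarSubalgebra.le_topologicalClosure _ (star_mem hx)⟩ : Env q) =
        star ⟨x, StarSubalgebra.le_topologicalClosure _ hx⟩ := rfl
      rw [this, star_star]
      exact ⟨(ihx w hw).2, (ihx w hw).1⟩
  intro x w hw
  have hcl : IsClosed {y : Env q | π y w ∈ W} := by
    have hc : Continuous fun y : Env q => π y w := by
      have : Continuous (π : Env q → (H →L[ℂ] H)) :=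
        AddMonoidHomClass.continuous_of_bound π 1 fun x => by
          rw [one_mul]
          exact NonUnitalStarAlgHom.norm_apply_le π x
      exact (ContinuousLinearMap.apply ℂ H w).continuous.comp this
    exact hW.preimage hc
  have hsub : {y : Env q | (y : D) ∈ StarAlgebra.adjoin ℂ (Set.range q)} ⊆
      {y : Env q | π y w ∈ W} := fun y hy => (h1 y hy w hw).1
  have hx : x ∈ closure {y : Env q | (y : D) ∈ StarAlgebra.adjoin ℂ (Set.range q)} := by
    rw [closure_subtype]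
    have h3 : (Subtype.val '' {y : Env q | (y : D) ∈ StarAlgebra.adjoin ℂ (Set.range q)}) =
        (StarAlgebra.adjoin ℂ (Set.range q) : Set D) := by
      ext z
      constructor
      · rintro ⟨y, hy, rfl⟩
        exact hy
      · intro hz
        exact ⟨⟨z, StarSubalgebra.le_topologicalClosure _ hz⟩, hz, rfl⟩
    rw [h3]
    exact x.2
  exact closure_minimal hsub hcl hx

theorem not_typeI_of {B : Type} [NonUnitalNonAssocSemiring B] [Star B] [DistribMulAction ℂ B]
    (hIrr : StmtIrr) (q : B →⋆ₙₐ[ℂ] D) (hD : Nontrivial D) (s₁ s₂ : D) (h₁ : star s₁ * s₁ = 1)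
    (h₂ : star s₂ * s₂ = 1) (h₃ : s₁ * star s₁ + s₂ * star s₂ = 1) (b₁ b₂ : B)
    (hb₁ : ‖s₁ - q b₁‖ ≤ 1 / 100) (hb₂ : ‖s₂ - q b₂‖ ≤ 1 / 100) (hB : TypeI B) : False := by
  have : Nontrivial (Env q) := by
    refine ⟨0, 1, fun h => ?_⟩
    exact zero_ne_one (congrArg (Subtype.val) h : (0 : D) = 1)
  obtain ⟨H, i1, i2, i3, π, hH, hirr, hmax⟩ := hIrr (Env q)
  have hn1 : ∀ s : D, star s * s = 1 → ‖s‖ ≤ 1 := by
    intro s hs
    have := CStarRing.norm_star_mul_self (x := s)
    rw [hs, CStarRing.norm_one] at this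
    nlinarith [norm_nonneg s]
  obtain ⟨u1, v1⟩ := near_aux (hn1 s₁ h₁) hb₁ (by norm_num)
  obtain ⟨u2, v2⟩ := near_aux (hn1 s₂ h₂) hb₂ (by norm_num)
  rw [h₁] at u1
  rw [h₂] at u2
  set c₁ : Env q := cor q b₁ with hc₁
  set c₂ : Env q := cor q b₂ with hc₂
  -- the representation of `B`
  set π' : B →⋆ₙₐ[ℂ] (H →L[ℂ] H) :=
    (π : Env q →⋆ₙₐ[ℂ] (H →L[ℂ] H)).comp (cor q) with hπ'
  have hπ'b : ∀ b, π' b = π (cor q b) := fun b => rfl
  have hone : ‖(1 : H →L[ℂ] H)‖ = 1 := norm_one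
  have hI : Irr π' := by
    refine ⟨⟨star b₁ * b₁, fun h0 => ?_⟩, fun W hW hinv => hirr W hW ?_⟩
    · have h4 : ‖π (star c₁ * c₁ - 1)‖ ≤ ‖star c₁ * c₁ - 1‖ :=
        NonUnitalStarAlgHom.norm_apply_le π _
      have h5 : ‖star c₁ * c₁ - 1‖ ≤ 3 * (1 / 100) := u1
      have h6 : π (star c₁ * c₁) = 0 := by
        rw [hπ'b, map_mul, map_star] at h0
        exact h0
      rw [map_sub, h6, map_one, zero_sub, norm_neg, hone] at h4
      linarith
    · exact invariant_ext q π W hW hinv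
  -- compact operators
  have hcomp := hB H π' hI
  let I : Submodule ℂ (Env q) :=
    { carrier := {x | IsCompactOperator (π x)}
      add_mem' := fun {x y} hx hy => by
        have := hx.add hy
        change IsCompactOperator (π (x + y))
        rw [map_add]
        exact this
      zero_mem' := by
        change IsCompactOperator (π 0)
        rw [map_zero]
        exact isCompactOperator_zero
      smul_mem' := fun c x hx => by
        have := hx.smul c
        change IsCompactOperator (π (c • x))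
        rw [map_smul]
        exact this }
  have h7 : (1 : Env q) ∈ I := by
    refine hmax I (fun x y hy => ?_) (fun x y hx => ?_) (fun x hx => ?_) ?_
    · change IsCompactOperator (π (x * y))
      rw [map_mul]
      exact IsCompactOperator.clm_comp (f := (π y)) hy (π x)
    · change IsCompactOperator (π (x * y))
      rw [map_mul]
      exact IsCompactOperator.comp_clm (f := (π x)) hx (π y)
    · change IsCompactOperator (π x)
      rw [hx]
      exact isCompactOperator_zero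
    · obtain ⟨v, hv⟩ := exists_ne (0 : H)
      have hcv : IsCompactOperator (((innerSL ℂ v).smulRight v : H →L[ℂ] H)) :=
        IsCompactOperator.clm_comp (isCompactOperator_of_locallyCompactSpace_dom (innerSL ℂ v))
          (ContinuousLinearMap.toSpanSingleton ℂ v)
      obtain ⟨b, hb⟩ := hcomp ((innerSL ℂ v).smulRight v) hcv
      refine ⟨cor q b, ?_, ?_⟩
      · change IsCompactOperator (π (cor q b))
        rw [← hπ'b, hb]
        exact hcv
      · intro h0
        rw [← hπ'b, hb] at h0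
        have h8 := congrArg (fun T : H →L[ℂ] H => T v) h0
        simp [hv] at h8
  have h8 : IsCompactOperator (id : H → H) := by
    have h9 : IsCompactOperator (π 1) := h7
    rw [map_one] at h9
    exact h9
  have : FiniteDimensional ℂ H := FiniteDimensional.of_isCompactOperator_id h8
  refine trace_contra (π c₁) (π c₂) ?_
  have h10 : (π c₁ * star (π c₁) + π c₂ * star (π c₂) - 1) -
      (star (π c₁) * π c₁ + star (π c₂) * π c₂ - 1 - 1) =
      π ((c₁ * star c₁ + c₂ * star c₂ - 1) - (star c₁ * c₁ + star c₂ * c₂ - 1 - 1)) := by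
    simp only [map_sub, map_add, map_mul, map_star, map_one]
  rw [h10]
  refine lt_of_le_of_lt (NonUnitalStarAlgHom.norm_apply_le π _) ?_
  have h11 : ‖(c₁ * star c₁ + c₂ * star c₂ - 1) - (star c₁ * c₁ + star c₂ * c₂ - 1 - 1)‖ =
    ‖(q b₁ * star (q b₁) + q b₂ * star (q b₂) - 1) -
      (star (q b₁) * q b₁ + star (q b₂) * q b₂ - 1 - 1)‖ := rfl
  rw [h11]
  have h12 : (q b₁ * star (q b₁) + q b₂ * star (q b₂) - 1) -
      (star (q b₁) * q b₁ + star (q b₂) * q b₂ - 1 - 1) =
      (q b₁ * star (q b₁) - s₁ * star s₁) + (q b₂ * star (q b₂) - s₂ * star s₂) -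
      ((star (q b₁) * q b₁ - 1) + (star (q b₂) * q b₂ - 1)) := by
    rw [← h₃]; abel
  rw [h12]
  calc _ ≤ ‖(q b₁ * star (q b₁) - s₁ * star s₁) + (q b₂ * star (q b₂) - s₂ * star s₂)‖ +
        ‖(star (q b₁) * q b₁ - 1) + (star (q b₂) * q b₂ - 1)‖ := norm_sub_le _ _
    _ ≤ (3 * (1 / 100) + 3 * (1 / 100)) + (3 * (1 / 100) + 3 * (1 / 100)) := by
        gcongr
        · exact (norm_add_le _ _).trans (add_le_add v1 v2)
        · exact (norm_add_le _ _).trans (add_le_add u1 u2)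
    _ < 1 := by norm_num

theorem not_locallyTypeI (hIrr : StmtIrr) (hD : Nontrivial D) (s₁ s₂ : D)
    (h₁ : star s₁ * s₁ = 1) (h₂ : star s₂ * s₂ = 1)
    (h₃ : s₁ * star s₁ + s₂ * star s₂ = 1) : ¬ LocallyTypeI (Cone D) := by
  classical
  intro h
  obtain ⟨B, hBc, hB, hF⟩ := h {path s₁, path s₂} (1 / 100) (by norm_num)
  obtain ⟨b₁, hb₁, hb₁'⟩ := hF (path s₁) (by simp)
  obtain ⟨b₂, hb₂, hb₂'⟩ := hF (path s₂) (by simp)
  exact not_typeI_of hIrr (ev B) hD s₁ s₂ h₁ h₂ h₃ ⟨b₁, hb₁⟩ ⟨b₂, hb₂⟩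
    ((ev_near B s₁ ⟨b₁, hb₁⟩).trans hb₁'.le) ((ev_near B s₂ ⟨b₂, hb₂⟩).trans hb₂'.le) hB

end

end

end Pool.Agent.R283.TI
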